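import Pool.Agent.Lib.MP_629a14_nt.Sm.Defs
import Pool.Agent.Lib.MP_629a14_nt.Rob.TransB

/-! Mean square of `fG`. -/

set_option autoImplicit false

namespace Pool.Agent.Lib.MP_629a14_nt.Sm

open Finset Pool.Agent.Lib.MP_629a14_nt Pool.Agent.Lib.MP_629a14_nt.Rob

private theorem fgl_gg_abs (v N m : ℕ) :
    |gg v N m| ≤ Real.log N + (primorial v : ℝ) / (primorial v).totient := by
  unfold gg
  have h1 := nu_nonneg v m
  have h2 := nu_le v m
  have h3 : 0 ≤ Real.log N := Real.log_natCast_nonneg N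
  split_ifs
  · rw [abs_le]; constructor <;> linarith
  · rw [abs_le]; constructor <;> linarith

open Classical in
private theorem fgl_small (v N n : ℕ) (B : Set ℕ) (Q : ℕ) :
    |∑ b ∈ (Ico 1 n).filter (fun b => (b.Prime ∧ b ∈ B) ∧ ¬ Q < b),
        Real.log N * gg v N (n - b)| ≤
      Q * (Real.log N * (Real.log N + (primorial v : ℝ) / (primorial v).totient)) := by
  have h3 : 0 ≤ Real.log N := Real.log_natCast_nonneg N
  have hK : 0 ≤ (primorial v : ℝ) / (primorial v).totient := by positivity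
  refine (abs_sum_le_sum_abs _ _).trans ?_
  refine (sum_le_card_nsmul _ _
    (Real.log N * (Real.log N + (primorial v : ℝ) / (primorial v).totient)) ?_).trans ?_
  · intro b _
    rw [abs_mul, abs_of_nonneg h3]
    exact mul_le_mul_of_nonneg_left (fgl_gg_abs v N _) h3
  · rw [nsmul_eq_mul]
    refine mul_le_mul_of_nonneg_right ?_ (by positivity)
    have hsub : (Ico 1 n).filter (fun b => (b.Prime ∧ b ∈ B) ∧ ¬ Q < b) ⊆ Icc 1 Q := by
      intro b hb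
      rw [mem_filter, mem_Ico] at hb
      rw [mem_Icc]
      omega
    have := card_le_card hsub
    rw [Nat.card_Icc] at this
    exact_mod_cast (by omega : _ ≤ Q)

open Classical in
private theorem fgl_conv (v N : ℕ) (hN : 1 ≤ N) (A : Finset ℕ) (hA : A ⊆ Icc 1 N) (c : ℝ)
    (hc : ∑ h ∈ range (2 * N + 1), TT N A h ^ 2 * ‖gh v N (fr N h)‖ ^ 2 ≤ c * (N : ℝ) ^ 2) :
    ∑ n ∈ Icc 1 N, (∑ b ∈ (Ico 1 n).filter (fun b => b ∈ A), Real.log N * gg v N (n - b)) ^ 2 ≤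
      c * (N : ℝ) ^ 3 / 2 := by
  have hN0 : (0 : ℝ) < N := by exact_mod_cast hN
  have h3 : 0 ≤ Real.log N := Real.log_natCast_nonneg N
  have hc0 : 0 ≤ c * (N : ℝ) ^ 2 := le_trans (sum_nonneg fun h _ => by positivity) hc
  have hc1 : 0 ≤ c := by
    by_contra hneg
    push Not at hneg
    have : c * (N : ℝ) ^ 2 < 0 := mul_neg_of_neg_of_pos hneg (by positivity)
    linarith
  have key := convL2 N (fun m => if m ∈ A then Real.log N else 0) (gg v N)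
  have e1 : ∀ n : ℕ, (∑ b ∈ (Ico 1 n).filter (fun b => b ∈ A), Real.log N * gg v N (n - b)) =
      ∑ m ∈ Ico 1 n, (if m ∈ A then Real.log N else 0) * gg v N (n - m) := by
    intro n
    rw [sum_filter]
    refine sum_congr rfl fun m _ => ?_
    split_ifs <;> ring
  have e2 : ∀ h : ℕ, ‖∑ m ∈ Icc 1 N, (((if m ∈ A then Real.log N else 0 : ℝ)) : ℂ) *
      ee (m * fr N h)‖ = N * TT N A h := by
    intro h
    have e3 : ∑ m ∈ Icc 1 N, (((if m ∈ A then Real.log N else 0 : ℝ)) : ℂ) * ee (m * fr N h) =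
        (Real.log N : ℂ) * fs N A h := by
      unfold fs fr
      rw [mul_sum]
      rw [← sum_subset hA (f := fun m => (((if m ∈ A then Real.log N else 0 : ℝ)) : ℂ) *
        ee (m * -((h : ℝ) / (2 * N + 1 : ℕ))))]
      · refine sum_congr rfl fun m hm => ?_
        rw [if_pos hm]
      · intro m _ hm
        rw [if_neg hm]
        simp
    rw [e3, norm_mul]
    unfold TT
    rw [Complex.norm_real, Real.norm_of_nonneg h3]
    field_simp
  have e4 : ∀ h : ℕ, ‖∑ m ∈ Icc 1 N, (gg v N m : ℂ) * ee (m * fr N h)‖ = ‖gh v N (fr N h)‖ := by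
    intro h
    rw [gh_eq]
  simp only [e1]
  refine key.trans ?_
  simp only [e2, e4]
  have e5 : ∑ h ∈ range (2 * N + 1), ((N : ℝ) * TT N A h) ^ 2 * ‖gh v N (fr N h)‖ ^ 2 =
      (N : ℝ) ^ 2 * ∑ h ∈ range (2 * N + 1), TT N A h ^ 2 * ‖gh v N (fr N h)‖ ^ 2 := by
    rw [mul_sum]
    refine sum_congr rfl fun h _ => by ring
  rw [e5]
  have e6 : (N : ℝ) ^ 2 * ∑ h ∈ range (2 * N + 1), TT N A h ^ 2 * ‖gh v N (fr N h)‖ ^ 2 ≤
      (N : ℝ) ^ 2 * (c * (N : ℝ) ^ 2) := mul_le_mul_of_nonneg_left hc (by positivity)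
  rw [one_div, inv_mul_le_iff₀ (by positivity)]
  refine e6.trans ?_
  have e7 : 0 ≤ c * (N : ℝ) ^ 3 := by positivity
  nlinarith

private theorem fgl_large (η K : ℝ) (hη : 0 < η) : ∃ N₀ : ℕ, ∀ N : ℕ, N₀ ≤ N →
    (⌊(N : ℝ) ^ (1 / 4 : ℝ)⌋₊ : ℝ) * (Real.log N * (Real.log N + K)) ≤ η * N / 4 := by
  have hcast : Filter.Tendsto (fun n : ℕ => (n : ℝ)) Filter.atTop Filter.atTop :=
    tendsto_natCast_atTop_atTop
  have e1 := (Real.tendsto_log_atTop.comp hcast).eventually_ge_atTop K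
  have e2 := hcast.eventually ((isLittleO_log_rpow_atTop (show (0 : ℝ) < 1 / 4 by norm_num)).def
    (show (0 : ℝ) < 1 by norm_num))
  have e3 := ((tendsto_rpow_atTop (show (0 : ℝ) < 1 / 4 by norm_num)).comp
    hcast).eventually_ge_atTop (8 / η)
  have e4 := hcast.eventually_ge_atTop 1
  obtain ⟨N₀, hN₀⟩ := Filter.eventually_atTop.1 (e1.and (e2.and (e3.and e4)))
  refine ⟨N₀, fun N hN => ?_⟩
  obtain ⟨h1, h2, h3, h4⟩ := hN₀ N hN
  simp only [Function.comp] at h1 h3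
  have hlog : 0 ≤ Real.log N := Real.log_natCast_nonneg N
  have hNp : (0 : ℝ) < N := by linarith
  have hr0 : (0 : ℝ) ≤ (N : ℝ) ^ (1 / 4 : ℝ) := by positivity
  rw [Real.norm_of_nonneg hlog, Real.norm_of_nonneg hr0, one_mul] at h2
  set r : ℝ := (N : ℝ) ^ (1 / 4 : ℝ) with hr
  have hr4 : r ^ 4 = N := by
    rw [hr, ← Real.rpow_natCast, ← Real.rpow_mul hNp.le]
    norm_num
  have hQ : (⌊r⌋₊ : ℝ) ≤ r := Nat.floor_le hr0
  have h5 : Real.log N * (Real.log N + K) ≤ r * (r + r) := by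
    have : Real.log N + K ≤ r + r := by linarith
    rcases le_total 0 (Real.log N + K) with h6 | h6
    · exact mul_le_mul h2 this h6 hr0
    · have : Real.log N * (Real.log N + K) ≤ 0 := mul_nonpos_of_nonneg_of_nonpos hlog h6
      nlinarith
  have h6 : (⌊r⌋₊ : ℝ) * (Real.log N * (Real.log N + K)) ≤ r * (r * (r + r)) := by
    calc (⌊r⌋₊ : ℝ) * (Real.log N * (Real.log N + K)) ≤ (⌊r⌋₊ : ℝ) * (r * (r + r)) :=
          mul_le_mul_of_nonneg_left h5 (by positivity)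
      _ ≤ r * (r * (r + r)) := mul_le_mul_of_nonneg_right hQ (by positivity)
  refine h6.trans ?_
  have h7 : 8 ≤ η * r := by
    rw [div_le_iff₀ hη] at h3
    linarith
  rw [← hr4]
  have h8 : 0 ≤ r ^ 3 := by positivity
  nlinarith [mul_le_mul_of_nonneg_right h7 h8]

/-- As `transB` (Rob/TransB.lean, copy its private lemmas `transB_small`, `transB_conv`,
`transB_large`): `ttg (η / 2)` and `convL2` for the primes `b > N^(1/4)`, the trivial bound for the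
small ones, `(x + y)^2 ≤ 2 x^2 + 2 y^2`. -/
theorem fG_l2 (η : ℝ) (hη : 0 < η) : ∃ v₀ : ℕ, ∀ v : ℕ, v₀ ≤ v → ∃ N₀ : ℕ, ∀ N : ℕ, N₀ ≤ N →
    ∀ B : Set ℕ, ∑ n ∈ Icc 1 N, (fG v N B n) ^ 2 ≤ η * (N : ℝ) ^ 3 := by
  classical
  obtain ⟨v₀, hv₀⟩ := ttg (η / 2) (by positivity)
  refine ⟨v₀, fun v hv => ?_⟩
  obtain ⟨N₁, hN₁⟩ := hv₀ v hv
  have hsq : 0 < 2 * Real.sqrt η := by have := Real.sqrt_pos.2 hη; linarith
  obtain ⟨N₂, hN₂⟩ := fgl_large (2 * Real.sqrt η) ((primorial v : ℝ) / (primorial v).totient) hsq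
  refine ⟨max (max N₁ N₂) 1, fun N hN B => ?_⟩
  have hN1 : N₁ ≤ N := le_trans (le_trans (le_max_left _ _) (le_max_left _ _)) hN
  have hN2 : N₂ ≤ N := le_trans (le_trans (le_max_right _ _) (le_max_left _ _)) hN
  have hN3 : 1 ≤ N := le_trans (le_max_right _ _) hN
  have hNp : (0 : ℝ) < N := by exact_mod_cast hN3
  set Q : ℕ := ⌊(N : ℝ) ^ (1 / 4 : ℝ)⌋₊ with hQ
  set A : Finset ℕ := (Icc 1 N).filter (fun b => (b.Prime ∧ b ∈ B) ∧ Q < b) with hA
  have hAs : A ⊆ Icc 1 N := filter_subset _ _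
  have hAp : ∀ p ∈ A, p.Prime ∧ ⌊(N : ℝ) ^ (1 / 4 : ℝ)⌋₊ < p ∧ p ≤ N := by
    intro p hp
    rw [hA, mem_filter, mem_Icc] at hp
    exact ⟨hp.2.1.1, hp.2.2, hp.1.2⟩
  have h1 := fgl_conv v N hN3 A hAs (η / 2) (hN₁ N hN1 A hAp)
  have h2 := hN₂ N hN2
  rw [← hQ] at h2
  set F : ℕ → ℝ := fun n => ∑ b ∈ (Ico 1 n).filter (fun b => b ∈ A),
    Real.log N * gg v N (n - b) with hF
  have h3 : ∀ n ∈ Icc 1 N, fG v N B n = F n +
      ∑ b ∈ (Ico 1 n).filter (fun b => (b.Prime ∧ b ∈ B) ∧ ¬ Q < b),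
        Real.log N * gg v N (n - b) := by
    intro n hn
    rw [mem_Icc] at hn
    unfold fG
    rw [hF]
    simp only
    rw [← sum_filter_add_sum_filter_not ((Ico 1 n).filter (fun b => b.Prime ∧ b ∈ B))
      (fun b => Q < b)]
    rw [filter_filter, filter_filter]
    congr 1
    refine sum_congr ?_ fun _ _ => rfl
    ext b
    rw [mem_filter, mem_filter, hA, mem_filter, mem_Icc, mem_Ico]
    constructor
    · rintro ⟨⟨ha, hb⟩, hc⟩
      exact ⟨⟨ha, hb⟩, ⟨ha, by omega⟩, hc⟩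
    · rintro ⟨⟨ha, hb⟩, _, hc⟩
      exact ⟨⟨ha, hb⟩, hc⟩
  have hsqe : Real.sqrt η ^ 2 = η := Real.sq_sqrt hη.le
  have h4 : ∀ n ∈ Icc 1 N, (fG v N B n) ^ 2 ≤ 2 * (F n) ^ 2 + η * (N : ℝ) ^ 2 / 2 := by
    intro n hn
    have h5 := h3 n hn
    have h6 := fgl_small v N n B Q
    obtain ⟨s, hs⟩ : ∃ s, s = ∑ b ∈ (Ico 1 n).filter (fun b => (b.Prime ∧ b ∈ B) ∧ ¬ Q < b),
        Real.log N * gg v N (n - b) := ⟨_, rfl⟩
    rw [← hs] at h5 h6
    have h7 : |s| ≤ 2 * Real.sqrt η * N / 4 := h6.trans h2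
    have h8 : s ^ 2 ≤ η * (N : ℝ) ^ 2 / 4 := by
      rw [← sq_abs s]
      refine (pow_le_pow_left₀ (abs_nonneg _) h7 2).trans (le_of_eq ?_)
      calc (2 * Real.sqrt η * N / 4) ^ 2 = Real.sqrt η ^ 2 * (N : ℝ) ^ 2 / 4 := by ring
        _ = _ := by rw [hsqe]
    rw [h5]
    nlinarith [sq_nonneg (F n - s)]
  calc ∑ n ∈ Icc 1 N, (fG v N B n) ^ 2 ≤
        ∑ n ∈ Icc 1 N, (2 * (F n) ^ 2 + η * (N : ℝ) ^ 2 / 2) := sum_le_sum h4
    _ = 2 * ∑ n ∈ Icc 1 N, (F n) ^ 2 + N * (η * (N : ℝ) ^ 2 / 2) := by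
        rw [sum_add_distrib, ← mul_sum, sum_const, Nat.card_Icc, nsmul_eq_mul,
          Nat.add_sub_cancel]
    _ ≤ 2 * (η / 2 * (N : ℝ) ^ 3 / 2) + N * (η * (N : ℝ) ^ 2 / 2) := by
        have := mul_le_mul_of_nonneg_left h1 (show (0 : ℝ) ≤ 2 by norm_num)
        linarith
    _ = η * (N : ℝ) ^ 3 := by ring

end Pool.Agent.Lib.MP_629a14_nt.Sm
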