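import Pool.Agent.Lib.MP_629a14_nt.Sm.Defs
import Pool.Agent.Lib.MP_629a14_nt.Rob.PiAP

/-! Counting primes in residue classes. -/

set_option autoImplicit false

namespace Pool.Agent.Lib.MP_629a14_nt.Sm

open Finset Pool.Agent.Lib.MP_629a14_nt Pool.Agent.Lib.MP_629a14_nt.Rob

open Classical in
private theorem cnt_cntC_eq (m : ℕ) (A : Set ℕ) (x : ZMod m) (K : ℕ) :
    cntC m A x K =
      ((Icc 1 K).filter (fun p => p.Prime ∧ p ∈ A ∧ (p : ZMod m) = x)).card := by
  unfold cntC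
  congr

open Classical in
private theorem cnt_cntB_eq (A : Set ℕ) (K : ℕ) :
    cntB A K = ((Icc 1 K).filter (fun p => p.Prime ∧ p ∈ A)).card := by
  unfold cntB
  congr

/-- The primes larger than `w` are units modulo `primorial w`. -/
theorem cntC_sum (w : ℕ) (A : Set ℕ) (K : ℕ) :
    (cntB A K : ℝ) - w ≤ ∑ x ∈ UM (primorial w), (cntC (primorial w) A x K : ℝ) := by
  classical
  have hsub : (Icc 1 K).filter (fun p => p.Prime ∧ p ∈ A) ⊆
      Icc 1 w ∪ (UM (primorial w)).biUnion (fun x => (Icc 1 K).filter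
        (fun p => p.Prime ∧ p ∈ A ∧ (p : ZMod (primorial w)) = x)) := by
    intro p hp
    rw [mem_filter] at hp
    rw [mem_union, mem_biUnion]
    rcases le_or_gt p w with h | h
    · exact Or.inl (mem_Icc.2 ⟨(mem_Icc.1 hp.1).1, h⟩)
    · refine Or.inr ⟨(p : ZMod (primorial w)), ?_, ?_⟩
      · unfold UM
        rw [mem_filter]
        refine ⟨mem_univ _, ?_⟩
        rw [ZMod.isUnit_iff_coprime, Nat.Prime.coprime_iff_not_dvd hp.2.1]
        intro hd
        unfold primorial at hd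
        rw [Prime.dvd_finsetProd_iff (Nat.Prime.prime hp.2.1)] at hd
        obtain ⟨q, hq, hpq⟩ := hd
        rw [mem_filter, mem_range] at hq
        have := (Nat.prime_dvd_prime_iff_eq hp.2.1 hq.2).1 hpq
        omega
      · rw [mem_filter]
        exact ⟨hp.1, hp.2.1, hp.2.2, rfl⟩
  have h1 := card_le_card hsub
  have h2 := h1.trans ((card_union_le _ _).trans (Nat.add_le_add_left card_biUnion_le _))
  rw [Nat.card_Icc, Nat.add_sub_cancel, ← cnt_cntB_eq] at h2
  have h3 : ∑ u ∈ UM (primorial w), ((Icc 1 K).filter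
      (fun p => p.Prime ∧ p ∈ A ∧ (p : ZMod (primorial w)) = u)).card =
      ∑ u ∈ UM (primorial w), cntC (primorial w) A u K :=
    sum_congr rfl fun u _ => (cnt_cntC_eq _ _ _ _).symm
  rw [h3] at h2
  have h4 : (cntB A K : ℝ) ≤ w + ∑ x ∈ UM (primorial w), (cntC (primorial w) A x K : ℝ) := by
    exact_mod_cast h2
  linarith

/-- `pi_unif` for the finitely many classes. -/
theorem cntC_le (w : ℕ) (ε : ℝ) (hε : 0 < ε) : ∃ N₀ : ℕ, ∀ N : ℕ, N₀ ≤ N → ∀ K : ℕ, K ≤ N →
    ∀ A : Set ℕ, ∀ x : ZMod (primorial w), IsUnit x →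
      Real.log N * (cntC (primorial w) A x K : ℝ) ≤ (K : ℝ) / (primorial w).totient + ε * N := by
  classical
  have hq : 1 ≤ primorial w := primorial_pos w
  have key : ∀ x : ZMod (primorial w), ∃ N₀ : ℕ, IsUnit x → ∀ N : ℕ, N₀ ≤ N → ∀ K : ℕ, K ≤ N →
      |Real.log N * (((Icc 1 K).filter (fun n => n.Prime ∧ n ≡ x.val [MOD primorial w])).card : ℝ) -
        (K : ℝ) / (primorial w).totient| ≤ ε * N := by
    intro x
    by_cases hx : IsUnit x
    · have hc : Nat.Coprime x.val (primorial w) := by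
        rw [← ZMod.isUnit_iff_coprime, ZMod.natCast_zmod_val]
        exact hx
      obtain ⟨N₀, hN₀⟩ := pi_unif (primorial w) x.val hq hc ε hε
      exact ⟨N₀, fun _ => hN₀⟩
    · exact ⟨0, fun h => absurd h hx⟩
  choose f hf using key
  refine ⟨univ.sup f, fun N hN K hK A x hx => ?_⟩
  have h1 := hf x hx N ((le_sup (f := f) (mem_univ x)).trans hN) K hK
  have h2 := (abs_le.1 h1).2
  have h3 : cntC (primorial w) A x K ≤
      ((Icc 1 K).filter (fun n => n.Prime ∧ n ≡ x.val [MOD primorial w])).card := by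
    rw [cnt_cntC_eq]
    refine card_le_card fun p hp => ?_
    rw [mem_filter] at hp ⊢
    refine ⟨hp.1, hp.2.1, ?_⟩
    rw [← ZMod.natCast_eq_natCast_iff, ZMod.natCast_zmod_val]
    exact hp.2.2.2
  have h4 : Real.log N * (cntC (primorial w) A x K : ℝ) ≤ Real.log N *
      (((Icc 1 K).filter (fun n => n.Prime ∧ n ≡ x.val [MOD primorial w])).card : ℝ) :=
    mul_le_mul_of_nonneg_left (by exact_mod_cast h3) (Real.log_natCast_nonneg N)
  linarith

/-- `pi_unif` with `q = 1`. -/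
theorem cnt_univ (ε : ℝ) (hε : 0 < ε) : ∃ N₀ : ℕ, ∀ N : ℕ, N₀ ≤ N → ∀ K : ℕ, K ≤ N →
    |Real.log N * (cntB Set.univ K : ℝ) - K| ≤ ε * N := by
  classical
  obtain ⟨N₀, hN₀⟩ := pi_unif 1 0 le_rfl (by norm_num) ε hε
  refine ⟨N₀, fun N hN K hK => ?_⟩
  have h1 := hN₀ N hN K hK
  have h2 : ∀ A : Set ℕ, (∀ p, p ∈ A) → cntB A K =
      ((Icc 1 K).filter (fun n => n.Prime ∧ n ≡ 0 [MOD 1])).card := by
    intro A hA
    rw [cnt_cntB_eq]
    refine congrArg Finset.card (Finset.ext fun p => ?_)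
    rw [mem_filter, mem_filter]
    exact ⟨fun h => ⟨h.1, h.2.1, Nat.modEq_one⟩, fun h => ⟨h.1, h.2.1, hA p⟩⟩
  rw [h2 Set.univ fun p => Set.mem_univ p]
  simpa using h1

end Pool.Agent.Lib.MP_629a14_nt.Sm
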