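import Mathlib
import Pool.Agent.Lib.MP_629a14_nt.Rob.SDefs

/-! Definitions for the sharp theorem on sums of two sets of primes. -/

set_option autoImplicit false

namespace Pool.Agent.Lib.MP_629a14_nt.Sm

open Finset Pool.Agent.Lib.MP_629a14_nt Pool.Agent.Lib.MP_629a14_nt.Rob

instance primorial_neZero (w : ℕ) : NeZero (primorial w) := ⟨(primorial_pos w).ne'⟩

/-- The sum inequality for functions on the subset `U` of a finite abelian group. -/
def Good (G : Type) [AddCommGroup G] [Fintype G] (U : Finset G) (s C : ℝ) : Prop :=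
  ∀ a b c : G → ℝ, (∀ x, 0 ≤ a x) → (∀ x, 0 ≤ b x) → (∀ x, 0 ≤ c x) →
    (∀ x ∈ U, ∀ y ∈ U, a x * b y ≤ c (x + y)) →
    C * (∑ x ∈ U, a x) * (∑ y ∈ U, b y ^ s) ^ (1 / s) ≤ ∑ z, c z

/-- The gain `r ^ N / (1 + r + ... + r ^ (N - 1))`. -/
noncomputable def kap (N : ℕ) (r : ℝ) : ℝ := r ^ N / ∑ i ∈ range N, r ^ i

/-- The exponent with `N ^ (1 / sE N) = 1 + 1 / N`. -/
noncomputable def sE (N : ℕ) : ℝ := Real.log N / Real.log (1 + 1 / N)

/-- The units modulo `m`. -/
noncomputable def UM (m : ℕ) [NeZero m] : Finset (ZMod m) := by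
  classical exact univ.filter (fun x => IsUnit x)

/-- The number of primes `p ≤ K`, `p ∈ A`, with residue `x` modulo `m`. -/
noncomputable def cntC (m : ℕ) (A : Set ℕ) (x : ZMod m) (K : ℕ) : ℕ := by
  classical exact ((Icc 1 K).filter (fun p => p.Prime ∧ p ∈ A ∧ (p : ZMod m) = x)).card

/-- The number of pairs of primes `p ∈ A`, `q ∈ B` with `p + q = n`. -/
noncomputable def repsIn (A B : Set ℕ) (n : ℕ) : ℕ := by
  classical exact ((range (n + 1)).filter
    (fun p => p.Prime ∧ (n - p).Prime ∧ p ∈ A ∧ n - p ∈ B)).card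

/-- Product of `p / (p - 1)` over the primes `w < p ≤ v` with `b ≡ b'` modulo `p`. -/
noncomputable def JJ (w v b b' : ℕ) : ℝ :=
  ∏ p ∈ (Ioc w v).filter (fun p => p.Prime ∧ b ≡ b' [MOD p]), ((p : ℝ) / ((p : ℝ) - 1))

/-- Convolution of the finite set `S` (with weight `log N`) with `nu`. -/
noncomputable def FS (v N : ℕ) (S : Finset ℕ) (n : ℕ) : ℝ :=
  ∑ b ∈ S.filter (fun b => b < n), Real.log N * nu v (n - b)

/-- The expected value of `FS`. -/
noncomputable def Fbar (w N : ℕ) (S : Finset ℕ) : ℝ :=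
  Real.log N * ((primorial w : ℝ) / (primorial w).totient) * S.card

end Pool.Agent.Lib.MP_629a14_nt.Sm
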