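import Pool.Agent.Lib.MP_629a14_nt.Sm.Defs

/-! Large values of `n / φ(n)`. -/

set_option autoImplicit false

namespace Pool.Agent.Lib.MP_629a14_nt.Sm

open Finset Pool.Agent.Lib.MP_629a14_nt Pool.Agent.Lib.MP_629a14_nt.Rob

private theorem div_phi_le (n : ℕ) (hn : n ≠ 0) :
    (n : ℝ) / n.totient ≤ (∏ p ∈ n.primeFactors, (1 + 1 / (p : ℝ))) ^ 2 := by
  have hφ : ((n.totient : ℕ) : ℝ) = n * ∏ p ∈ n.primeFactors, (1 - (p : ℝ)⁻¹) := by
    have h := Nat.totient_eq_mul_prod_factors n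
    have h2 := congrArg (fun x : ℚ => (x : ℝ)) h
    push_cast at h2
    exact h2
  have hn' : (0 : ℝ) < n := by exact_mod_cast Nat.pos_of_ne_zero hn
  have h2le : ∀ p ∈ n.primeFactors, (2 : ℝ) ≤ p := by
    intro p hp
    exact_mod_cast (Nat.prime_of_mem_primeFactors hp).two_le
  have hpos : ∀ p ∈ n.primeFactors, (0 : ℝ) < 1 - (p : ℝ)⁻¹ := by
    intro p hp
    have h3 : (p : ℝ)⁻¹ ≤ 2⁻¹ := inv_anti₀ (by norm_num) (h2le p hp)
    norm_num at h3 ⊢
    linarith
  have hP : (0 : ℝ) < ∏ p ∈ n.primeFactors, (1 - (p : ℝ)⁻¹) := Finset.prod_pos hpos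
  rw [hφ, div_le_iff₀ (by positivity), ← Finset.prod_pow]
  have key : (1 : ℝ) ≤ (∏ p ∈ n.primeFactors, (1 + 1 / (p : ℝ)) ^ 2) *
      ∏ p ∈ n.primeFactors, (1 - (p : ℝ)⁻¹) := by
    rw [← Finset.prod_mul_distrib]
    have h1 : ∏ p ∈ n.primeFactors, (1 : ℝ) ≤
        ∏ p ∈ n.primeFactors, ((1 + 1 / (p : ℝ)) ^ 2 * (1 - (p : ℝ)⁻¹)) := by
      apply Finset.prod_le_prod
      · intro i _; norm_num
      · intro p hp
        have hp2 := h2le p hp
        have hp0 : (0 : ℝ) < p := by linarith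
        have : (1 + 1 / (p : ℝ)) ^ 2 * (1 - (p : ℝ)⁻¹) = ((p + 1) ^ 2 * (p - 1)) / p ^ 3 := by
          field_simp
        rw [this, le_div_iff₀ (by positivity)]
        nlinarith [mul_pos hp0 hp0]
    simpa using h1
  nlinarith [key, hn']

private theorem prod_le_sum (n : ℕ) (hn : n ≠ 0) :
    ∏ p ∈ n.primeFactors, (1 + 1 / (p : ℝ)) ≤ ∑ d ∈ n.divisors, 1 / (d : ℝ) := by
  rw [Finset.prod_one_add]
  have hinj : Set.InjOn (fun t : Finset ℕ => ∏ p ∈ t, p) n.primeFactors.powerset := by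
    intro s hs t ht hst
    simp only [Finset.coe_powerset, Set.mem_preimage, Set.mem_powerset_iff, Finset.coe_subset] at hs ht
    have h1 := Nat.primeFactors_prod (s := s) (fun p hp => Nat.prime_of_mem_primeFactors (hs hp))
    have h2 := Nat.primeFactors_prod (s := t) (fun p hp => Nat.prime_of_mem_primeFactors (ht hp))
    simp only at hst
    rw [← h1, ← h2, hst]
  calc ∑ t ∈ n.primeFactors.powerset, ∏ p ∈ t, 1 / (p : ℝ)
      = ∑ t ∈ n.primeFactors.powerset, 1 / ((∏ p ∈ t, p : ℕ) : ℝ) := by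
        apply Finset.sum_congr rfl
        intro t _
        push_cast
        simp
    _ = ∑ d ∈ n.primeFactors.powerset.image (fun t : Finset ℕ => ∏ p ∈ t, p), 1 / (d : ℝ) := by
        rw [Finset.sum_image hinj]
    _ ≤ ∑ d ∈ n.divisors, 1 / (d : ℝ) := by
        apply Finset.sum_le_sum_of_subset_of_nonneg
        · intro d hd
          obtain ⟨t, ht, rfl⟩ := Finset.mem_image.mp hd
          rw [Nat.mem_divisors]
          refine ⟨?_, hn⟩
          exact (Finset.prod_dvd_prod_of_subset _ _ _ (Finset.mem_powerset.mp ht)).trans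
            (Nat.prod_primeFactors_dvd n)
        · intro i _ _
          positivity

private theorem inv_sq_sum (N : ℕ) : ∑ d ∈ Icc 1 N, 1 / ((d : ℝ) ^ 2) ≤ 2 - 1 / (N : ℝ) := by
  induction N with
  | zero => norm_num
  | succ k ih =>
    rw [Finset.sum_Icc_succ_top (by omega)]
    rcases Nat.eq_zero_or_pos k with hk | hk
    · subst hk; norm_num
    · have h0 : (0 : ℝ) < k := by exact_mod_cast hk
      have h1 : 1 / (((k + 1 : ℕ) : ℝ) ^ 2) ≤ 1 / (k : ℝ) - 1 / ((k + 1 : ℕ) : ℝ) := by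
        push_cast
        have h2 : 1 / (k : ℝ) - 1 / ((k : ℝ) + 1) = 1 / (k * (k + 1)) := by
          field_simp
          ring
        rw [h2]
        apply one_div_le_one_div_of_le (by positivity)
        nlinarith
      linarith

private theorem sum_divs (N : ℕ) : ∑ n ∈ Icc 1 N, ∑ d ∈ n.divisors, 1 / (d : ℝ) ≤ 2 * N := by
  have h1 : ∀ n ∈ Icc 1 N, ∑ d ∈ n.divisors, 1 / (d : ℝ) =
      ∑ d ∈ Icc 1 N, if d ∣ n then 1 / (d : ℝ) else 0 := by
    intro n hn
    rw [Finset.mem_Icc] at hn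
    rw [← Finset.sum_filter]
    apply Finset.sum_congr _ (fun _ _ => rfl)
    ext d
    simp only [Nat.mem_divisors, Finset.mem_filter, Finset.mem_Icc]
    constructor
    · rintro ⟨h, _⟩
      exact ⟨⟨Nat.pos_of_dvd_of_pos h (by omega), (Nat.le_of_dvd (by omega) h).trans hn.2⟩, h⟩
    · rintro ⟨_, h⟩
      exact ⟨h, by omega⟩
  rw [Finset.sum_congr rfl h1, Finset.sum_comm]
  have h2 : ∀ d ∈ Icc 1 N, (∑ n ∈ Icc 1 N, if d ∣ n then 1 / (d : ℝ) else 0) ≤
      N * (1 / (d : ℝ) ^ 2) := by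
    intro d hd
    rw [Finset.mem_Icc] at hd
    have hd0 : (0 : ℝ) < d := by exact_mod_cast (by omega : 0 < d)
    rw [← Finset.sum_filter, Finset.sum_const, nsmul_eq_mul]
    have hc : ((Icc 1 N).filter (fun n => d ∣ n)).card = N / d := by
      have := Nat.Ioc_filter_dvd_card_eq_div N d
      rw [← this]
      rfl
    rw [hc]
    have h3 : ((N / d : ℕ) : ℝ) ≤ (N : ℝ) / d := Nat.cast_div_le
    calc ((N / d : ℕ) : ℝ) * (1 / d) ≤ ((N : ℝ) / d) * (1 / d) := by
          apply mul_le_mul_of_nonneg_right h3 (by positivity)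
      _ = N * (1 / (d : ℝ) ^ 2) := by
          field_simp
  refine (Finset.sum_le_sum h2).trans ?_
  rw [← Finset.mul_sum]
  have h3 := inv_sq_sum N
  have h4 : (0 : ℝ) ≤ 1 / (N : ℝ) := by positivity
  have h5 : (0 : ℝ) ≤ N := Nat.cast_nonneg N
  nlinarith

/-- The sum over `n ≤ N` of `n / φ(n)` is `O(N)`. -/
theorem phiBad (ε : ℝ) (hε : 0 < ε) : ∃ K : ℝ, 1 ≤ K ∧ ∀ N : ℕ,
    (((Icc 1 N).filter (fun n : ℕ => K < (n : ℝ) / n.totient)).card : ℝ) ≤ ε * N := by
  set T : ℝ := 1 + 2 / ε with hT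
  have hT1 : 1 ≤ T := by
    have : 0 < 2 / ε := by positivity
    linarith
  refine ⟨T ^ 2, by nlinarith, fun N => ?_⟩
  have hsum := sum_divs N
  set F := (Icc 1 N).filter (fun n : ℕ => T ^ 2 < (n : ℝ) / n.totient) with hF
  have h1 : ∑ n ∈ F, T ≤ ∑ n ∈ Icc 1 N, ∑ d ∈ n.divisors, 1 / (d : ℝ) := by
    refine le_trans (Finset.sum_le_sum ?_) (Finset.sum_le_sum_of_subset_of_nonneg
      (Finset.filter_subset _ _) ?_)
    · intro n hn
      rw [hF, Finset.mem_filter, Finset.mem_Icc] at hn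
      have hn0 : n ≠ 0 := by omega
      have h2 := div_phi_le n hn0
      have h3 : T ^ 2 < (∏ p ∈ n.primeFactors, (1 + 1 / (p : ℝ))) ^ 2 := lt_of_lt_of_le hn.2 h2
      have h4 : T < ∏ p ∈ n.primeFactors, (1 + 1 / (p : ℝ)) :=
        lt_of_pow_lt_pow_left₀ 2 (Finset.prod_nonneg (fun p _ => by positivity)) h3
      exact (h4.le).trans (prod_le_sum n hn0)
    · intro n _ _
      exact Finset.sum_nonneg (fun d _ => by positivity)
  rw [Finset.sum_const, nsmul_eq_mul] at h1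
  have h2 : (F.card : ℝ) * T ≤ 2 * N := h1.trans hsum
  have h3 : (F.card : ℝ) * (2 / ε) ≤ 2 * N := by
    have : (0 : ℝ) ≤ F.card := Nat.cast_nonneg _
    nlinarith
  have h4 : (F.card : ℝ) * (2 / ε) = 2 * (F.card / ε) := by ring
  rw [h4] at h3
  have h5 : (F.card : ℝ) / ε ≤ N := by linarith
  rw [div_le_iff₀ hε] at h5
  linarith

end Pool.Agent.Lib.MP_629a14_nt.Sm
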