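import Pool.Agent.Lib.MP_629a14_nt.Sm.Defs
import Pool.Agent.Lib.MP_629a14_nt.Rob.PiAP

/-! The extremal example. -/

set_option autoImplicit false

namespace Pool.Agent.Lib.MP_629a14_nt.Sm

open Finset Filter Topology Pool.Agent.Lib.MP_629a14_nt Pool.Agent.Lib.MP_629a14_nt.Rob

/-- The natural numbers with residue in `R`. -/
def cls (w : ℕ) (R : Finset (ZMod (primorial w))) : Set ℕ := {n | (n : ZMod (primorial w)) ∈ R}

private theorem class_card (M : ℕ) (c : ZMod M) (N : ℕ) :
    (((Icc 1 N).filter (fun n : ℕ => (n : ZMod M) = c)).card : ℝ) ≤ (N : ℝ) / M + 1 := by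
  have h1 : ((Icc 1 N).filter (fun n : ℕ => (n : ZMod M) = c)).card ≤ (range (N / M + 1)).card := by
    apply Finset.card_le_card_of_injOn (fun n => n / M)
    · intro n hn
      simp only [Finset.coe_filter, Finset.mem_Icc, Set.mem_ofPred_eq] at hn
      simp only [Finset.coe_range, Set.mem_Iio]
      have := Nat.div_le_div_right (c := M) hn.1.2
      omega
    · intro a ha b hb hab
      simp only [Finset.coe_filter, Finset.mem_Icc, Set.mem_ofPred_eq] at ha hb
      have h2 : (a : ZMod M) = (b : ZMod M) := by rw [ha.2, hb.2]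
      rw [ZMod.natCast_eq_natCast_iff] at h2
      have h3 : a % M = b % M := h2
      simp only at hab
      rw [← Nat.div_add_mod a M, ← Nat.div_add_mod b M, hab, h3]
  rw [Finset.card_range] at h1
  have h2 : (((Icc 1 N).filter (fun n : ℕ => (n : ZMod M) = c)).card : ℝ) ≤ ((N / M + 1 : ℕ) : ℝ) := by
    exact_mod_cast h1
  refine h2.trans ?_
  push_cast
  have := @Nat.cast_div_le ℝ _ _ _ N M
  linarith

open Classical in
/-- A sum of an element of `cls w R` and an element of `cls w {1}` has residue in `R + 1`. -/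
theorem sharp_count (w : ℕ) (R : Finset (ZMod (primorial w))) (N : ℕ) :
    (((Icc 1 N).filter (fun n : ℕ => 0 < repsIn (cls w R) (cls w {1}) n)).card : ℝ) ≤
      R.card * ((N : ℝ) / primorial w + 1) := by
  have hsub : (Icc 1 N).filter (fun n : ℕ => 0 < repsIn (cls w R) (cls w {1}) n) ⊆
      R.biUnion (fun r => (Icc 1 N).filter (fun n : ℕ => (n : ZMod (primorial w)) = r + 1)) := by
    intro n hn
    rw [Finset.mem_filter] at hn
    obtain ⟨hn1, hn2⟩ := hn
    unfold repsIn at hn2
    rw [Finset.card_pos] at hn2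
    obtain ⟨p, hp⟩ := hn2
    rw [Finset.mem_filter, Finset.mem_range] at hp
    obtain ⟨hpn, _, _, hpR, hq⟩ := hp
    rw [Finset.mem_biUnion]
    refine ⟨(p : ZMod (primorial w)), hpR, ?_⟩
    rw [Finset.mem_filter]
    refine ⟨hn1, ?_⟩
    have hq' : ((n - p : ℕ) : ZMod (primorial w)) ∈ ({1} : Finset (ZMod (primorial w))) := hq
    rw [Finset.mem_singleton] at hq'
    rw [← hq', ← Nat.cast_add]
    congr 1
    omega
  have h1 := (Finset.card_le_card hsub).trans Finset.card_biUnion_le
  have h2 : (((Icc 1 N).filter (fun n : ℕ => 0 < repsIn (cls w R) (cls w {1}) n)).card : ℝ) ≤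
      ∑ r ∈ R, (((Icc 1 N).filter (fun n : ℕ => (n : ZMod (primorial w)) = r + 1)).card : ℝ) := by
    exact_mod_cast h1
  refine h2.trans ?_
  refine (Finset.sum_le_sum (fun r _ => class_card (primorial w) (r + 1) N)).trans ?_
  rw [Finset.sum_const, nsmul_eq_mul]

/-- `pi_ap` for the residue classes in `R` and for `q = 1`. -/
theorem sharp_dens (w : ℕ) (R : Finset (ZMod (primorial w))) (hR : ∀ x ∈ R, IsUnit x) :
    Tendsto (fun x : ℕ => (cntB (cls w R) x : ℝ) / cntB Set.univ x) atTop
      (𝓝 ((R.card : ℝ) / (primorial w).totient)) := by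
  classical
  have hM : 1 ≤ primorial w := primorial_pos w
  have h1 : Tendsto (fun x : ℕ => (cntB Set.univ x : ℝ) * Real.log x / (x : ℝ)) atTop (𝓝 1) := by
    have h := pi_ap 1 0 le_rfl (by simp)
    simp only [Nat.totient_one, Nat.cast_one, div_one] at h
    refine h.congr fun x => ?_
    have : (Icc 1 x).filter (fun n => n.Prime ∧ n ≡ 0 [MOD 1]) =
        (Icc 1 x).filter (fun p => p.Prime ∧ p ∈ Set.univ) := by
      apply Finset.filter_congr
      intro n _
      simp [Nat.modEq_one]
    unfold cntB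
    rw [this]
    congr!
  have h2 : Tendsto (fun x : ℕ => (cntB (cls w R) x : ℝ) * Real.log x / (x : ℝ)) atTop
      (𝓝 ((R.card : ℝ) / (primorial w).totient)) := by
    have h3 : Tendsto (fun x : ℕ => ∑ r ∈ R,
        (((Icc 1 x).filter (fun n => n.Prime ∧ n ≡ r.val [MOD (primorial w)])).card : ℝ) *
        Real.log x / (x : ℝ)) atTop (𝓝 (∑ r ∈ R, 1 / ((primorial w).totient : ℝ))) := by
      apply tendsto_finsetSum
      intro r hr
      apply pi_ap (primorial w) r.val hM
      have := hR r hr
      rw [← ZMod.natCast_zmod_val r] at this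
      exact (ZMod.isUnit_iff_coprime r.val (primorial w)).1 this
    rw [Finset.sum_const, nsmul_eq_mul, mul_one_div] at h3
    refine h3.congr fun x => ?_
    rw [← Finset.sum_div, ← Finset.sum_mul]
    congr 2
    have h4 : (Icc 1 x).filter (fun p => p.Prime ∧ p ∈ cls w R) =
        R.biUnion (fun r => (Icc 1 x).filter
          (fun n => n.Prime ∧ n ≡ r.val [MOD (primorial w)])) := by
      ext n
      simp only [Finset.mem_filter, Finset.mem_biUnion]
      constructor
      · rintro ⟨hn1, hn2, hn3⟩
        refine ⟨(n : ZMod (primorial w)), hn3, hn1, hn2, ?_⟩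
        rw [← ZMod.natCast_eq_natCast_iff, ZMod.natCast_zmod_val]
      · rintro ⟨r, hr, hn1, hn2, hn3⟩
        refine ⟨hn1, hn2, ?_⟩
        rw [← ZMod.natCast_eq_natCast_iff, ZMod.natCast_zmod_val] at hn3
        show (n : ZMod (primorial w)) ∈ R
        rw [hn3]
        exact hr
    have h5 : cntB (cls w R) x = ∑ r ∈ R, ((Icc 1 x).filter
        (fun n => n.Prime ∧ n ≡ r.val [MOD (primorial w)])).card := by
      unfold cntB
      rw [h4, Finset.card_biUnion]
      intro r _ s _ hrs
      rw [Function.onFun, Finset.disjoint_left]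
      intro n hn1 hn2
      rw [Finset.mem_filter] at hn1 hn2
      apply hrs
      have h6 := hn1.2.2
      have h7 := hn2.2.2
      rw [← ZMod.natCast_eq_natCast_iff, ZMod.natCast_zmod_val] at h6 h7
      rw [← h6, ← h7]
    rw [h5]
    push_cast
    rfl
  have h3 := h2.div h1 one_ne_zero
  rw [div_one] at h3
  refine h3.congr' ?_
  filter_upwards [eventually_ge_atTop 2] with x hx
  have hx0 : (0 : ℝ) < x := by
    have : 0 < x := by omega
    exact_mod_cast this
  have hlog : 0 < Real.log x := Real.log_pos (by exact_mod_cast (by omega : 1 < x))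
  have h6 : Real.log x / (x : ℝ) ≠ 0 := by positivity
  simp only [Pi.div_apply]
  rw [mul_div_assoc, mul_div_assoc (cntB Set.univ x : ℝ), mul_div_mul_right _ _ h6]

end Pool.Agent.Lib.MP_629a14_nt.Sm
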