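import Pool.Agent.Lib.MP_629a14_nt.Sm.Defs

/-! Primes in terms of `nu` and `gg`. -/

set_option autoImplicit false

namespace Pool.Agent.Lib.MP_629a14_nt.Sm

open Finset Pool.Agent.Lib.MP_629a14_nt Pool.Agent.Lib.MP_629a14_nt.Rob

private theorem split_aux (v N n : ℕ) (B : Set ℕ) (S : Finset ℕ) (hB : ∀ b, b ∈ B ↔ b ∈ S)
    (hS : ∀ b ∈ S, b.Prime) :
    fG v N B n = ∑ b ∈ S.filter (fun b => b < n), Real.log N * gg v N (n - b) := by
  classical
  unfold fG
  refine sum_congr ?_ fun _ _ => rfl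
  ext b
  rw [mem_filter, mem_filter, mem_Ico, hB]
  constructor
  · rintro ⟨ha, hb, hc⟩
    exact ⟨hc, ha.2⟩
  · rintro ⟨ha, hb⟩
    exact ⟨⟨(hS b ha).one_lt.le, hb⟩, hS b ha, ha⟩

/-- `gg v N m + nu v m` is `log N` for a prime `m` and `0` otherwise. -/
theorem split (v N n : ℕ) (S : Finset ℕ) (hS : ∀ b ∈ S, b.Prime) :
    Real.log N ^ 2 * ((S.filter (fun b => b < n ∧ (n - b).Prime)).card : ℝ) =
      FS v N S n + fG v N (S : Set ℕ) n := by
  classical
  have e2 : S.filter (fun b => b < n ∧ (n - b).Prime) =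
      (S.filter (fun b => b < n)).filter (fun b => (n - b).Prime) := by
    rw [filter_filter]
  rw [split_aux v N n (S : Set ℕ) S (fun b => Finset.mem_coe) hS, e2]
  unfold FS
  rw [← sum_add_distrib, card_filter, Nat.cast_sum, mul_sum]
  refine sum_congr rfl fun b _ => ?_
  unfold gg
  split_ifs
  · push_cast
    ring
  · push_cast
    ring

end Pool.Agent.Lib.MP_629a14_nt.Sm
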