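import Pool.Agent.Lib.MP_629a14_nt.Sm.FBvar
import Pool.Agent.Lib.MP_629a14_nt.Sm.FGL2
import Pool.Agent.Lib.MP_629a14_nt.Sm.Split

/-! Sums of two sets of primes in residue classes. -/

set_option autoImplicit false

namespace Pool.Agent.Lib.MP_629a14_nt.Sm

open Finset Pool.Agent.Lib.MP_629a14_nt Pool.Agent.Lib.MP_629a14_nt.Rob

private theorem tclaim_log (φ : ℝ) (v : ℕ) (t : ℝ) (hφ : 0 < φ) (ht : 0 < t) :
    ∃ N₃ : ℕ, ∀ N : ℕ, N₃ ≤ N → φ * Real.log N * v ≤ t * N := by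
  have h1 : (0 : ℝ) < φ * v + 1 := by positivity
  have h2 := (Real.isLittleO_log_id_atTop).bound (show 0 < t / (φ * v + 1) by positivity)
  have h3 := tendsto_natCast_atTop_atTop.eventually h2
  obtain ⟨N₃, hN₃⟩ := Filter.eventually_atTop.1 h3
  refine ⟨N₃, fun N hN => ?_⟩
  have h4 := hN₃ N hN
  simp only [id, Real.norm_eq_abs] at h4
  rw [abs_of_nonneg (Real.log_natCast_nonneg N), abs_of_nonneg (Nat.cast_nonneg N)] at h4
  have hN0 : (0 : ℝ) ≤ N := Nat.cast_nonneg N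
  calc φ * Real.log N * v = φ * v * Real.log N := by ring
    _ ≤ φ * v * (t / (φ * v + 1) * N) := mul_le_mul_of_nonneg_left h4 (by positivity)
    _ = (φ * v / (φ * v + 1)) * (t * N) := by
      field_simp
    _ ≤ 1 * (t * N) := by
      refine mul_le_mul_of_nonneg_right ?_ (by positivity)
      rw [div_le_one h1]
      linarith
    _ = t * N := one_mul _

open Classical in
/-- `m = primorial w`, `φ = φ(m)`, `ε' = ε²/144` (so `3 sqrt ε' = ε/4`), `w₀` from `fbVar ε' η`;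
`η' > 0`, `c > 0` with `(c + sqrt η') φ² / (η δ) ≤ ε/2`; `v ≥ w` from `fG_l2 η'`.
`A' = {p ∈ A prime, p ≤ N - ⌊δ N⌋, p = x mod m}`, `S = {b ∈ B prime, v < b ≤ ⌊δ N⌋, b = y mod m}`,
`φ log N card S ≥ 2 η δ N - φ v log N ≥ η δ N`. Let `r(n)` be the number of `b ∈ S` with `n - b ∈ A'`
(`r(n) ≤ repsIn A B n`, `r(n) ≤ card {b ∈ S, b < n, n - b prime}`); `∑_{n ≤ N, n = x + y} r(n) = card A' card S`
(`a + b ≤ N`). With `G` the set on the right and `split`:
`log² N card A' card S ≤ c N² + ∑_{n ∈ G} (FS n + |fG n|) ≤ c N² + Fb card G + (ε/4) Fb N/m + sqrt η' N²`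
(`fbVar`; Cauchy-Schwarz and `fG_l2`). Divide by `Fb = log N (m/φ) card S ≥ (m/φ) η δ N/φ`. -/
theorem tclaim (ε η : ℝ) (hε : 0 < ε) (hε1 : ε ≤ 1) (hη : 0 < η) (hη1 : η ≤ 1) : ∃ w₀ : ℕ,
    ∀ w : ℕ, w₀ ≤ w → ∀ δ : ℝ, 0 < δ → δ ≤ ε ^ 2 / 144 → ∃ c : ℝ, 0 < c ∧ ∃ N₀ : ℕ,
      ∀ N : ℕ, N₀ ≤ N → ∀ A B : Set ℕ, ∀ x y : ZMod (primorial w), IsUnit x → IsUnit y →
      2 * η * (δ * N) ≤ ((primorial w).totient : ℝ) * Real.log N *
        cntC (primorial w) B y ⌊δ * N⌋₊ →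
      (((primorial w).totient : ℝ) * Real.log N *
        cntC (primorial w) A x (N - ⌊δ * N⌋₊) / N - ε) * ((N : ℝ) / primorial w) ≤
        (((Icc 1 N).filter (fun n : ℕ => (n : ZMod (primorial w)) = x + y ∧
          c * ((N : ℝ) / Real.log N ^ 2) ≤ (repsIn A B n : ℝ))).card : ℝ) := by
  have hε' : (0 : ℝ) < ε ^ 2 / 144 := by positivity
  have hε'1 : ε ^ 2 / 144 ≤ 1 := by nlinarith
  obtain ⟨w₀, hw₀⟩ := fbVar (ε ^ 2 / 144) η hε' hε'1 hη hη1
  refine ⟨w₀, fun w hw δ hδ hδε => ?_⟩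
  obtain ⟨φ, hφdef⟩ : ∃ φ : ℝ, φ = ((primorial w).totient : ℝ) := ⟨_, rfl⟩
  have hφ : 0 < φ := by
    rw [hφdef]
    exact_mod_cast Nat.totient_pos.2 (primorial_pos w)
  obtain ⟨m, hmdef⟩ : ∃ m : ℝ, m = (primorial w : ℝ) := ⟨_, rfl⟩
  have hm : 0 < m := by
    rw [hmdef]
    exact_mod_cast primorial_pos w
  obtain ⟨c, hcdef⟩ : ∃ c : ℝ, c = ε * η * δ / (4 * φ ^ 2) := ⟨_, rfl⟩
  have hc : 0 < c := by
    rw [hcdef]
    positivity
  obtain ⟨v₀, hv₀⟩ := fG_l2 (c ^ 2) (by positivity)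
  obtain ⟨N₁, hN₁⟩ := hv₀ (max w v₀) (le_max_right _ _)
  obtain ⟨N₂, hN₂⟩ := hw₀ w (max w v₀) hw (le_max_left _ _) δ hδ hδε
  obtain ⟨v, hv⟩ : ∃ v : ℕ, v = max w v₀ := ⟨_, rfl⟩
  rw [← hv] at hN₁ hN₂
  obtain ⟨N₃, hN₃⟩ := tclaim_log φ v (η * δ) hφ (by positivity)
  have hδ1 : δ ≤ 1 := hδε.trans hε'1
  rw [← hφdef, ← hmdef]
  refine ⟨c, hc, max (max N₁ N₂) (max N₃ 2), fun N hN A B x y hx hy hB => ?_⟩
  have hNN1 : N₁ ≤ N := (le_max_left _ _).trans ((le_max_left _ _).trans hN)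
  have hNN2 : N₂ ≤ N := (le_max_right _ _).trans ((le_max_left _ _).trans hN)
  have hNN3 : N₃ ≤ N := (le_max_left _ _).trans ((le_max_right _ _).trans hN)
  have hN2 : 2 ≤ N := (le_max_right _ _).trans ((le_max_right _ _).trans hN)
  suffices H : ∀ G : Finset ℕ, (∀ n, n ∈ G ↔ n ∈ Icc 1 N ∧ ((n : ZMod (primorial w)) = x + y ∧
      c * ((N : ℝ) / Real.log N ^ 2) ≤ (repsIn A B n : ℝ))) →
      (φ * Real.log N * cntC (primorial w) A x (N - ⌊δ * N⌋₊) / N - ε) * ((N : ℝ) / m) ≤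
        (G.card : ℝ) from H _ (fun n => Finset.mem_filter)
  intro G hG
  have hNpos : (0 : ℝ) < N := by
    have : 0 < N := by omega
    exact_mod_cast this
  have hL : 0 < Real.log N := Real.log_pos (by
    have : 1 < N := by omega
    exact_mod_cast this)
  obtain ⟨L, hLdef⟩ : ∃ L : ℝ, L = Real.log N := ⟨_, rfl⟩
  rw [← hLdef] at hB hG hL ⊢
  obtain ⟨K, hK⟩ : ∃ K : ℕ, K = ⌊δ * N⌋₊ := ⟨_, rfl⟩
  rw [← hK] at hB ⊢
  have hKN : K ≤ N := by
    rw [hK]
    refine Nat.floor_le_of_le ?_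
    nlinarith
  have hKδ : (K : ℝ) ≤ δ * N := by
    rw [hK]
    exact Nat.floor_le (by positivity)
  obtain ⟨A', hA'⟩ : ∃ A' : Finset ℕ, A' = (Icc 1 (N - K)).filter
      (fun p => p.Prime ∧ p ∈ A ∧ (p : ZMod (primorial w)) = x) := ⟨_, rfl⟩
  have hA'card : cntC (primorial w) A x (N - K) = A'.card := by
    rw [hA']
    rfl
  have hA'mem : ∀ p, p ∈ A' ↔ (1 ≤ p ∧ p ≤ N - K) ∧ p.Prime ∧ p ∈ A ∧
      (p : ZMod (primorial w)) = x := by
    intro p
    rw [hA', Finset.mem_filter, Finset.mem_Icc]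
  obtain ⟨S₀, hS₀⟩ : ∃ S₀ : Finset ℕ, S₀ = (Icc 1 K).filter
      (fun p => p.Prime ∧ p ∈ B ∧ (p : ZMod (primorial w)) = y) := ⟨_, rfl⟩
  have hS₀card : cntC (primorial w) B y K = S₀.card := by
    rw [hS₀]
    rfl
  have hS₀mem : ∀ p, p ∈ S₀ ↔ (1 ≤ p ∧ p ≤ K) ∧ p.Prime ∧ p ∈ B ∧
      (p : ZMod (primorial w)) = y := by
    intro p
    rw [hS₀, Finset.mem_filter, Finset.mem_Icc]
  obtain ⟨S, hS⟩ : ∃ S : Finset ℕ, S = S₀.filter (fun p => v < p) := ⟨_, rfl⟩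
  have hSmem : ∀ p, p ∈ S ↔ p ∈ S₀ ∧ v < p := by
    intro p
    rw [hS, Finset.mem_filter]
  have hScard : S₀.card ≤ S.card + v := by
    have h1 : S₀ ⊆ S ∪ Icc 1 v := by
      intro p hp
      rw [Finset.mem_union, hSmem, Finset.mem_Icc]
      have := ((hS₀mem p).1 hp).1
      by_cases h : v < p
      · exact Or.inl ⟨hp, h⟩
      · exact Or.inr ⟨this.1, by omega⟩
    calc S₀.card ≤ (S ∪ Icc 1 v).card := Finset.card_le_card h1
      _ ≤ S.card + (Icc 1 v).card := Finset.card_union_le _ _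
      _ = S.card + v := by rw [Nat.card_Icc, Nat.add_sub_cancel]
  have hScardR : (S₀.card : ℝ) ≤ S.card + v := by exact_mod_cast hScard
  have hSlow : η * (δ * N) ≤ φ * L * S.card := by
    have h1 := hN₃ N hNN3
    rw [← hLdef] at h1
    rw [hS₀card] at hB
    have h2 : φ * L * (S₀.card : ℝ) ≤ φ * L * (S.card + v) :=
      mul_le_mul_of_nonneg_left hScardR (by positivity)
    nlinarith
  have hSprop : ∀ b ∈ S, b.Prime ∧ v < b ∧ (b : ℝ) ≤ δ * N ∧
      (b : ZMod (primorial w)) = y := by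
    intro b hb
    obtain ⟨hb1, hb2⟩ := (hSmem b).1 hb
    obtain ⟨⟨_, hb3⟩, hb4, _, hb5⟩ := (hS₀mem b).1 hb1
    refine ⟨hb4, hb2, ?_, hb5⟩
    have : (b : ℝ) ≤ K := by exact_mod_cast hb3
    linarith
  have hvar := hN₂ N hNN2 x y hx S hSprop (by rw [← hφdef, ← hLdef]; exact hSlow)
  have hsqrt : 3 * Real.sqrt (ε ^ 2 / 144) = ε / 4 := by
    rw [show ε ^ 2 / 144 = (ε / 12) ^ 2 by ring, Real.sqrt_sq (by positivity)]
    ring
  rw [hsqrt] at hvar
  obtain ⟨T, hT⟩ : ∃ T : Finset ℕ, T = (Icc 1 N).filter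
    (fun n : ℕ => (n : ZMod (primorial w)) = x + y) := ⟨_, rfl⟩
  rw [← hT] at hvar
  have hTmem : ∀ n, n ∈ T ↔ n ∈ Icc 1 N ∧ (n : ZMod (primorial w)) = x + y := by
    intro n
    rw [hT, Finset.mem_filter]
  have hGT : G ⊆ T := fun n hn => (hTmem n).2 ⟨((hG n).1 hn).1, ((hG n).1 hn).2.1⟩
  obtain ⟨Fb, hFb⟩ : ∃ Fb : ℝ, Fb = Fbar w N S := ⟨_, rfl⟩
  rw [← hFb, ← hmdef] at hvar
  have hFbval : Fb = L * (m / φ) * S.card := by
    rw [hFb, hLdef, hmdef, hφdef]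
    rfl
  have hfg := hN₁ N hNN1 (S : Set ℕ)
  have hfgabs : ∑ n ∈ Icc 1 N, |fG v N (S : Set ℕ) n| ≤ c * N ^ 2 := by
    have h1 := sq_sum_le_card_mul_sum_sq (s := Icc 1 N) (f := fun n => |fG v N (S : Set ℕ) n|)
    simp only [sq_abs, Nat.card_Icc, Nat.add_sub_cancel] at h1
    have h2 : (∑ n ∈ Icc 1 N, |fG v N (S : Set ℕ) n|) ^ 2 ≤ (c * N ^ 2) ^ 2 := by
      calc _ ≤ _ := h1
        _ ≤ (N : ℝ) * (c ^ 2 * (N : ℝ) ^ 3) := mul_le_mul_of_nonneg_left hfg hNpos.le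
        _ = (c * N ^ 2) ^ 2 := by ring
    exact (pow_le_pow_iff_left₀ (Finset.sum_nonneg fun i _ => abs_nonneg _) (by positivity)
      two_ne_zero).1 h2
  -- representations
  obtain ⟨r, hr⟩ : ∃ r : ℕ → ℕ, ∀ n, r n =
    ((A' ×ˢ S).filter (fun p : ℕ × ℕ => p.1 + p.2 = n)).card := ⟨_, fun _ => rfl⟩
  have hfib : (A'.card : ℝ) * S.card = ∑ n ∈ T, (r n : ℝ) := by
    have h1 : (A' ×ˢ S).card = ∑ n ∈ T, r n := by
      rw [Finset.card_eq_sum_card_fiberwise (f := fun p : ℕ × ℕ => p.1 + p.2) (t := T)]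
      · exact Finset.sum_congr rfl fun n _ => (hr n).symm
      · intro p hp
        have hp' := Finset.mem_product.1 (Finset.mem_coe.1 hp)
        obtain ⟨⟨h1, h2⟩, _, _, h3⟩ := (hA'mem p.1).1 hp'.1
        obtain ⟨h4, _⟩ := (hSmem p.2).1 hp'.2
        obtain ⟨⟨h5, h6⟩, _, _, h7⟩ := (hS₀mem p.2).1 h4
        refine Finset.mem_coe.2 ((hTmem _).2 ⟨Finset.mem_Icc.2 ⟨?_, ?_⟩, ?_⟩)
        · dsimp only
          omega
        · dsimp only
          omega
        · dsimp only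
          rw [Nat.cast_add, h3, h7]
    rw [Finset.card_product] at h1
    exact_mod_cast h1
  have hr1 : ∀ n, r n ≤ repsIn A B n := by
    intro n
    rw [hr]
    unfold repsIn
    refine Finset.card_le_card_of_injOn (fun p : ℕ × ℕ => p.1) ?_ ?_
    · intro p hp
      obtain ⟨hp1, hp2⟩ := Finset.mem_filter.1 (Finset.mem_coe.1 hp)
      have hp' := Finset.mem_product.1 hp1
      obtain ⟨⟨h1, h2⟩, h3, h4, _⟩ := (hA'mem p.1).1 hp'.1
      obtain ⟨h5, _⟩ := (hSmem p.2).1 hp'.2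
      obtain ⟨_, h6, h7, _⟩ := (hS₀mem p.2).1 h5
      have h8 : n - p.1 = p.2 := by omega
      refine Finset.mem_coe.2 (Finset.mem_filter.2 ⟨Finset.mem_range.2 ?_, h3, ?_, h4, ?_⟩)
      · dsimp only
        omega
      · rw [h8]
        exact h6
      · rw [h8]
        exact h7
    · intro p hp p' hp' h
      have h1 := (Finset.mem_filter.1 (Finset.mem_coe.1 hp)).2
      have h2 := (Finset.mem_filter.1 (Finset.mem_coe.1 hp')).2
      dsimp only at h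
      ext
      · exact h
      · omega
  have hr2 : ∀ n, r n ≤ (S.filter (fun b => b < n ∧ (n - b).Prime)).card := by
    intro n
    rw [hr]
    refine Finset.card_le_card_of_injOn (fun p : ℕ × ℕ => p.2) ?_ ?_
    · intro p hp
      obtain ⟨hp1, hp2⟩ := Finset.mem_filter.1 (Finset.mem_coe.1 hp)
      have hp' := Finset.mem_product.1 hp1
      obtain ⟨⟨h1, h2⟩, h3, h4, _⟩ := (hA'mem p.1).1 hp'.1
      have h8 : n - p.2 = p.1 := by omega
      refine Finset.mem_coe.2 (Finset.mem_filter.2 ⟨hp'.2, ?_, ?_⟩)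
      · dsimp only
        omega
      · rw [h8]
        exact h3
    · intro p hp p' hp' h
      have h1 := (Finset.mem_filter.1 (Finset.mem_coe.1 hp)).2
      have h2 := (Finset.mem_filter.1 (Finset.mem_coe.1 hp')).2
      dsimp only at h
      ext
      · omega
      · exact h
  have hTcard : ((T \ G).card : ℝ) ≤ N := by
    have h1 : (T \ G).card ≤ (Icc 1 N).card := Finset.card_le_card fun n hn =>
      ((hTmem n).1 (Finset.mem_sdiff.1 hn).1).1
    rw [Nat.card_Icc, Nat.add_sub_cancel] at h1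
    exact_mod_cast h1
  have hsum1 : ∑ n ∈ T \ G, L ^ 2 * (r n : ℝ) ≤ c * N ^ 2 := by
    calc ∑ n ∈ T \ G, L ^ 2 * (r n : ℝ) ≤ ∑ n ∈ T \ G, c * (N : ℝ) := by
          refine Finset.sum_le_sum fun n hn => ?_
          obtain ⟨h1, h2⟩ := Finset.mem_sdiff.1 hn
          obtain ⟨h3, h4⟩ := (hTmem n).1 h1
          have h5 : ¬ c * ((N : ℝ) / L ^ 2) ≤ (repsIn A B n : ℝ) := fun h =>
            h2 ((hG n).2 ⟨h3, h4, h⟩)
          have h6 : (r n : ℝ) ≤ repsIn A B n := by exact_mod_cast hr1 n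
          have h7 : (r n : ℝ) ≤ c * ((N : ℝ) / L ^ 2) := h6.trans (not_le.1 h5).le
          calc L ^ 2 * (r n : ℝ) ≤ L ^ 2 * (c * ((N : ℝ) / L ^ 2)) :=
                mul_le_mul_of_nonneg_left h7 (by positivity)
            _ = c * N := by
              field_simp
      _ = ((T \ G).card : ℝ) * (c * N) := by rw [Finset.sum_const, nsmul_eq_mul]
      _ ≤ N * (c * N) := mul_le_mul_of_nonneg_right hTcard (by positivity)
      _ = c * N ^ 2 := by ring
  have hsum2 : ∑ n ∈ G, L ^ 2 * (r n : ℝ) ≤ Fb * G.card + ε / 4 * Fb * (N / m) +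
      c * N ^ 2 := by
    calc ∑ n ∈ G, L ^ 2 * (r n : ℝ) ≤
        ∑ n ∈ G, (Fb + |FS v N S n - Fb| + |fG v N (S : Set ℕ) n|) := by
          refine Finset.sum_le_sum fun n _ => ?_
          have h1 := split v N n S (fun b hb => (hSprop b hb).1)
          rw [← hLdef] at h1
          have h2 : (r n : ℝ) ≤ ((S.filter (fun b => b < n ∧ (n - b).Prime)).card : ℝ) := by
            exact_mod_cast hr2 n
          have h3 := mul_le_mul_of_nonneg_left h2 (show (0 : ℝ) ≤ L ^ 2 by positivity)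
          have h4 := le_abs_self (FS v N S n - Fb)
          have h5 := le_abs_self (fG v N (S : Set ℕ) n)
          linarith
      _ = Fb * G.card + ∑ n ∈ G, |FS v N S n - Fb| + ∑ n ∈ G, |fG v N (S : Set ℕ) n| := by
          rw [Finset.sum_add_distrib, Finset.sum_add_distrib, Finset.sum_const, nsmul_eq_mul]
          ring
      _ ≤ Fb * G.card + ε / 4 * Fb * (N / m) + c * N ^ 2 := by
          have h1 : ∑ n ∈ G, |FS v N S n - Fb| ≤ ∑ n ∈ T, |FS v N S n - Fb| :=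
            Finset.sum_le_sum_of_subset_of_nonneg hGT fun i _ _ => abs_nonneg _
          have h2 : ∑ n ∈ G, |fG v N (S : Set ℕ) n| ≤
              ∑ n ∈ Icc 1 N, |fG v N (S : Set ℕ) n| :=
            Finset.sum_le_sum_of_subset_of_nonneg (fun n hn => ((hG n).1 hn).1)
              fun i _ _ => abs_nonneg _
          linarith
  have htotal : L ^ 2 * ((A'.card : ℝ) * S.card) ≤ Fb * G.card + ε / 4 * Fb * (N / m) +
      2 * (c * N ^ 2) := by
    rw [hfib, Finset.mul_sum, ← Finset.sum_sdiff hGT]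
    linarith
  -- conclusion
  have hSpos : 0 < (S.card : ℝ) := by
    by_contra hn
    have h1 : (S.card : ℝ) = 0 := le_antisymm (not_lt.1 hn) (Nat.cast_nonneg _)
    rw [h1, mul_zero] at hSlow
    have : 0 < η * (δ * N) := by positivity
    linarith
  have hFbpos : 0 < Fb := by
    rw [hFbval]
    positivity
  have hkey : 2 * (c * (N : ℝ) ^ 2) ≤ 3 / 4 * ε * (Fb * (N / m)) := by
    have h1 : Fb * (N / m) = L * S.card * N / φ := by
      rw [hFbval]
      field_simp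
    have h2 : η * (δ * N) * N / φ ^ 2 ≤ L * S.card * N / φ := by
      have h3 : L * S.card * N / φ = φ * L * S.card * N / φ ^ 2 := by
        field_simp
      rw [h3]
      exact div_le_div_of_nonneg_right (mul_le_mul_of_nonneg_right hSlow hNpos.le)
        (by positivity)
    have h4 : 2 * (c * (N : ℝ) ^ 2) = ε / 2 * (η * (δ * N) * N / φ ^ 2) := by
      rw [hcdef]
      field_simp
      ring
    have h5 : 0 ≤ η * (δ * N) * N / φ ^ 2 := by positivity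
    rw [h4, h1]
    have h6 : ε / 2 * (η * (δ * N) * N / φ ^ 2) ≤ 3 / 4 * ε * (η * (δ * N) * N / φ ^ 2) := by
      nlinarith
    exact h6.trans (mul_le_mul_of_nonneg_left h2 (by positivity))
  rw [hA'card]
  refine le_of_mul_le_mul_left ?_ hFbpos
  have hfin : Fb * ((φ * L * A'.card / N - ε) * (N / m)) =
      L ^ 2 * ((A'.card : ℝ) * S.card) - ε * (Fb * (N / m)) := by
    rw [hFbval]
    field_simp
  rw [hfin]
  have h8 : ε / 4 * Fb * (N / m) = ε / 4 * (Fb * (N / m)) := by ring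
  rw [h8] at htotal
  linarith

end Pool.Agent.Lib.MP_629a14_nt.Sm
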