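import Pool.Agent.Lib.MP_629a14_nt.Sm.ProdG

/-! Chinese remainder theorem. -/

set_option autoImplicit false

namespace Pool.Agent.Lib.MP_629a14_nt.Sm

open Finset

/-- `ZMod.chineseRemainder`; `Prod.isUnit_iff`. -/
theorem good_coprime (m p : ℕ) [NeZero m] [Fact p.Prime] [NeZero (m * p)] (hmp : Nat.Coprime m p)
    (s C D : ℝ) (hs : 0 < s) (hC : 0 ≤ C) (hD : 0 ≤ D) (h1 : Good (ZMod m) (UM m) s C)
    (h2 : Good (ZMod p) (univ.filter (fun x => x ≠ 0)) s D) :
    Good (ZMod (m * p)) (UM (m * p)) s (C * D) := by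
  have h := good_prod (ZMod m) (ZMod p) (UM m) _ s C D hs hC hD h1 h2
  refine good_equiv (ZMod m × ZMod p) (ZMod (m * p))
    (ZMod.chineseRemainder hmp).symm.toAddEquiv _ _ (fun x => ?_) s _ h
  have hu : IsUnit ((ZMod.chineseRemainder hmp).symm x) ↔ IsUnit x :=
    MulEquiv.isUnit_map (ZMod.chineseRemainder hmp).symm
  have h3 : (ZMod.chineseRemainder hmp).symm.toAddEquiv x =
      (ZMod.chineseRemainder hmp).symm x := rfl
  rw [h3]
  unfold UM
  simp only [mem_product, mem_filter, mem_univ, true_and]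
  rw [hu, Prod.isUnit_iff, isUnit_iff_ne_zero (a := x.2)]

end Pool.Agent.Lib.MP_629a14_nt.Sm
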