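import Pool.Agent.Lib.MP_629a14_nt.Sm.LimDefs
import Pool.Agent.Lib.MP_629a14_nt.Sm.Sharp

/-! Upper bounds. -/

set_option autoImplicit false

namespace Pool.Agent.Lib.MP_629a14_nt.Sm

open Finset Filter Topology Pool.Agent.Lib.MP_629a14_nt Pool.Agent.Lib.MP_629a14_nt.Rob

private theorem card_div_nonneg (P : ℕ → Prop) [DecidablePred P] (N : ℕ) :
    (0 : ℝ) ≤ (((Icc 1 N).filter P).card : ℝ) / N := by
  positivity

private theorem card_div_le_one (P : ℕ → Prop) [DecidablePred P] (N : ℕ) :
    (((Icc 1 N).filter P).card : ℝ) / N ≤ 1 := by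
  rcases Nat.eq_zero_or_pos N with h | h
  · subst h
    simp
  · have hN : (0 : ℝ) < N := by exact_mod_cast h
    rw [div_le_one hN]
    have h1 : ((Icc 1 N).filter P).card ≤ N := by
      refine (card_filter_le _ _).trans ?_
      simp
    exact_mod_cast h1

/-- For even `n ≥ 2` (`log n > 0`) the threshold is positive, so a rich `n` is a sum; `liminf` is
monotone (both sequences lie in `[0, 1]`). -/
theorem rich_le_sumDens (c : ℝ) (hc : 0 < c) (A B : Set ℕ) : rich c A B ≤ sumDens A B := by
  classical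
  unfold rich sumDens
  refine liminf_le_liminf (Eventually.of_forall fun N => ?_) ?_ ?_
  · refine div_le_div_of_nonneg_right ?_ (Nat.cast_nonneg N)
    refine Nat.cast_le.mpr (card_le_card ?_)
    intro n hn
    rw [mem_filter, mem_Icc] at hn ⊢
    obtain ⟨⟨h1, h2⟩, he, hr⟩ := hn
    refine ⟨⟨h1, h2⟩, ?_⟩
    have hn2 : 2 ≤ n := by
      rcases he with ⟨k, hk⟩
      omega
    have hn0 : (0 : ℝ) < n := by exact_mod_cast (by omega : 0 < n)
    have hlog : 0 < Real.log n := Real.log_pos (by exact_mod_cast (by omega : 1 < n))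
    have hphi : (0 : ℝ) < (n.totient : ℝ) := by
      exact_mod_cast Nat.totient_pos.mpr (by omega)
    have hpos : 0 < c * ((n : ℝ) ^ 2 / ((n.totient : ℝ) * Real.log n ^ 2)) := by positivity
    have : (0 : ℝ) < (repsIn A B n : ℝ) := lt_of_lt_of_le hpos hr
    exact_mod_cast this
  · exact isBoundedUnder_of ⟨0, fun N => card_div_nonneg _ N⟩
  · exact (isBoundedUnder_of ⟨1, fun N => card_div_le_one _ N⟩ :
      IsBoundedUnder (· ≤ ·) atTop _).isCoboundedUnder_ge

/-- `sharp_count`. -/
theorem sumDens_le (w : ℕ) (R : Finset (ZMod (primorial w))) :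
    sumDens (cls w R) (cls w {1}) ≤ (R.card : ℝ) / primorial w := by
  classical
  unfold sumDens
  have hlim : Tendsto (fun N : ℕ => (R.card : ℝ) * (1 / primorial w + 1 / (N : ℝ))) atTop
      (𝓝 ((R.card : ℝ) / primorial w)) := by
    have h1 : Tendsto (fun N : ℕ => 1 / (N : ℝ)) atTop (𝓝 0) := tendsto_one_div_atTop_nhds_zero_nat
    have h2 := (h1.const_add (1 / (primorial w : ℝ))).const_mul (R.card : ℝ)
    rw [add_zero, mul_one_div] at h2
    exact h2
  rw [← hlim.liminf_eq]
  refine liminf_le_liminf ?_ ?_ ?_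
  · filter_upwards [eventually_gt_atTop 0] with N hN
    have hN0 : (0 : ℝ) < N := by exact_mod_cast hN
    rw [div_le_iff₀ hN0]
    refine (sharp_count w R N).trans (le_of_eq ?_)
    have hp : (0 : ℝ) < (primorial w : ℝ) := by exact_mod_cast primorial_pos w
    field_simp
  · exact isBoundedUnder_of ⟨0, fun N => card_div_nonneg _ N⟩
  · exact hlim.isBoundedUnder_le.isCoboundedUnder_ge

end Pool.Agent.Lib.MP_629a14_nt.Sm
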