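import Pool.Agent.Lib.MP_629a14_nt.Sm.LimB
import Pool.Agent.Lib.MP_629a14_nt.Sm.LimC

/-! The sum of a set with itself. -/

set_option autoImplicit false

namespace Pool.Agent.Lib.MP_629a14_nt.Sm

open Finset Filter Topology Pool.Agent.Lib.MP_629a14_nt Pool.Agent.Lib.MP_629a14_nt.Rob

private theorem self_ge (w : ℕ) (hw : 3 ≤ w) (B : Set ℕ)
    (hB : 1 / ((primorial w).totient : ℝ) ≤ relLow B) : 1 / (primorial w : ℝ) ≤ sumDens B B := by
  have hT : (0 : ℝ) < (primorial w).totient := by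
    exact_mod_cast Nat.totient_pos.2 (primorial_pos w)
  have hP : (0 : ℝ) < primorial w := by exact_mod_cast primorial_pos w
  refine le_of_forall_pos_le_add fun ε hε => ?_
  obtain ⟨c, hc, h⟩ := rich_ge_prim w hw ε hε
  have h1 := h B B hB (le_trans (by positivity) hB)
  have h2 := rich_le_sumDens c hc B B
  have h3 : 1 / (primorial w : ℝ) ≤
      ((primorial w).totient : ℝ) / primorial w * relLow B := by
    calc 1 / (primorial w : ℝ)
        = ((primorial w).totient : ℝ) / primorial w * (1 / ((primorial w).totient : ℝ)) := by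
          field_simp
      _ ≤ _ := by gcongr
  linarith

theorem self_val (w : ℕ) (hw : 3 ≤ w) :
    sInf {d : ℝ | ∃ B : Set ℕ, 1 / ((primorial w).totient : ℝ) ≤ relLow B ∧ d = sumDens B B} =
      1 / (primorial w : ℝ) := by
  have hlow : ∀ d ∈ {d : ℝ | ∃ B : Set ℕ, 1 / ((primorial w).totient : ℝ) ≤ relLow B ∧
      d = sumDens B B}, 1 / (primorial w : ℝ) ≤ d := by
    rintro d ⟨B, hB, rfl⟩
    exact self_ge w hw B hB
  have hmem : sumDens (cls w {1}) (cls w {1}) ∈ {d : ℝ | ∃ B : Set ℕ,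
      1 / ((primorial w).totient : ℝ) ≤ relLow B ∧ d = sumDens B B} := by
    refine ⟨cls w {1}, le_of_eq ?_, rfl⟩
    have h := sharp_dens w {1} (by simp)
    have h2 := h.liminf_eq
    unfold relLow
    rw [h2]
    simp
  refine le_antisymm ?_ (le_csInf ⟨_, hmem⟩ hlow)
  refine (csInf_le ⟨_, hlow⟩ hmem).trans ?_
  have h := sumDens_le w {1}
  simpa using h

end Pool.Agent.Lib.MP_629a14_nt.Sm
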