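import Pool.Agent.Lib.MP_629a14_nt.Sm.Defs

/-! Counting classes. -/

set_option autoImplicit false

namespace Pool.Agent.Lib.MP_629a14_nt.Sm

open Finset Pool.Agent.Lib.MP_629a14_nt Pool.Agent.Lib.MP_629a14_nt.Rob

private theorem cc_primorial_succ_prime {v : ℕ} (hp : (v + 1).Prime) :
    primorial (v + 1) = primorial v * (v + 1) := by
  unfold primorial
  rw [Finset.range_add_one (n := v + 1), Finset.filter_insert, if_pos hp,
    Finset.prod_insert (by simp), mul_comm]

private theorem cc_primorial_succ_not {v : ℕ} (hp : ¬ (v + 1).Prime) :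
    primorial (v + 1) = primorial v := by
  unfold primorial
  rw [Finset.range_add_one (n := v + 1), Finset.filter_insert, if_neg hp]

private theorem cc_primorial_dvd {w v : ℕ} (h : w ≤ v) : primorial w ∣ primorial v := by
  unfold primorial
  refine Finset.prod_dvd_prod_of_subset _ _ _ ?_
  intro p hp
  rw [Finset.mem_filter, Finset.mem_range] at hp ⊢
  exact ⟨by omega, hp.2⟩

private theorem cc_prime_dvd {p v : ℕ} (hp : p.Prime) (h : p ≤ v) : p ∣ primorial v := by
  unfold primorial
  exact Finset.dvd_prod_of_mem _ (by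
    rw [Finset.mem_filter, Finset.mem_range]
    exact ⟨by omega, hp⟩)

private theorem cc_coprime {v : ℕ} (hp : (v + 1).Prime) : Nat.Coprime (primorial v) (v + 1) := by
  unfold primorial
  refine Nat.Coprime.prod_left fun q hq => ?_
  rw [Finset.mem_filter, Finset.mem_range] at hq
  exact (Nat.coprime_primes hq.2 hp).2 (by omega)

private theorem cc_dvd_iff {p W : ℕ} (h : p ∣ W) (n : ℕ) (b : ℤ) :
    (p : ℤ) ∣ ((n : ℤ) - b) ↔ (p : ℤ) ∣ (((n % W : ℕ) : ℤ) - b) := by
  have h1 : (n : ℤ) = ((n % W : ℕ) : ℤ) + (W : ℤ) * ((n / W : ℕ) : ℤ) := by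
    exact_mod_cast (Nat.mod_add_div n W).symm
  have h2 : (p : ℤ) ∣ (W : ℤ) * ((n / W : ℕ) : ℤ) :=
    (Int.natCast_dvd_natCast.mpr h).mul_right _
  have h3 : (n : ℤ) - b = (((n % W : ℕ) : ℤ) - b) + (W : ℤ) * ((n / W : ℕ) : ℤ) := by
    linarith
  rw [h3]
  exact (dvd_add_left h2)

private theorem cc_cast_iff {m W : ℕ} (h : m ∣ W) (n : ℕ) :
    ((n % W : ℕ) : ZMod m) = (n : ZMod m) := by
  rw [ZMod.natCast_eq_natCast_iff]
  exact (Nat.mod_modEq n W).of_dvd h

open Classical in
/-- the set that is counted -/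
private noncomputable def ccS (w v : ℕ) (z : ZMod (primorial w)) (b b' : ℤ) : Finset ℕ :=
  (range (primorial v)).filter (fun n : ℕ => (n : ZMod (primorial w)) = z ∧
      ∀ p : ℕ, p.Prime → w < p → p ≤ v → ¬ (p : ℤ) ∣ ((n : ℤ) - b) ∧ ¬ (p : ℤ) ∣ ((n : ℤ) - b'))

private theorem cc_mem (w v : ℕ) (z : ZMod (primorial w)) (b b' : ℤ) (n : ℕ) :
    n ∈ ccS w v z b b' ↔ n < primorial v ∧ (n : ZMod (primorial w)) = z ∧
      ∀ p : ℕ, p.Prime → w < p → p ≤ v →
        ¬ (p : ℤ) ∣ ((n : ℤ) - b) ∧ ¬ (p : ℤ) ∣ ((n : ℤ) - b') := by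
  classical
  unfold ccS
  rw [Finset.mem_filter, Finset.mem_range]

private theorem cc_base (w : ℕ) (z : ZMod (primorial w)) (b b' : ℤ) :
    (ccS w w z b b').card ≤ 1 := by
  rw [Finset.card_le_one]
  intro x hx y hy
  rw [cc_mem] at hx hy
  have h1 : (x : ZMod (primorial w)) = (y : ZMod (primorial w)) := by rw [hx.2.1, hy.2.1]
  rw [ZMod.natCast_eq_natCast_iff] at h1
  exact Nat.ModEq.eq_of_lt_of_lt h1 hx.1 hy.1

private theorem cc_step (w v : ℕ) (hwv : w ≤ v) (hp : (v + 1).Prime) (z : ZMod (primorial w))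
    (b b' : ℤ) :
    (ccS w (v + 1) z b b').card ≤ (ccS w v z b b').card *
      (((univ : Finset (ZMod (v + 1))).erase (b : ZMod (v + 1))).erase (b' : ZMod (v + 1))).card := by
  rw [← Finset.card_product]
  have hW : 0 < primorial v := primorial_pos v
  refine Finset.card_le_card_of_injOn
    (fun n : ℕ => ((n % primorial v : ℕ), (n : ZMod (v + 1)))) ?_ ?_
  · intro n hn
    rw [Finset.mem_coe] at hn ⊢
    rw [cc_mem] at hn
    rw [Finset.mem_product, cc_mem, Finset.mem_erase, Finset.mem_erase]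
    refine ⟨⟨Nat.mod_lt _ hW, ?_, ?_⟩, ?_, ?_, Finset.mem_univ _⟩
    · rw [cc_cast_iff (cc_primorial_dvd hwv)]
      exact hn.2.1
    · intro p hp' hwp hpv
      have h1 := hn.2.2 p hp' hwp (by omega)
      rw [cc_dvd_iff (cc_prime_dvd hp' hpv) n b, cc_dvd_iff (cc_prime_dvd hp' hpv) n b'] at h1
      exact h1
    · intro h
      have h1 := (hn.2.2 (v + 1) hp (by omega) le_rfl).2
      apply h1
      rw [← ZMod.intCast_eq_intCast_iff_dvd_sub]
      rw [← h]
      simp
    · intro h
      have h1 := (hn.2.2 (v + 1) hp (by omega) le_rfl).1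
      apply h1
      rw [← ZMod.intCast_eq_intCast_iff_dvd_sub]
      rw [← h]
      simp
  · intro x hx y hy hxy
    rw [Finset.mem_coe, cc_mem, cc_primorial_succ_prime hp] at hx hy
    have h1 : x ≡ y [MOD primorial v] := (Prod.mk.injEq _ _ _ _ ▸ hxy).1
    have h2 : x ≡ y [MOD (v + 1)] := by
      have := (Prod.mk.injEq _ _ _ _ ▸ hxy).2
      exact (ZMod.natCast_eq_natCast_iff _ _ _).mp this
    exact Nat.ModEq.eq_of_lt_of_lt ((Nat.modEq_and_modEq_iff_modEq_mul (cc_coprime hp)).mp ⟨h1, h2⟩)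
      hx.1 hy.1

private theorem cc_erase (v : ℕ) (hp : (v + 1).Prime) (b b' : ℤ) :
    ((((univ : Finset (ZMod (v + 1))).erase (b : ZMod (v + 1))).erase
      (b' : ZMod (v + 1))).card : ℝ) ≤ ((v : ℝ) ^ 2 / ((v : ℝ) + 1)) *
        (if ((v + 1 : ℕ) : ℤ) ∣ (b - b') then (((v : ℝ) + 1) / v) else 1) := by
  have hv : 1 ≤ v := by
    have := hp.two_le
    omega
  have hv' : (1 : ℝ) ≤ v := by exact_mod_cast hv
  have hcard : (univ : Finset (ZMod (v + 1))).card = v + 1 := by
    rw [Finset.card_univ, ZMod.card]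
  have h1 : ((univ : Finset (ZMod (v + 1))).erase (b : ZMod (v + 1))).card = v := by
    rw [Finset.card_erase_of_mem (Finset.mem_univ _), hcard]
    rfl
  split_ifs with h
  · have h2 : (b : ZMod (v + 1)) = (b' : ZMod (v + 1)) := by
      rw [ZMod.intCast_eq_intCast_iff_dvd_sub]
      have h3 : b' - b = -(b - b') := by ring
      rw [h3]
      exact (dvd_neg.mpr h)
    rw [← h2, Finset.erase_eq_of_notMem (Finset.notMem_erase _ _), h1]
    have : (v : ℝ) ^ 2 / ((v : ℝ) + 1) * (((v : ℝ) + 1) / v) = v := by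
      field_simp
    rw [this]
  · have h2 : (b' : ZMod (v + 1)) ∈ (univ : Finset (ZMod (v + 1))).erase (b : ZMod (v + 1)) := by
      rw [Finset.mem_erase]
      refine ⟨fun h3 => h ?_, Finset.mem_univ _⟩
      have h4 : (b' : ZMod (v + 1)) = (b : ZMod (v + 1)) := h3
      rw [ZMod.intCast_eq_intCast_iff_dvd_sub] at h4
      exact h4
    rw [Finset.card_erase_of_mem h2, h1, Nat.cast_sub hv, mul_one, le_div_iff₀ (by linarith)]
    push_cast
    nlinarith

private theorem cc_main (w : ℕ) (z : ZMod (primorial w)) (b b' : ℤ) (t : ℕ) :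
    ((ccS w (w + t) z b b').card : ℝ) ≤
      (((primorial (w + t)).totient : ℝ) / (primorial w).totient) ^ 2 *
        ((primorial w : ℝ) / primorial (w + t)) *
        ∏ p ∈ (Ioc w (w + t)).filter (fun p : ℕ => p.Prime ∧ (p : ℤ) ∣ (b - b')),
          ((p : ℝ) / ((p : ℝ) - 1)) := by
  have hm : (0 : ℝ) < primorial w := by exact_mod_cast primorial_pos w
  have hf : (0 : ℝ) < (primorial w).totient := by
    exact_mod_cast Nat.totient_pos.mpr (primorial_pos w)
  induction t with
  | zero =>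
    have h1 : ((ccS w w z b b').card : ℝ) ≤ 1 := by exact_mod_cast cc_base w z b b'
    rw [add_zero, Finset.Ioc_self, Finset.filter_empty, Finset.prod_empty, div_self hf.ne',
      div_self hm.ne']
    simpa using h1
  | succ t ih =>
    have hIoc : Ioc w (w + (t + 1)) = insert (w + t + 1) (Ioc w (w + t)) := by
      ext x
      simp only [Finset.mem_Ioc, Finset.mem_insert]
      omega
    by_cases hp : (w + t + 1).Prime
    · have hstep := cc_step w (w + t) (by omega) hp z b b'
      have herase := cc_erase (w + t) hp b b'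
      have hW : (0 : ℝ) < primorial (w + t) := by exact_mod_cast primorial_pos (w + t)
      set P : ℝ := ∏ p ∈ (Ioc w (w + t)).filter (fun p : ℕ => p.Prime ∧ (p : ℤ) ∣ (b - b')),
          ((p : ℝ) / ((p : ℝ) - 1)) with hP
      have hprod : ∏ p ∈ (Ioc w (w + (t + 1))).filter
          (fun p : ℕ => p.Prime ∧ (p : ℤ) ∣ (b - b')), ((p : ℝ) / ((p : ℝ) - 1)) =
          (if ((w + t + 1 : ℕ) : ℤ) ∣ (b - b') then ((((w + t : ℕ) : ℝ) + 1) / ((w + t : ℕ) : ℝ))
            else 1) * P := by
        rw [hIoc, Finset.filter_insert]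
        by_cases hd : ((w + t + 1 : ℕ) : ℤ) ∣ (b - b')
        · rw [if_pos ⟨hp, hd⟩, Finset.prod_insert (by simp), if_pos hd, hP]
          congr 1
          push_cast
          congr 1
          ring
        · rw [if_neg (fun h => hd h.2), if_neg hd, one_mul, hP]
      have htot : ((primorial (w + (t + 1))).totient : ℝ) =
          (primorial (w + t)).totient * ((w + t : ℕ) : ℝ) := by
        have h1 : primorial (w + (t + 1)) = primorial (w + t) * (w + t + 1) :=
          cc_primorial_succ_prime hp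
        rw [h1, Nat.totient_mul (cc_coprime hp), Nat.totient_prime hp]
        push_cast
        ring
      have hprim : (primorial (w + (t + 1)) : ℝ) =
          primorial (w + t) * (((w + t : ℕ) : ℝ) + 1) := by
        have h1 : primorial (w + (t + 1)) = primorial (w + t) * (w + t + 1) :=
          cc_primorial_succ_prime hp
        rw [h1]
        push_cast
        ring
      have hcard : ((ccS w (w + (t + 1)) z b b').card : ℝ) ≤ (ccS w (w + t) z b b').card *
          ((((univ : Finset (ZMod (w + t + 1))).erase (b : ZMod (w + t + 1))).erase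
            (b' : ZMod (w + t + 1))).card : ℝ) := by
        exact_mod_cast hstep
      refine hcard.trans ?_
      have h0 : (0 : ℝ) ≤ ((ccS w (w + t) z b b').card : ℝ) := Nat.cast_nonneg _
      refine (mul_le_mul_of_nonneg_left herase h0).trans ?_
      rw [hprod, htot, hprim]
      have hv : (0 : ℝ) ≤ ((w + t : ℕ) : ℝ) := Nat.cast_nonneg _
      have hI : (0 : ℝ) ≤ (if ((w + t + 1 : ℕ) : ℤ) ∣ (b - b')
          then ((((w + t : ℕ) : ℝ) + 1) / ((w + t : ℕ) : ℝ)) else 1) := by
        split_ifs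
        · positivity
        · norm_num
      have hE : (0 : ℝ) ≤ (((w + t : ℕ) : ℝ) ^ 2 / (((w + t : ℕ) : ℝ) + 1)) *
          (if ((w + t + 1 : ℕ) : ℤ) ∣ (b - b')
          then ((((w + t : ℕ) : ℝ) + 1) / ((w + t : ℕ) : ℝ)) else 1) := by
        refine mul_nonneg (by positivity) hI
      refine (mul_le_mul_of_nonneg_right ih hE).trans (le_of_eq ?_)
      have hv1 : ((w + t : ℕ) : ℝ) + 1 ≠ 0 := by positivity
      field_simp
    · have h1 : primorial (w + (t + 1)) = primorial (w + t) := cc_primorial_succ_not hp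
      have h2 : (ccS w (w + (t + 1)) z b b').card ≤ (ccS w (w + t) z b b').card := by
        refine Finset.card_le_card fun n hn => ?_
        rw [cc_mem] at hn ⊢
        rw [h1] at hn
        exact ⟨hn.1, hn.2.1, fun p hp' h3 h4 => hn.2.2 p hp' h3 (by omega)⟩
      have h3 : (Ioc w (w + (t + 1))).filter (fun p : ℕ => p.Prime ∧ (p : ℤ) ∣ (b - b')) =
          (Ioc w (w + t)).filter (fun p : ℕ => p.Prime ∧ (p : ℤ) ∣ (b - b')) := by
        rw [hIoc, Finset.filter_insert, if_neg (fun h => hp h.1)]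
      rw [h1, h3]
      refine le_trans ?_ ih
      exact_mod_cast h2

open Classical in
/-- Induction on `v` from `v = w` (Chinese remainder theorem): among the classes `n` modulo
`primorial v` with `n = z` modulo `primorial w` those with `p ∤ (n - b) (n - b')` for all primes
`w < p ≤ v` are `∏ (p - 1)` (if `b ≡ b'` modulo `p`) or `(p - 2)` (otherwise), and
`p - 2 ≤ (p - 1)^2 / p`. So at most
`(φ(W)/φ(m))^2 * (m / W) * JJ w v b b'`, `W = primorial v`, `m = primorial w`. -/
theorem classCount (w v : ℕ) (hwv : w ≤ v) (z : ZMod (primorial w)) (b b' : ℤ) :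
    (((range (primorial v)).filter (fun n : ℕ => (n : ZMod (primorial w)) = z ∧
      ∀ p : ℕ, p.Prime → w < p → p ≤ v → ¬ (p : ℤ) ∣ ((n : ℤ) - b) ∧ ¬ (p : ℤ) ∣ ((n : ℤ) - b'))).card : ℝ) ≤
      (((primorial v).totient : ℝ) / (primorial w).totient) ^ 2 *
        ((primorial w : ℝ) / primorial v) *
        ∏ p ∈ (Ioc w v).filter (fun p : ℕ => p.Prime ∧ (p : ℤ) ∣ (b - b')),
          ((p : ℝ) / ((p : ℝ) - 1)) := by
  obtain ⟨t, rfl⟩ := Nat.exists_eq_add_of_le hwv
  exact cc_main w z b b' t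

end Pool.Agent.Lib.MP_629a14_nt.Sm
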