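import Pool.Agent.Lib.MP_629a14_nt.Sm.Defs

/-! The inequality on a cycle. -/

set_option autoImplicit false

namespace Pool.Agent.Lib.MP_629a14_nt.Sm

open Finset

private theorem cyc_sum (p : ℕ) [Fact p.Prime] (d : ZMod p) (hd : d ≠ 0) (f : ZMod p → ℝ) :
    ∑ z, f z = ∑ j ∈ range p, f ((j : ZMod p) * d) := by
  have h1 : ∑ z, f (z * d) = ∑ z, f z :=
    Fintype.sum_equiv (Equiv.mulRight₀ d hd) _ _ (fun z => rfl)
  rw [← h1]
  symm
  have hp : 0 < p := (Fact.out : p.Prime).pos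
  refine Finset.sum_nbij' (fun j : ℕ => (j : ZMod p)) (fun z => z.val) ?_ ?_ ?_ ?_ ?_
  · intro j _
    exact mem_univ _
  · intro z _
    rw [mem_range]
    exact ZMod.val_lt z
  · intro j hj
    rw [mem_range] at hj
    exact ZMod.val_cast_of_lt hj
  · intro z _
    exact ZMod.natCast_zmod_val z
  · intro j _
    rfl

/-- Order `ZMod p` as `0, d, 2 d, .., (p - 1) d`; `a_j = a (j d)`, `c_j = c (j d)`, `N = p - 1`,
`D = ∑ i < N, r ^ i ≥ 1`, `κ = r ^ N / D`, `λ_j = r ^ (N + 1 - j) (∑ i < j - 1, r ^ i) / D` for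
`1 ≤ j ≤ N + 1`. Then `0 ≤ λ_j ≤ 1`, `λ_1 = 0`, `λ_(N+1) = 1`, `r λ_(j+1) = λ_j + κ`. For
`1 ≤ j ≤ N`: `c_j ≥ (1 - λ_j) a_j + λ_j r a_(j-1)` (`a_0 = 0`), and `c_0 ≥ r a_N` (as `N d + d = 0`).
Sum: the coefficient of `a_j` is `(1 - λ_j) + r λ_(j+1) = 1 + κ`. -/
theorem cyc (p : ℕ) [Fact p.Prime] (d : ZMod p) (hd : d ≠ 0) (r : ℝ) (hr0 : 0 ≤ r) (hr1 : r ≤ 1)
    (a c : ZMod p → ℝ) (ha0 : a 0 = 0) (ha : ∀ x, 0 ≤ a x) (h1 : ∀ z, a z ≤ c z)
    (h2 : ∀ z, r * a z ≤ c (z + d)) :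
    (1 + kap (p - 1) r) * ∑ z, a z ≤ ∑ z, c z := by
  have hp : 2 ≤ p := (Fact.out : p.Prime).two_le
  obtain ⟨N, hN⟩ : ∃ N, N = p - 1 := ⟨_, rfl⟩
  have hpN : p = N + 1 := by omega
  have hN1 : 1 ≤ N := by omega
  obtain ⟨D, hD⟩ : ∃ D, D = ∑ i ∈ range N, r ^ i := ⟨_, rfl⟩
  have hD1 : 1 ≤ D := by
    obtain ⟨M, rfl⟩ : ∃ M, N = M + 1 := ⟨N - 1, by omega⟩
    rw [hD, sum_range_succ']
    have : 0 ≤ ∑ i ∈ range M, r ^ (i + 1) := sum_nonneg fun i _ => pow_nonneg hr0 _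
    rw [pow_zero]
    linarith
  have hD0 : D ≠ 0 := by linarith
  have hDpos : 0 < D := by linarith
  obtain ⟨κ, hκ⟩ : ∃ κ, κ = r ^ N / D := ⟨_, rfl⟩
  have hkap : kap (p - 1) r = κ := by
    rw [hκ, hD, ← hN]
    rfl
  obtain ⟨L, hL⟩ : ∃ L : ℕ → ℝ, L = fun j => r ^ (N - j) * (∑ i ∈ range j, r ^ i) / D :=
    ⟨_, rfl⟩
  have hL0 : L 0 = 0 := by rw [hL]; simp
  have hLN : L N = 1 := by
    rw [hL]
    simp only
    rw [Nat.sub_self, pow_zero, one_mul, ← hD, div_self hD0]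
  have hLs : ∀ j, j < N → r * L (j + 1) = L j + κ := by
    intro j hj
    rw [hL, hκ]
    simp only
    have e : N - j = (N - (j + 1)) + 1 := by omega
    have e2 : r ^ N = r * r ^ (N - (j + 1)) * r ^ j := by
      rw [← pow_succ', ← pow_add]
      congr 1
      omega
    rw [e, pow_succ', sum_range_succ, e2]
    field_simp
  have hLnn : ∀ j, 0 ≤ L j := by
    intro j
    rw [hL]
    have : 0 ≤ ∑ i ∈ range j, r ^ i := sum_nonneg fun i _ => pow_nonneg hr0 _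
    positivity
  have hLle : ∀ j, j ≤ N → L j ≤ 1 := by
    intro j hj
    rw [hL]
    simp only
    rw [div_le_one hDpos, hD]
    have e : N = (N - j) + j := by omega
    have e3 : ∑ i ∈ range N, r ^ i = ∑ i ∈ range (N - j), r ^ i +
        r ^ (N - j) * ∑ i ∈ range j, r ^ i := by
      conv_lhs => rw [e]
      rw [sum_range_add, mul_sum]
      congr 1
      exact sum_congr rfl fun i _ => pow_add _ _ _
    rw [e3]
    have : 0 ≤ ∑ i ∈ range (N - j), r ^ i := sum_nonneg fun i _ => pow_nonneg hr0 _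
    linarith
  -- the sequences
  obtain ⟨A, hA⟩ : ∃ A : ℕ → ℝ, A = fun j : ℕ => a ((j : ZMod p) * d) := ⟨_, rfl⟩
  obtain ⟨c', hc'⟩ : ∃ c' : ℕ → ℝ, c' = fun j : ℕ => c ((j : ZMod p) * d) := ⟨_, rfl⟩
  have hA0 : A 0 = 0 := by
    rw [hA]
    simp [ha0]
  have hAc : ∀ j, A j ≤ c' j := by
    intro j
    rw [hA, hc']
    exact h1 _
  have hAc2 : ∀ j, r * A j ≤ c' (j + 1) := by
    intro j
    rw [hA, hc']
    have h := h2 ((j : ZMod p) * d)
    have e : (j : ZMod p) * d + d = ((j + 1 : ℕ) : ZMod p) * d := by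
      push_cast
      ring
    rw [e] at h
    exact h
  have hc0 : c' 0 = c' (N + 1) := by
    rw [hc']
    simp only
    rw [← hpN]
    simp
  have hstep : ∀ i ∈ range N, (1 - L i) * A (i + 1) + L i * (r * A i) ≤ c' (i + 1) := by
    intro i hi
    rw [mem_range] at hi
    have b1 := mul_le_mul_of_nonneg_left (hAc (i + 1)) (sub_nonneg.mpr (hLle i hi.le))
    have b2 := mul_le_mul_of_nonneg_left (hAc2 i) (hLnn i)
    calc (1 - L i) * A (i + 1) + L i * (r * A i) ≤ (1 - L i) * c' (i + 1) + L i * c' (i + 1) := by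
          linarith
      _ = c' (i + 1) := by ring
  have hlast : L N * (r * A N) ≤ c' 0 := by
    rw [hLN, one_mul, hc0]
    exact hAc2 N
  have hsum := sum_le_sum hstep
  have e1 : ∑ i ∈ range N, ((1 - L i) * A (i + 1) + L i * (r * A i)) + L N * (r * A N) =
      (1 + κ) * ∑ i ∈ range (N + 1), A i := by
    rw [sum_add_distrib, add_assoc, ← sum_range_succ (fun i => L i * (r * A i)), sum_range_succ',
      sum_range_succ', hL0, hA0, zero_mul, add_zero, add_zero, ← sum_add_distrib, mul_sum]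
    refine sum_congr rfl fun i hi => ?_
    rw [mem_range] at hi
    have h := hLs i hi
    have : (1 - L i) * A (i + 1) + L (i + 1) * (r * A (i + 1)) =
        (1 - L i + r * L (i + 1)) * A (i + 1) := by ring
    rw [this, h]
    ring
  have e2 : ∑ i ∈ range N, c' (i + 1) + c' 0 = ∑ i ∈ range (N + 1), c' i := by
    rw [sum_range_succ']
  rw [hkap, cyc_sum p d hd a, cyc_sum p d hd c]
  have e3 : ∑ j ∈ range p, a ((j : ZMod p) * d) = ∑ i ∈ range (N + 1), A i := by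
    rw [← hpN, hA]
  have e4 : ∑ j ∈ range p, c ((j : ZMod p) * d) = ∑ i ∈ range (N + 1), c' i := by
    rw [← hpN, hc']
  rw [e3, e4, ← e1, ← e2]
  linarith

end Pool.Agent.Lib.MP_629a14_nt.Sm
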