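import Pool.Agent.Lib.MP_629a14_nt.Sm.ExpoS

/-! The constants. -/

set_option autoImplicit false

namespace Pool.Agent.Lib.MP_629a14_nt.Sm

open Finset

private theorem pg_log {N : ℕ} (hN : 2 ≤ N) :
    0 < Real.log N ∧ 0 < Real.log (1 + 1 / (N : ℝ)) := by
  have h2 : (2 : ℝ) ≤ N := by exact_mod_cast hN
  refine ⟨Real.log_pos (by linarith), Real.log_pos ?_⟩
  have : (0 : ℝ) < 1 / N := by positivity
  linarith

private theorem pg_sE_pos {N : ℕ} (hN : 2 ≤ N) : 0 < sE N := by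
  have h := pg_log hN
  exact div_pos h.1 h.2

private theorem pg_rpow {N : ℕ} (hN : 2 ≤ N) : (N : ℝ) ^ (1 / sE N) = 1 + 1 / (N : ℝ) := by
  have h := pg_log hN
  have h2 : (2 : ℝ) ≤ N := by exact_mod_cast hN
  have h0 : (0 : ℝ) < N := by linarith
  have h3 : (0 : ℝ) < 1 + 1 / (N : ℝ) := by positivity
  rw [Real.rpow_def_of_pos h0, sE, one_div_div, mul_div_cancel₀ _ h.1.ne', Real.exp_log h3]

private theorem pg_factor {q p : ℕ} (hp : p.Prime) (hpq : p ≤ q) :
    (1 : ℝ) ≤ (p : ℝ) / ((p : ℝ) - 1) ^ (1 + 1 / sE (q - 1)) := by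
  rcases hp.two_le.eq_or_lt with h2 | h2
  · subst h2
    have : ((2 : ℕ) : ℝ) - 1 = 1 := by norm_num
    rw [this, Real.one_rpow]
    norm_num
  · have hN : 2 ≤ p - 1 := by omega
    have hcast : ((p - 1 : ℕ) : ℝ) = (p : ℝ) - 1 := by
      rw [Nat.cast_sub hp.one_le]; simp
    have hpos : (0 : ℝ) < (p : ℝ) - 1 := by
      rw [← hcast]; exact_mod_cast (by omega : 0 < p - 1)
    have h1le : (1 : ℝ) ≤ (p : ℝ) - 1 := by
      rw [← hcast]; exact_mod_cast (by omega : 1 ≤ p - 1)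
    have hmono : sE (p - 1) ≤ sE (q - 1) := sE_mono (p - 1) (q - 1) hN (by omega)
    have hs := pg_sE_pos hN
    have h3 : ((p : ℝ) - 1) ^ (1 / sE (q - 1)) ≤ 1 + 1 / ((p : ℝ) - 1) := by
      calc ((p : ℝ) - 1) ^ (1 / sE (q - 1)) ≤ ((p : ℝ) - 1) ^ (1 / sE (p - 1)) :=
            Real.rpow_le_rpow_of_exponent_le h1le (one_div_le_one_div_of_le hs hmono)
        _ = 1 + 1 / ((p : ℝ) - 1) := by
            have := pg_rpow hN
            rw [hcast] at this
            exact this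
    rw [Real.rpow_add hpos, Real.rpow_one, one_le_div (by positivity)]
    calc ((p : ℝ) - 1) * ((p : ℝ) - 1) ^ (1 / sE (q - 1))
        ≤ ((p : ℝ) - 1) * (1 + 1 / ((p : ℝ) - 1)) := mul_le_mul_of_nonneg_left h3 hpos.le
      _ = p := by field_simp; ring

private theorem pg_prod (S : Finset ℕ) (hS : ∀ p ∈ S, p.Prime) (e : ℝ) :
    ((∏ p ∈ S, p : ℕ) : ℝ) / ((∏ p ∈ S, p : ℕ).totient : ℝ) ^ e =
      ∏ p ∈ S, ((p : ℝ) / ((p : ℝ) - 1) ^ e) := by
  have h1 := Nat.totient_mul_prod_primeFactors (∏ p ∈ S, p)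
  rw [Nat.primeFactors_prod hS] at h1
  have hpos : 0 < ∏ p ∈ S, p := Finset.prod_pos (fun p hp => (hS p hp).pos)
  have h2 : (∏ p ∈ S, p).totient = ∏ p ∈ S, (p - 1) := by
    rw [mul_comm] at h1
    exact Nat.eq_of_mul_eq_mul_left hpos h1
  rw [h2]
  push_cast
  have h3 : (∏ p ∈ S, ((p - 1 : ℕ) : ℝ)) = ∏ p ∈ S, ((p : ℝ) - 1) := by
    refine Finset.prod_congr rfl (fun p hp => ?_)
    rw [Nat.cast_sub (hS p hp).one_le]; simp
  rw [h3, Finset.prod_div_distrib, Real.finsetProd_rpow]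
  intro p hp
  have : (1 : ℝ) ≤ p := by exact_mod_cast (hS p hp).one_le
  linarith

/-- `m / φ(m) ^ e` over `primorial q / φ(primorial q) ^ e` is the product over the primes `p > q` of
`m` divided by the product of `p / (p - 1) ^ e` over the primes `p ≤ q` not dividing `m`, and each of
the latter is at least `1` when `e = 1 + 1 / sE (q - 1)` (`p ≤ q`: `(p - 1) ^ (1/s) ≤ p / (p - 1)` as
`s = sE (q - 1) ≥ sE (p - 1)`, for `p = 2, 3` directly with `s ≥ 6`). -/
theorem prod_ge (q : ℕ) (hq : q.Prime) (h5 : 5 ≤ q) (m : ℕ) [NeZero m] (hm : Squarefree m) :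
    ((m : ℝ) / primorial q) /
        ((m.totient : ℝ) / (primorial q).totient) ^ (1 + 1 / sE (q - 1)) ≤
      ∏ p ∈ m.primeFactors.filter (fun p => q < p),
        ((p : ℝ) / ((p : ℝ) - 1) ^ (1 + 1 / sE (q - 1))) := by
  set e : ℝ := 1 + 1 / sE (q - 1) with he
  set f : ℕ → ℝ := fun p => (p : ℝ) / ((p : ℝ) - 1) ^ e with hf
  have hfpos : ∀ p : ℕ, p.Prime → 0 < f p := by
    intro p hp
    have h1 : (1 : ℝ) < p := by exact_mod_cast hp.one_lt
    have h2 : (0 : ℝ) < (p : ℝ) - 1 := by linarith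
    have h3 : (0 : ℝ) < p := by linarith
    exact div_pos h3 (Real.rpow_pos_of_pos h2 _)
  have hmf : (m : ℝ) / (m.totient : ℝ) ^ e = ∏ p ∈ m.primeFactors, f p := by
    have h := pg_prod m.primeFactors (fun p hp => Nat.prime_of_mem_primeFactors hp) e
    rw [Nat.prod_primeFactors_of_squarefree hm] at h
    exact h
  set Q := (range (q + 1)).filter Nat.Prime with hQ
  have hQp : ∀ p ∈ Q, p.Prime := fun p hp => (Finset.mem_filter.1 hp).2
  have hqf : (primorial q : ℝ) / ((primorial q).totient : ℝ) ^ e = ∏ p ∈ Q, f p :=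
    pg_prod Q hQp e
  have hmpos : (0 : ℝ) < m.totient := by
    exact_mod_cast Nat.totient_pos.2 (Nat.pos_of_ne_zero (NeZero.ne m))
  have hPpos : (0 : ℝ) < primorial q := by exact_mod_cast primorial_pos q
  have hPtpos : (0 : ℝ) < (primorial q).totient := by
    exact_mod_cast Nat.totient_pos.2 (primorial_pos q)
  have hlhs : ((m : ℝ) / primorial q) / ((m.totient : ℝ) / (primorial q).totient) ^ e =
      (∏ p ∈ m.primeFactors, f p) / ∏ p ∈ Q, f p := by
    rw [← hmf, ← hqf, Real.div_rpow hmpos.le hPtpos.le]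
    have h1 : (0 : ℝ) < (m.totient : ℝ) ^ e := Real.rpow_pos_of_pos hmpos _
    have h2 : (0 : ℝ) < ((primorial q).totient : ℝ) ^ e := Real.rpow_pos_of_pos hPtpos _
    field_simp
  rw [hlhs]
  have hsplit : ∏ p ∈ m.primeFactors, f p =
      (∏ p ∈ m.primeFactors.filter (fun p => q < p), f p) *
        ∏ p ∈ m.primeFactors.filter (fun p => ¬ q < p), f p :=
    (Finset.prod_filter_mul_prod_filter_not _ _ _).symm
  have hsub : m.primeFactors.filter (fun p => ¬ q < p) ⊆ Q := by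
    intro p hp
    rw [Finset.mem_filter] at hp
    rw [hQ, Finset.mem_filter, Finset.mem_range]
    exact ⟨by omega, Nat.prime_of_mem_primeFactors hp.1⟩
  have hle : ∏ p ∈ m.primeFactors.filter (fun p => ¬ q < p), f p ≤ ∏ p ∈ Q, f p := by
    rw [← Finset.prod_sdiff hsub]
    have h1 : (1 : ℝ) ≤ ∏ p ∈ Q \ m.primeFactors.filter (fun p => ¬ q < p), f p := by
      have h2 : ∏ p ∈ Q \ m.primeFactors.filter (fun p => ¬ q < p), (1 : ℝ) ≤
          ∏ p ∈ Q \ m.primeFactors.filter (fun p => ¬ q < p), f p := by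
        refine Finset.prod_le_prod (fun _ _ => zero_le_one) (fun p hp => ?_)
        have hpQ : p ∈ Q := (Finset.mem_sdiff.1 hp).1
        have hpq : p ≤ q := by
          have := Finset.mem_range.1 (Finset.mem_filter.1 hpQ).1
          omega
        exact pg_factor (hQp p hpQ) hpq
      simpa using h2
    have h3 : 0 ≤ ∏ p ∈ m.primeFactors.filter (fun p => ¬ q < p), f p :=
      Finset.prod_nonneg (fun p hp =>
        (hfpos p (Nat.prime_of_mem_primeFactors (Finset.mem_filter.1 hp).1)).le)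
    exact le_mul_of_one_le_left h3 h1
  have hQpos : 0 < ∏ p ∈ Q, f p := Finset.prod_pos (fun p hp => hfpos p (hQp p hp))
  have hA : 0 ≤ ∏ p ∈ m.primeFactors.filter (fun p => q < p), f p :=
    Finset.prod_nonneg (fun p hp =>
      (hfpos p (Nat.prime_of_mem_primeFactors (Finset.mem_filter.1 hp).1)).le)
  rw [hsplit, div_le_iff₀ hQpos]
  exact mul_le_mul_of_nonneg_left hle hA

end Pool.Agent.Lib.MP_629a14_nt.Sm
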