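import Pool.Agent.Lib.MP_629a14_nt.Sm.Sqf
import Pool.Agent.Lib.MP_629a14_nt.Sm.ProdGe

/-! The density form. -/

set_option autoImplicit false

namespace Pool.Agent.Lib.MP_629a14_nt.Sm

open Finset

/-- The density form. `good_sqf`, `prod_ge` with `a = α`, `b = β ^ (1/s)`, `c = γ`, `s = sE (q - 1)`. -/
theorem dens (q : ℕ) (hq : q.Prime) (h5 : 5 ≤ q) (m : ℕ) [NeZero m] (hm : Squarefree m)
    (α β γ : ZMod m → ℝ) (hα : ∀ x, 0 ≤ α x) (hβ0 : ∀ x, 0 ≤ β x)
    (hβ1 : ∀ x, β x ≤ 1) (hγ : ∀ x, 0 ≤ γ x)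
    (h : ∀ x y, IsUnit x → IsUnit y → 0 < β y → α x ≤ γ (x + y)) :
    ((primorial q).totient : ℝ) / primorial q *
      ((∑ x ∈ UM m, α x) / m.totient) *
      ((primorial q).totient * ((∑ y ∈ UM m, β y) / m.totient)) ^
        (1 / sE (q - 1)) ≤ (∑ z, γ z) / m := by
  classical
  have hs : 0 < sE (q - 1) := by
    have h1 := sE_mono 4 (q - 1) (by norm_num) (by omega)
    have h2 := sE_four
    linarith
  generalize hse : sE (q - 1) = s at hs ⊢
  have hg := good_sqf q hq h5 m hm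
  have hp := prod_ge q hq h5 m hm
  rw [hse] at hg hp
  set C := (∏ p ∈ m.primeFactors.filter (fun p => q < p),
        ((p : ℝ) / ((p : ℝ) - 1) ^ (1 + 1 / s))) with hC
  have hunit : ∀ x, x ∈ UM m ↔ IsUnit x := by
    intro x
    simp [UM]
  have h1 := hg α (fun y => β y ^ (1 / s)) γ hα (fun y => Real.rpow_nonneg (hβ0 y) _) hγ (by
    intro x hx y hy
    rcases (hβ0 y).eq_or_lt with h0 | h0
    · have : (0 : ℝ) ^ (1 / s) = 0 := Real.zero_rpow (one_div_pos.mpr hs).ne'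
      simp only [← h0, this, mul_zero]
      exact hγ _
    · have h2 := h x y ((hunit x).mp hx) ((hunit y).mp hy) h0
      have h3 : β y ^ (1 / s) ≤ 1 := Real.rpow_le_one (hβ0 y) (hβ1 y) (one_div_pos.mpr hs).le
      calc α x * β y ^ (1 / s) ≤ α x * 1 := mul_le_mul_of_nonneg_left h3 (hα x)
        _ = α x := mul_one _
        _ ≤ _ := h2)
  have h4 : ∑ y ∈ UM m, (β y ^ (1 / s)) ^ s = ∑ y ∈ UM m, β y := by
    refine sum_congr rfl fun y _ => ?_
    rw [← Real.rpow_mul (hβ0 y), one_div_mul_cancel hs.ne', Real.rpow_one]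
  rw [h4] at h1
  have hm0 : (0 : ℝ) < m := by
    have := Nat.pos_of_ne_zero (NeZero.ne m)
    exact_mod_cast this
  have hphi : (0 : ℝ) < m.totient := by
    have := Nat.totient_pos.mpr (Nat.pos_of_ne_zero (NeZero.ne m))
    exact_mod_cast this
  have hP : (0 : ℝ) < primorial q := by
    exact_mod_cast primorial_pos q
  have hPhi : (0 : ℝ) < (primorial q).totient := by
    have := Nat.totient_pos.mpr (primorial_pos q)
    exact_mod_cast this
  have hA : 0 ≤ ∑ x ∈ UM m, α x := sum_nonneg fun x _ => hα x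
  have hB : 0 ≤ ∑ y ∈ UM m, β y := sum_nonneg fun y _ => hβ0 y
  generalize (∑ x ∈ UM m, α x) = A at h1 hA ⊢
  generalize (∑ y ∈ UM m, β y) = B at h1 hB ⊢
  generalize (∑ z, γ z) = G at h1 ⊢
  generalize ((primorial q : ℕ) : ℝ) = P at hp hP ⊢
  generalize (((primorial q).totient : ℕ) : ℝ) = F at hp hPhi ⊢
  generalize ((m.totient : ℕ) : ℝ) = f at hp hphi ⊢
  generalize (m : ℝ) = M at hp hm0 ⊢
  have hBs : 0 ≤ B ^ (1 / s) := Real.rpow_nonneg hB _
  have h5 : (M / P) / (f / F) ^ (1 + 1 / s) * A * B ^ (1 / s) ≤ G := by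
    refine le_trans ?_ h1
    exact mul_le_mul_of_nonneg_right (mul_le_mul_of_nonneg_right hp hA) hBs
  have h6 : (f / F) ^ (1 + 1 / s) = (f / F) * (f / F) ^ (1 / s) := by
    rw [Real.rpow_add (div_pos hphi hPhi), Real.rpow_one]
  have h7 : (F * (B / f)) ^ (1 / s) = B ^ (1 / s) / (f / F) ^ (1 / s) := by
    rw [← Real.div_rpow hB (div_pos hphi hPhi).le]
    congr 1
    field_simp
  have hX : 0 < (f / F) ^ (1 / s) := Real.rpow_pos_of_pos (div_pos hphi hPhi) _
  rw [h7, le_div_iff₀ hm0]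
  refine le_trans (le_of_eq ?_) h5
  rw [h6]
  field_simp

end Pool.Agent.Lib.MP_629a14_nt.Sm
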