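import Pool.Agent.Lib.MP_629a14_nt.Sm.LimB
import Pool.Agent.Lib.MP_629a14_nt.Sm.LimC

/-! The exact values. -/

set_option autoImplicit false

namespace Pool.Agent.Lib.MP_629a14_nt.Sm

open Finset Filter Topology Pool.Agent.Lib.MP_629a14_nt Pool.Agent.Lib.MP_629a14_nt.Rob

private theorem exact_anti (c c' : ℝ) (h : c' ≤ c) (A B : Set ℕ) : rich c A B ≤ rich c' A B := by
  classical
  unfold rich
  refine liminf_le_liminf ?_ ?_ ?_
  · refine Eventually.of_forall fun N => ?_
    refine div_le_div_of_nonneg_right ?_ (Nat.cast_nonneg N)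
    refine Nat.cast_le.2 (card_le_card fun n hn => ?_)
    rw [mem_filter] at hn ⊢
    exact ⟨hn.1, hn.2.1, le_trans (mul_le_mul_of_nonneg_right h (by positivity)) hn.2.2⟩
  · exact isBoundedUnder_of ⟨0, fun N => by positivity⟩
  · have hb : IsBoundedUnder (· ≤ ·) atTop (fun N : ℕ => (((Icc 1 N).filter (fun n : ℕ => Even n ∧
        c' * ((n : ℝ) ^ 2 / ((n.totient : ℝ) * Real.log n ^ 2)) ≤
          (repsIn A B n : ℝ))).card : ℝ) / N) := by
      refine isBoundedUnder_of ⟨1, fun N => ?_⟩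
      refine div_le_one_of_le₀ ?_ (Nat.cast_nonneg N)
      have h1 := card_filter_le (Icc 1 N) (fun n : ℕ => Even n ∧
        c' * ((n : ℝ) ^ 2 / ((n.totient : ℝ) * Real.log n ^ 2)) ≤ (repsIn A B n : ℝ))
      rw [Nat.card_Icc, Nat.add_sub_cancel] at h1
      exact_mod_cast h1
    exact hb.isCoboundedUnder_ge

private theorem exact_units (m k : ℕ) [NeZero m] (hk : k ≤ m.totient) :
    ∃ R : Finset (ZMod m), R.card = k ∧ ∀ x ∈ R, IsUnit x := by
  classical
  have h1 : (univ.map ⟨((↑) : (ZMod m)ˣ → ZMod m), Units.val_injective⟩).card = m.totient := by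
    rw [card_map, card_univ, ZMod.card_units_eq_totient]
  rw [← h1] at hk
  obtain ⟨R, hR, hc⟩ := exists_subset_card_eq hk
  refine ⟨R, hc, fun x hx => ?_⟩
  obtain ⟨u, _, hu⟩ := mem_map.1 (hR hx)
  exact ⟨u, hu⟩

/-- The exact values. Lower bounds: `rich_ge_prim`, `rich_le_sumDens`; upper bounds: the example
`cls w R`, `cls w {1}` with `R` a set of `k` units (`sharp_dens`, `sumDens_le`). -/
theorem exact (w : ℕ) (hw : 3 ≤ w) (k : ℕ) (hk : 1 ≤ k) (hk2 : k ≤ (primorial w).totient) :
    Tendsto (fun c : ℝ => least c ((k : ℝ) / (primorial w).totient) (1 / (primorial w).totient))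
      (𝓝[>] 0) (𝓝 ((k : ℝ) / primorial w)) ∧
    leastSum ((k : ℝ) / (primorial w).totient) (1 / (primorial w).totient) =
      (k : ℝ) / primorial w := by
  have hP : (0 : ℝ) < primorial w := by exact_mod_cast primorial_pos w
  have hφ : (0 : ℝ) < (primorial w).totient := by
    exact_mod_cast Nat.totient_pos.2 (primorial_pos w)
  obtain ⟨R, hRc, hRu⟩ := exact_units (primorial w) k hk2
  -- the example
  have hA : (k : ℝ) / (primorial w).totient ≤ relLow (cls w R) := by
    have h1 := (sharp_dens w R hRu).liminf_eq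
    unfold relLow
    rw [h1, hRc]
  have hB : 1 / ((primorial w).totient : ℝ) ≤ relLow (cls w {1}) := by
    have h1 := (sharp_dens w {1} (fun x hx => by
      rw [mem_singleton] at hx
      rw [hx]
      exact isUnit_one)).liminf_eq
    unfold relLow
    rw [h1, card_singleton, Nat.cast_one]
  have hS : sumDens (cls w R) (cls w {1}) ≤ (k : ℝ) / primorial w := by
    have h1 := sumDens_le w R
    rwa [hRc] at h1
  -- the lower bound
  have hlow : ∀ ε : ℝ, 0 < ε → ∃ c : ℝ, 0 < c ∧ ∀ A B : Set ℕ,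
      (k : ℝ) / (primorial w).totient ≤ relLow A → 1 / ((primorial w).totient : ℝ) ≤ relLow B →
      (k : ℝ) / primorial w - ε ≤ rich c A B := by
    intro ε hε
    obtain ⟨c, hc, h⟩ := rich_ge_prim w hw ε hε
    refine ⟨c, hc, fun A B h1 h2 => ?_⟩
    have h3 := h A B h2 (le_trans (by positivity) h1)
    have h4 : (k : ℝ) / primorial w = ((primorial w).totient : ℝ) / primorial w *
        ((k : ℝ) / (primorial w).totient) := by
      field_simp
    have h5 : ((primorial w).totient : ℝ) / primorial w * ((k : ℝ) / (primorial w).totient) ≤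
        ((primorial w).totient : ℝ) / primorial w * relLow A :=
      mul_le_mul_of_nonneg_left h1 (by positivity)
    linarith
  constructor
  · rw [Metric.tendsto_nhds]
    intro ε hε
    obtain ⟨c, hc, h⟩ := hlow (ε / 2) (by positivity)
    have hmem : ∀ᶠ c' : ℝ in 𝓝[>] 0, c' ∈ Set.Ioc (0 : ℝ) c :=
      Ioc_mem_nhdsGT hc
    filter_upwards [hmem] with c' hc'
    have hlb : ∀ d ∈ {d : ℝ | ∃ A B : Set ℕ, (k : ℝ) / (primorial w).totient ≤ relLow A ∧
        1 / ((primorial w).totient : ℝ) ≤ relLow B ∧ d = rich c' A B},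
        (k : ℝ) / primorial w - ε / 2 ≤ d := by
      rintro d ⟨A, B, h1, h2, rfl⟩
      exact (h A B h1 h2).trans (exact_anti c c' hc'.2 A B)
    have hmemb : rich c' (cls w R) (cls w {1}) ∈
        {d : ℝ | ∃ A B : Set ℕ, (k : ℝ) / (primorial w).totient ≤ relLow A ∧
        1 / ((primorial w).totient : ℝ) ≤ relLow B ∧ d = rich c' A B} :=
      ⟨_, _, hA, hB, rfl⟩
    have h1 : (k : ℝ) / primorial w - ε / 2 ≤
        least c' ((k : ℝ) / (primorial w).totient) (1 / (primorial w).totient) :=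
      le_csInf ⟨_, hmemb⟩ hlb
    have h2 : least c' ((k : ℝ) / (primorial w).totient) (1 / (primorial w).totient) ≤
        (k : ℝ) / primorial w :=
      (csInf_le ⟨_, hlb⟩ hmemb).trans ((rich_le_sumDens c' hc'.1 _ _).trans hS)
    rw [Real.dist_eq, abs_lt]
    constructor <;> linarith
  · have hlb : ∀ d ∈ {d : ℝ | ∃ A B : Set ℕ, (k : ℝ) / (primorial w).totient ≤ relLow A ∧
        1 / ((primorial w).totient : ℝ) ≤ relLow B ∧ d = sumDens A B},
        (k : ℝ) / primorial w ≤ d := by
      rintro d ⟨A, B, h1, h2, rfl⟩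
      refine le_of_forall_pos_sub_le fun ε hε => ?_
      obtain ⟨c, hc, h⟩ := hlow ε hε
      exact (h A B h1 h2).trans (rich_le_sumDens c hc A B)
    have hmemb : sumDens (cls w R) (cls w {1}) ∈
        {d : ℝ | ∃ A B : Set ℕ, (k : ℝ) / (primorial w).totient ≤ relLow A ∧
        1 / ((primorial w).totient : ℝ) ≤ relLow B ∧ d = sumDens A B} :=
      ⟨_, _, hA, hB, rfl⟩
    exact le_antisymm ((csInf_le ⟨_, hlb⟩ hmemb).trans hS) (le_csInf ⟨_, hmemb⟩ hlb)

end Pool.Agent.Lib.MP_629a14_nt.Sm
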