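import Pool.Agent.Lib.MP_629a14_nt.Sm.Defs

/-! The exponents. -/

set_option autoImplicit false

namespace Pool.Agent.Lib.MP_629a14_nt.Sm

open Finset

/-- `log` is increasing and `log (1 + 1/N)` decreasing. -/
theorem sE_mono (N K : ℕ) (hN : 2 ≤ N) (h : N ≤ K) : sE N ≤ sE K := by
  have hN0 : (0 : ℝ) < N := by exact_mod_cast (by omega : 0 < N)
  have hK0 : (0 : ℝ) < K := by exact_mod_cast (by omega : 0 < K)
  have hNK : (N : ℝ) ≤ K := by exact_mod_cast h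
  have hK1 : (1 : ℝ) ≤ K := by exact_mod_cast (by omega : 1 ≤ K)
  unfold sE
  have h1 : Real.log N ≤ Real.log K := Real.log_le_log hN0 hNK
  have h2 : (0 : ℝ) < 1 / K := by positivity
  have h3 : 0 < Real.log (1 + 1 / (K : ℝ)) := Real.log_pos (by linarith)
  have h4 : (1 : ℝ) / K ≤ 1 / N := one_div_le_one_div_of_le hN0 hNK
  have h5 : Real.log (1 + 1 / (K : ℝ)) ≤ Real.log (1 + 1 / (N : ℝ)) :=
    Real.log_le_log (by linarith) (by linarith)
  exact div_le_div₀ (Real.log_nonneg hK1) h1 h3 h5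

/-- `(5/4) ^ 6 ≤ 4`. -/
theorem sE_four : 6 ≤ sE 4 := by
  unfold sE
  have e : (1 : ℝ) + 1 / ((4 : ℕ) : ℝ) = 5 / 4 := by norm_num
  rw [e]
  have h3 : 0 < Real.log (5 / 4 : ℝ) := Real.log_pos (by norm_num)
  rw [le_div_iff₀ h3]
  have h4 : 6 * Real.log (5 / 4 : ℝ) = Real.log ((5 / 4 : ℝ) ^ 6) := by
    rw [Real.log_pow]
    norm_num
  rw [h4]
  exact Real.log_le_log (by norm_num) (by norm_num)

end Pool.Agent.Lib.MP_629a14_nt.Sm
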