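import Pool.Agent.Lib.MP_629a14_nt.Sm.ClassCount

/-! Pair correlations of `nu` in residue classes. -/

set_option autoImplicit false

namespace Pool.Agent.Lib.MP_629a14_nt.Sm

open Finset Pool.Agent.Lib.MP_629a14_nt Pool.Agent.Lib.MP_629a14_nt.Rob

/-- the classes counted in `classCount` -/
private noncomputable def npS (w v : ℕ) (z : ZMod (primorial w)) (b b' : ℤ) : Finset ℕ := by
  classical exact (range (primorial v)).filter (fun n : ℕ => (n : ZMod (primorial w)) = z ∧
      ∀ p : ℕ, p.Prime → w < p → p ≤ v → ¬ (p : ℤ) ∣ ((n : ℤ) - b) ∧ ¬ (p : ℤ) ∣ ((n : ℤ) - b'))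

private theorem np_mem {w v : ℕ} {z : ZMod (primorial w)} {b b' : ℤ} {n : ℕ} :
    n ∈ npS w v z b b' ↔ n < primorial v ∧ (n : ZMod (primorial w)) = z ∧
      ∀ p : ℕ, p.Prime → w < p → p ≤ v →
        ¬ (p : ℤ) ∣ ((n : ℤ) - b) ∧ ¬ (p : ℤ) ∣ ((n : ℤ) - b') := by
  unfold npS
  simp only [mem_filter, mem_range]

private theorem np_fibre (N W s : ℕ) (_hW : 0 < W) :
    ((Icc 1 N).filter (fun n => n % W = s)).card ≤ N / W + 1 := by
  rw [← card_range (N / W + 1)]
  refine card_le_card_of_injOn (fun n => n / W) ?_ ?_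
  · intro n hn
    have h1 := (mem_filter.1 (mem_coe.1 hn)).1
    rw [mem_Icc] at h1
    rw [mem_coe, mem_range]
    exact Nat.lt_succ_of_le (Nat.div_le_div_right h1.2)
  · intro n hn n' hn' hnn
    have h1 := (mem_filter.1 (mem_coe.1 hn)).2
    have h2 := (mem_filter.1 (mem_coe.1 hn')).2
    simp only at hnn
    rw [← Nat.div_add_mod n W, ← Nat.div_add_mod n' W, h1, h2, hnn]

private theorem np_count (N W : ℕ) (hW : 0 < W) (S : Finset ℕ) :
    (((Icc 1 N).filter (fun n => n % W ∈ S)).card : ℝ) ≤ S.card * ((N : ℝ) / W + 1) := by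
  have h1 : ((Icc 1 N).filter (fun n => n % W ∈ S)).card ≤ S.card * (N / W + 1) := by
    rw [mul_comm]
    refine card_le_mul_card_image_of_maps_to (f := fun n => n % W) (t := S) ?_ (N / W + 1) ?_
    · intro n hn
      exact (mem_filter.1 hn).2
    · intro s hs
      refine (card_le_card ?_).trans (np_fibre N W s hW)
      intro n hn
      rw [mem_filter, mem_filter] at hn
      exact mem_filter.2 ⟨hn.1.1, hn.2⟩
  have h2 : (((Icc 1 N).filter (fun n => n % W ∈ S)).card : ℝ) ≤
      S.card * (((N / W : ℕ) : ℝ) + 1) := by exact_mod_cast h1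
  refine h2.trans ?_
  refine mul_le_mul_of_nonneg_left ?_ (Nat.cast_nonneg _)
  have := @Nat.cast_div_le ℝ _ _ _ N W
  linarith

private theorem np_dvd {p v n : ℕ} (hp : p.Prime) (hpv : p ≤ v) (b : ℤ) :
    (p : ℤ) ∣ (((n % primorial v : ℕ) : ℤ) - b) ↔ (p : ℤ) ∣ ((n : ℤ) - b) := by
  have h1 : (p : ℤ) ∣ ((n : ℤ) - ((n % primorial v : ℕ) : ℤ)) := by
    have h2 : (p : ℤ) ∣ (primorial v : ℤ) := by
      exact_mod_cast (hp.dvd_primorial_iff).2 hpv
    refine h2.trans ?_
    rw [Int.natCast_mod]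
    exact Int.dvd_self_sub_emod
  constructor
  · intro h
    have := dvd_add h1 h
    have e : (n : ℤ) - ((n % primorial v : ℕ) : ℤ) + (((n % primorial v : ℕ) : ℤ) - b) =
      (n : ℤ) - b := by ring
    rwa [e] at this
  · intro h
    have := dvd_sub h h1
    have e : (n : ℤ) - b - ((n : ℤ) - ((n % primorial v : ℕ) : ℤ)) =
      ((n % primorial v : ℕ) : ℤ) - b := by ring
    rwa [e] at this

private theorem np_cop {p v n b : ℕ} (hp : p.Prime) (hpv : p ≤ v) (hb : b < n)
    (h : Nat.Coprime (n - b) (primorial v)) : ¬ (p : ℤ) ∣ ((n : ℤ) - (b : ℤ)) := by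
  intro hd
  have h1 : p ∣ n - b := by
    have : ((n - b : ℕ) : ℤ) = (n : ℤ) - (b : ℤ) := by
      push_cast [hb.le]
      ring
    rw [← this] at hd
    exact_mod_cast hd
  have h2 : p ∣ primorial v := (hp.dvd_primorial_iff).2 hpv
  exact hp.one_lt.ne' (Nat.dvd_one.1 (h ▸ Nat.dvd_gcd h1 h2))

/-- `classCount`; every class modulo `W = primorial v` contains at most `N / W + 1` numbers up to
`N`; `nu v k = W / φ(W)` when `k` is prime to `W` and `0` otherwise. -/
theorem nuPair (w v : ℕ) (hwv : w ≤ v) : ∃ C : ℝ, 0 < C ∧ ∀ (z : ZMod (primorial w)) (b b' N : ℕ),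
    ∑ n ∈ (Icc 1 N).filter (fun n : ℕ => (n : ZMod (primorial w)) = z ∧ b < n ∧ b' < n),
      nu v (n - b) * nu v (n - b') ≤
        (N : ℝ) * ((primorial w : ℝ) / ((primorial w).totient : ℝ) ^ 2) * JJ w v b b' + C := by
  have hWpos : (0 : ℝ) < primorial v := by exact_mod_cast primorial_pos v
  have hφpos : (0 : ℝ) < (primorial v).totient := by
    exact_mod_cast Nat.totient_pos.2 (primorial_pos v)
  have hmpos : (0 : ℝ) < primorial w := by exact_mod_cast primorial_pos w
  have hφm : (0 : ℝ) < (primorial w).totient := by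
    exact_mod_cast Nat.totient_pos.2 (primorial_pos w)
  set ρ : ℝ := (primorial v : ℝ) / (primorial v).totient with hρ
  have hρ0 : 0 < ρ := div_pos hWpos hφpos
  refine ⟨ρ ^ 2 * primorial v, by positivity, fun z b b' N => ?_⟩
  set S : Finset ℕ := npS w v z b b' with hS
  have hcc := classCount w v hwv z b b'
  have hScard : (S.card : ℝ) ≤ (((primorial v).totient : ℝ) / (primorial w).totient) ^ 2 *
        ((primorial w : ℝ) / primorial v) * JJ w v b b' := by
    have e1 : (S.card : ℝ) ≤ (((primorial v).totient : ℝ) / (primorial w).totient) ^ 2 *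
        ((primorial w : ℝ) / primorial v) *
        ∏ p ∈ (Ioc w v).filter (fun p : ℕ => p.Prime ∧ (p : ℤ) ∣ ((b : ℤ) - (b' : ℤ))),
          ((p : ℝ) / ((p : ℝ) - 1)) := hcc
    refine e1.trans (le_of_eq ?_)
    congr 1
    unfold JJ
    refine Finset.prod_congr ?_ fun _ _ => rfl
    refine Finset.filter_congr fun p _ => ?_
    rw [Nat.modEq_iff_dvd, ← Int.dvd_neg (b := (b' : ℤ) - (b : ℤ)), neg_sub]
  have hSW : (S.card : ℝ) ≤ primorial v := by
    have h1 : S.card ≤ primorial v := by
      have h2 : S ⊆ range (primorial v) := by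
        intro n hn
        rw [hS, np_mem] at hn
        exact mem_range.2 hn.1
      have h3 := card_le_card h2
      rwa [card_range] at h3
    exact_mod_cast h1
  -- the sum is at most `ρ ^ 2` times the number of `n` with class in `S`
  have hstep : ∑ n ∈ (Icc 1 N).filter
      (fun n : ℕ => (n : ZMod (primorial w)) = z ∧ b < n ∧ b' < n),
      nu v (n - b) * nu v (n - b') ≤
      ρ ^ 2 * (((Icc 1 N).filter (fun n => n % primorial v ∈ S)).card : ℝ) := by
    have h1 : ∀ n ∈ (Icc 1 N).filter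
        (fun n : ℕ => (n : ZMod (primorial w)) = z ∧ b < n ∧ b' < n),
        nu v (n - b) * nu v (n - b') ≤ if n % primorial v ∈ S then ρ ^ 2 else 0 := by
      intro n hn
      rw [mem_filter] at hn
      obtain ⟨-, hz, hb, hb'⟩ := hn
      by_cases hc : Nat.Coprime (n - b) (primorial v) ∧ Nat.Coprime (n - b') (primorial v)
      · have hmem : n % primorial v ∈ S := by
          rw [hS, np_mem]
          refine ⟨Nat.mod_lt _ (primorial_pos v), ?_, fun p hp hwp hpv => ?_⟩
          · rw [← hz, ZMod.natCast_eq_natCast_iff]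
            exact (Nat.mod_modEq n (primorial v)).of_dvd (primorial_dvd_primorial hwv)
          · rw [np_dvd hp hpv, np_dvd hp hpv]
            exact ⟨np_cop hp hpv hb hc.1, np_cop hp hpv hb' hc.2⟩
        rw [if_pos hmem, pow_two]
        exact mul_le_mul (nu_le v _) (nu_le v _) (nu_nonneg v _) hρ0.le
      · have h0 : nu v (n - b) * nu v (n - b') = 0 := by
          rw [not_and_or] at hc
          unfold nu
          rcases hc with hc | hc
          · rw [if_neg hc, zero_mul]
          · rw [if_neg hc, mul_zero]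
        rw [h0]
        split_ifs
        · positivity
        · exact le_rfl
    refine (Finset.sum_le_sum h1).trans ?_
    have h2 : ∑ n ∈ (Icc 1 N).filter
        (fun n : ℕ => (n : ZMod (primorial w)) = z ∧ b < n ∧ b' < n),
        (if n % primorial v ∈ S then ρ ^ 2 else 0) ≤
        ∑ n ∈ Icc 1 N, (if n % primorial v ∈ S then ρ ^ 2 else 0) := by
      refine Finset.sum_le_sum_of_subset_of_nonneg (filter_subset _ _) fun n _ _ => ?_
      split_ifs
      · positivity
      · exact le_rfl
    refine h2.trans (le_of_eq ?_)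
    rw [← sum_filter, sum_const, nsmul_eq_mul, mul_comm]
  refine hstep.trans ?_
  have h3 := np_count N (primorial v) (primorial_pos v) S
  have h4 : ρ ^ 2 * (((Icc 1 N).filter (fun n => n % primorial v ∈ S)).card : ℝ) ≤
      ρ ^ 2 * (S.card * ((N : ℝ) / primorial v)) + ρ ^ 2 * S.card := by
    have := mul_le_mul_of_nonneg_left h3 (sq_nonneg ρ)
    linarith
  refine h4.trans ?_
  have h5 : ρ ^ 2 * (S.card : ℝ) ≤ ρ ^ 2 * primorial v :=
    mul_le_mul_of_nonneg_left hSW (sq_nonneg ρ)
  have h6 : ρ ^ 2 * ((S.card : ℝ) * ((N : ℝ) / primorial v)) ≤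
      (N : ℝ) * ((primorial w : ℝ) / ((primorial w).totient : ℝ) ^ 2) * JJ w v b b' := by
    have h7 : ρ ^ 2 * ((S.card : ℝ) * ((N : ℝ) / primorial v)) ≤
        ρ ^ 2 * (((((primorial v).totient : ℝ) / (primorial w).totient) ^ 2 *
        ((primorial w : ℝ) / primorial v) * JJ w v b b') * ((N : ℝ) / primorial v)) := by
      refine mul_le_mul_of_nonneg_left ?_ (sq_nonneg ρ)
      exact mul_le_mul_of_nonneg_right hScard (by positivity)
    refine h7.trans (le_of_eq ?_)
    rw [hρ]
    field_simp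
  linarith

end Pool.Agent.Lib.MP_629a14_nt.Sm
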