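import Pool.Agent.Lib.MP_629a14_nt.Sm.RowSum

/-! Sum of `JJ` over the pairs of a dense set of primes in a residue class. -/

set_option autoImplicit false

namespace Pool.Agent.Lib.MP_629a14_nt.Sm

open Finset Pool.Agent.Lib.MP_629a14_nt Pool.Agent.Lib.MP_629a14_nt.Rob

private theorem ps_JJ_nonneg (w v b b' : ℕ) : 0 ≤ JJ w v b b' := by
  refine Finset.prod_nonneg fun p hp => ?_
  have h2 : 2 ≤ p := (Finset.mem_filter.1 hp).2.1.two_le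
  have h2r : (2 : ℝ) ≤ p := by exact_mod_cast h2
  exact div_nonneg (by linarith) (by linarith)

/-- `k` with `(6/η) ≤ (1 + ε)^k`, `w₀ = 2 k + 2`. By `row_sum` and the hypothesis
`∑_{b,b'} JJ^k ≤ (6/η) (card S)^2`; power mean
`(∑_{b,b'} JJ)^k ≤ (card S ^ 2)^(k-1) ∑_{b,b'} JJ^k`. -/
theorem pairSum (ε η : ℝ) (hε : 0 < ε) (hη : 0 < η) (hη1 : η ≤ 1) : ∃ w₀ : ℕ, ∀ w v : ℕ,
    w₀ ≤ w → w ≤ v → ∀ δ : ℝ, 0 < δ → δ ≤ 1 → ∃ N₀ : ℕ, ∀ N : ℕ, N₀ ≤ N →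
      ∀ y : ZMod (primorial w), ∀ S : Finset ℕ,
      (∀ b ∈ S, b.Prime ∧ v < b ∧ (b : ℝ) ≤ δ * N ∧ (b : ZMod (primorial w)) = y) →
      η * (δ * N) ≤ ((primorial w).totient : ℝ) * Real.log N * S.card →
      ∑ b ∈ S, ∑ b' ∈ S, JJ w v b b' ≤ (1 + ε) * (S.card : ℝ) ^ 2 := by
  obtain ⟨k₀, hk₀⟩ := pow_unbounded_of_one_lt (6 / η) (by linarith : (1 : ℝ) < 1 + ε)
  have hk : 6 / η ≤ (1 + ε) ^ (k₀ + 1) :=
    hk₀.le.trans (pow_le_pow_right₀ (by linarith) (Nat.le_succ k₀))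
  refine ⟨2 * (k₀ + 1) + 2, fun w v hw hwv δ hδ hδ1 => ?_⟩
  obtain ⟨N₀, hN₀⟩ := row_sum (k₀ + 1) w v (by omega) hw hwv δ hδ hδ1
  refine ⟨max N₀ 2, fun N hN y S hS hcard => ?_⟩
  have hN2 : 2 ≤ N := (le_max_right _ _).trans hN
  have hN2r : (2 : ℝ) ≤ N := by exact_mod_cast hN2
  have hrow := hN₀ N ((le_max_left _ _).trans hN) y S hS
  have hlog : 0 < Real.log N := Real.log_pos (by linarith)
  have hphi : 0 < ((primorial w).totient : ℝ) := by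
    exact_mod_cast Nat.totient_pos.2 (primorial_pos w)
  have hP : 0 < ((primorial w).totient : ℝ) * Real.log N := mul_pos hphi hlog
  rcases S.eq_empty_or_nonempty with rfl | hne
  · simp
  have hc : 0 < (S.card : ℝ) := by exact_mod_cast hne.card_pos
  have h1 : ∀ b ∈ S, ∑ b' ∈ S, JJ w v b b' ^ (k₀ + 1) ≤ 6 / η * S.card := by
    intro b hb
    have h2 := hrow b hb
    have h3 : 6 * (δ * N) ≤ ((primorial w).totient : ℝ) * Real.log N * (6 / η * S.card) := by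
      have h4 := mul_le_mul_of_nonneg_left hcard (by positivity : (0 : ℝ) ≤ 6 / η)
      have h5 : 6 / η * (η * (δ * N)) = 6 * (δ * N) := by
        field_simp
      rw [h5] at h4
      calc 6 * (δ * N) ≤ 6 / η * (((primorial w).totient : ℝ) * Real.log N * S.card) := h4
        _ = ((primorial w).totient : ℝ) * Real.log N * (6 / η * S.card) := by ring
    exact le_of_mul_le_mul_left (h2.trans h3) hP
  have h2 : ∑ q ∈ S ×ˢ S, JJ w v q.1 q.2 ^ (k₀ + 1) ≤ 6 / η * (S.card : ℝ) ^ 2 := by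
    rw [Finset.sum_product]
    calc ∑ b ∈ S, ∑ b' ∈ S, JJ w v b b' ^ (k₀ + 1) ≤ ∑ _b ∈ S, 6 / η * (S.card : ℝ) :=
          Finset.sum_le_sum h1
      _ = 6 / η * (S.card : ℝ) ^ 2 := by
          rw [Finset.sum_const, nsmul_eq_mul]
          ring
  have h3 := pow_sum_le_card_mul_sum_pow (s := S ×ˢ S) (f := fun q => JJ w v q.1 q.2)
    (fun q _ => ps_JJ_nonneg w v q.1 q.2) k₀
  have hcard2 : ((S ×ˢ S).card : ℝ) = (S.card : ℝ) ^ 2 := by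
    rw [Finset.card_product]
    push_cast
    ring
  rw [hcard2] at h3
  have h4 : (∑ q ∈ S ×ˢ S, JJ w v q.1 q.2) ^ (k₀ + 1) ≤
      ((1 + ε) * (S.card : ℝ) ^ 2) ^ (k₀ + 1) := by
    calc (∑ q ∈ S ×ˢ S, JJ w v q.1 q.2) ^ (k₀ + 1)
        ≤ ((S.card : ℝ) ^ 2) ^ k₀ * ∑ q ∈ S ×ˢ S, JJ w v q.1 q.2 ^ (k₀ + 1) := h3
      _ ≤ ((S.card : ℝ) ^ 2) ^ k₀ * (6 / η * (S.card : ℝ) ^ 2) :=
          mul_le_mul_of_nonneg_left h2 (by positivity)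
      _ = 6 / η * ((S.card : ℝ) ^ 2) ^ (k₀ + 1) := by ring
      _ ≤ (1 + ε) ^ (k₀ + 1) * ((S.card : ℝ) ^ 2) ^ (k₀ + 1) :=
          mul_le_mul_of_nonneg_right hk (by positivity)
      _ = ((1 + ε) * (S.card : ℝ) ^ 2) ^ (k₀ + 1) := by rw [mul_pow]
  have h5 : ∑ q ∈ S ×ˢ S, JJ w v q.1 q.2 ≤ (1 + ε) * (S.card : ℝ) ^ 2 :=
    le_of_pow_le_pow_left₀ (Nat.succ_ne_zero k₀) (by positivity) h4
  rwa [Finset.sum_product] at h5

end Pool.Agent.Lib.MP_629a14_nt.Sm
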