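import Pool.Agent.Lib.MP_629a14_nt.Sm.NuAP
import Pool.Agent.Lib.MP_629a14_nt.Sm.NuPair
import Pool.Agent.Lib.MP_629a14_nt.Sm.PairSum

/-! `FS` is close to its mean. -/

set_option autoImplicit false

namespace Pool.Agent.Lib.MP_629a14_nt.Sm

open Finset Pool.Agent.Lib.MP_629a14_nt Pool.Agent.Lib.MP_629a14_nt.Rob

private theorem fbVar_cardClass (m N : ℕ) [NeZero m] (z : ZMod m) :
    (((Icc 1 N).filter (fun n : ℕ => (n : ZMod m) = z)).card : ℝ) ≤ (N : ℝ) / m + 1 := by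
  have hm : 0 < m := Nat.pos_of_ne_zero (NeZero.ne m)
  have h1 : (Icc 1 N).filter (fun n : ℕ => (n : ZMod m) = z) =
      (Ioc 0 N).filter (fun n : ℕ => n ≡ z.val [MOD m]) := by
    ext n
    simp only [mem_filter, mem_Icc, mem_Ioc]
    have h2 : (n : ZMod m) = z ↔ n ≡ z.val [MOD m] := by
      rw [← ZMod.natCast_eq_natCast_iff, ZMod.natCast_zmod_val]
    rw [h2]
    constructor
    · rintro ⟨⟨h3, h4⟩, h5⟩
      exact ⟨⟨by omega, h4⟩, h5⟩
    · rintro ⟨⟨h3, h4⟩, h5⟩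
      exact ⟨⟨by omega, h4⟩, h5⟩
  rw [h1]
  have h3 := Nat.Ioc_filter_modEq_card 0 N hm z.val
  have h4 : ((((Ioc 0 N).filter (fun n : ℕ => n ≡ z.val [MOD m])).card : ℤ) : ℚ) ≤
      (N : ℚ) / m + 1 := by
    rw [h3]
    push_cast
    have hm' : (0 : ℚ) < m := by exact_mod_cast hm
    apply max_le
    · have h5 := Int.floor_le (((N : ℚ) - (z.val : ℚ)) / m)
      have h6 := Int.lt_floor_add_one (((0 : ℚ) - (z.val : ℚ)) / m)
      have h7 : ((N : ℚ) - (z.val : ℚ)) / m - ((0 : ℚ) - (z.val : ℚ)) / m = (N : ℚ) / m := by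
        field_simp
        ring
      simp only [Nat.cast_zero] at *
      linarith
    · positivity
  have h8 : ((((Ioc 0 N).filter (fun n : ℕ => n ≡ z.val [MOD m])).card : ℚ) : ℝ) ≤
      (((N : ℚ) / m + 1 : ℚ) : ℝ) := by
    exact_mod_cast h4
  push_cast at h8
  exact h8

/-- First moment. -/
private theorem fbVar_first (w v : ℕ) (C₁ : ℝ) (hC₁ : ∀ x : ZMod (primorial w), IsUnit x →
    ∀ K : ℕ, |∑ k ∈ (Icc 1 K).filter (fun k : ℕ => (k : ZMod (primorial w)) = x), nu v k -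
      (K : ℝ) / (primorial w).totient| ≤ C₁) (δ : ℝ) (hδ1 : δ ≤ 1) (N : ℕ)
    (hL : 0 ≤ Real.log N)
    (x y : ZMod (primorial w)) (hx : IsUnit x) (S : Finset ℕ)
    (hS : ∀ b ∈ S, (b : ℝ) ≤ δ * N ∧ (b : ZMod (primorial w)) = y) :
    Real.log N * S.card * ((N : ℝ) * (1 - δ) / (primorial w).totient - C₁) ≤
      ∑ n ∈ (Icc 1 N).filter (fun n : ℕ => (n : ZMod (primorial w)) = x + y), FS v N S n := by
  have hφ : (0 : ℝ) < ((primorial w).totient : ℝ) := by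
    exact_mod_cast Nat.totient_pos.mpr (primorial_pos w)
  have h1 : ∑ n ∈ (Icc 1 N).filter (fun n : ℕ => (n : ZMod (primorial w)) = x + y), FS v N S n =
      ∑ b ∈ S, Real.log N * ∑ n ∈ ((Icc 1 N).filter
        (fun n : ℕ => (n : ZMod (primorial w)) = x + y)).filter (fun n => b < n), nu v (n - b) := by
    have e1 : ∀ n : ℕ, FS v N S n = ∑ b ∈ S, if b < n then Real.log N * nu v (n - b) else 0 := by
      intro n
      unfold FS
      rw [sum_filter]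
    simp only [e1]
    rw [sum_comm]
    refine sum_congr rfl fun b _ => ?_
    rw [← sum_filter, mul_sum]
  rw [h1]
  have h2 : ∀ b ∈ S, Real.log N * ((N : ℝ) * (1 - δ) / (primorial w).totient - C₁) ≤
      Real.log N * ∑ n ∈ ((Icc 1 N).filter
        (fun n : ℕ => (n : ZMod (primorial w)) = x + y)).filter (fun n => b < n), nu v (n - b) := by
    intro b hb
    obtain ⟨hb1, hb2⟩ := hS b hb
    apply mul_le_mul_of_nonneg_left _ hL
    have hbN : b ≤ N := by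
      have : (b : ℝ) ≤ N := by
        refine hb1.trans ?_
        have : (0 : ℝ) ≤ N := by positivity
        nlinarith
      exact_mod_cast this
    have h3 : ∑ n ∈ ((Icc 1 N).filter
        (fun n : ℕ => (n : ZMod (primorial w)) = x + y)).filter (fun n => b < n), nu v (n - b) =
        ∑ k ∈ (Icc 1 (N - b)).filter (fun k : ℕ => (k : ZMod (primorial w)) = x), nu v k := by
      symm
      refine sum_nbij' (fun k => k + b) (fun n => n - b) ?_ ?_ ?_ ?_ ?_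
      · intro k hk
        simp only [mem_filter, mem_Icc] at hk ⊢
        refine ⟨⟨⟨by omega, by omega⟩, ?_⟩, by omega⟩
        push_cast
        rw [hk.2, hb2]
      · intro n hn
        simp only [mem_filter, mem_Icc] at hn ⊢
        refine ⟨⟨by omega, by omega⟩, ?_⟩
        rw [Nat.cast_sub hn.2.le, hn.1.2, hb2]
        ring
      · intro k hk
        simp
      · intro n hn
        simp only [mem_filter, mem_Icc] at hn
        have := hn.2
        show n - b + b = n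
        omega
      · intro k hk
        simp
    rw [h3]
    have h4 := (abs_le.mp (hC₁ x hx (N - b))).1
    have h5 : (N : ℝ) * (1 - δ) / (primorial w).totient ≤
        ((N - b : ℕ) : ℝ) / (primorial w).totient := by
      apply div_le_div_of_nonneg_right _ hφ.le
      rw [Nat.cast_sub hbN]
      linarith
    linarith
  calc Real.log N * S.card * ((N : ℝ) * (1 - δ) / (primorial w).totient - C₁)
      = ∑ b ∈ S, Real.log N * ((N : ℝ) * (1 - δ) / (primorial w).totient - C₁) := by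
        rw [sum_const, nsmul_eq_mul]
        ring
    _ ≤ _ := sum_le_sum h2

/-- Second moment. -/
private theorem fbVar_second (w v : ℕ) (C₂ ε : ℝ)
    (hC₂ : ∀ (z : ZMod (primorial w)) (b b' N : ℕ),
    ∑ n ∈ (Icc 1 N).filter (fun n : ℕ => (n : ZMod (primorial w)) = z ∧ b < n ∧ b' < n),
      nu v (n - b) * nu v (n - b') ≤
        (N : ℝ) * ((primorial w : ℝ) / ((primorial w).totient : ℝ) ^ 2) * JJ w v b b' + C₂)
    (N : ℕ) (z : ZMod (primorial w)) (S : Finset ℕ)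
    (hS : ∑ b ∈ S, ∑ b' ∈ S, JJ w v b b' ≤ (1 + ε) * (S.card : ℝ) ^ 2) :
    ∑ n ∈ (Icc 1 N).filter (fun n : ℕ => (n : ZMod (primorial w)) = z), FS v N S n ^ 2 ≤
      Real.log N ^ 2 * ((N : ℝ) * ((primorial w : ℝ) / ((primorial w).totient : ℝ) ^ 2) *
        ((1 + ε) * (S.card : ℝ) ^ 2) + C₂ * (S.card : ℝ) ^ 2) := by
  have h1 : ∀ n : ℕ, FS v N S n ^ 2 = Real.log N ^ 2 * ∑ b ∈ S, ∑ b' ∈ S,
      if b < n ∧ b' < n then nu v (n - b) * nu v (n - b') else 0 := by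
    intro n
    unfold FS
    rw [← mul_sum, mul_pow, sum_filter, pow_two (∑ b ∈ S, _), sum_mul_sum]
    congr 1
    refine sum_congr rfl fun b hb => sum_congr rfl fun b' hb' => ?_
    by_cases h1 : b < n <;> by_cases h2 : b' < n <;> simp [h1, h2]
  have h2 : ∑ n ∈ (Icc 1 N).filter (fun n : ℕ => (n : ZMod (primorial w)) = z), FS v N S n ^ 2 =
      Real.log N ^ 2 * ∑ b ∈ S, ∑ b' ∈ S, ∑ n ∈ (Icc 1 N).filter
        (fun n : ℕ => (n : ZMod (primorial w)) = z ∧ b < n ∧ b' < n),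
        nu v (n - b) * nu v (n - b') := by
    simp only [h1]
    rw [← mul_sum, sum_comm]
    congr 1
    refine sum_congr rfl fun b hb => ?_
    rw [sum_comm]
    refine sum_congr rfl fun b' hb' => ?_
    rw [← sum_filter, filter_filter]
  rw [h2]
  apply mul_le_mul_of_nonneg_left _ (sq_nonneg _)
  calc ∑ b ∈ S, ∑ b' ∈ S, ∑ n ∈ (Icc 1 N).filter
        (fun n : ℕ => (n : ZMod (primorial w)) = z ∧ b < n ∧ b' < n),
        nu v (n - b) * nu v (n - b')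
      ≤ ∑ b ∈ S, ∑ b' ∈ S, ((N : ℝ) * ((primorial w : ℝ) / ((primorial w).totient : ℝ) ^ 2) *
          JJ w v b b' + C₂) :=
        sum_le_sum fun b _ => sum_le_sum fun b' _ => hC₂ z b b' N
    _ = (N : ℝ) * ((primorial w : ℝ) / ((primorial w).totient : ℝ) ^ 2) *
          (∑ b ∈ S, ∑ b' ∈ S, JJ w v b b') + C₂ * (S.card : ℝ) ^ 2 := by
        simp only [sum_add_distrib, ← mul_sum, sum_const, nsmul_eq_mul]
        ring
    _ ≤ _ := by
        have : 0 ≤ (N : ℝ) * ((primorial w : ℝ) / ((primorial w).totient : ℝ) ^ 2) := by positivity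
        have := mul_le_mul_of_nonneg_left hS this
        linarith

/-- Write `m = primorial w`, `φ = φ(m)`, `F = FS v N S`, `X = card S`, `Fb = Fbar w N S = log N (m/φ) X ≥
log N X`. First moment (`n = b + k`, `nuAP`, `C₁`): `∑ F ≥ log N ∑_b ((N - b)/φ - C₁) ≥
Fb (N/m) (1 - δ) - log N X C₁`. Second moment (`nuPair`, `C₂`, `pairSum ε`):
`∑ F² ≤ log² N (N m/φ² ∑∑ JJ + C₂ X²) ≤ Fb² (N/m) (1 + ε) + C₂ Fb²`. The number of `n` is at most
`N/m + 1`. So `∑ (F - Fb)² ≤ Fb² (N/m) (1 + ε - 2 (1 - δ) + 1) + (C₂ + 2 C₁ + 1) Fb² ≤ 4 ε Fb² (N/m)`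
for `N` large (`δ ≤ ε`). Cauchy-Schwarz: `∑ |F - Fb| ≤ sqrt ((N/m + 1) 4 ε Fb² (N/m)) ≤ 3 sqrt ε Fb N/m`. -/
theorem fbVar (ε η : ℝ) (hε : 0 < ε) (hε1 : ε ≤ 1) (hη : 0 < η) (hη1 : η ≤ 1) : ∃ w₀ : ℕ,
    ∀ w v : ℕ, w₀ ≤ w → w ≤ v → ∀ δ : ℝ, 0 < δ → δ ≤ ε → ∃ N₀ : ℕ, ∀ N : ℕ, N₀ ≤ N →
      ∀ x y : ZMod (primorial w), IsUnit x → ∀ S : Finset ℕ,
      (∀ b ∈ S, b.Prime ∧ v < b ∧ (b : ℝ) ≤ δ * N ∧ (b : ZMod (primorial w)) = y) →
      η * (δ * N) ≤ ((primorial w).totient : ℝ) * Real.log N * S.card →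
      ∑ n ∈ (Icc 1 N).filter (fun n : ℕ => (n : ZMod (primorial w)) = x + y),
        |FS v N S n - Fbar w N S| ≤ 3 * Real.sqrt ε * Fbar w N S * ((N : ℝ) / primorial w) := by
  obtain ⟨w₀, hw₀⟩ := pairSum ε η hε hη hη1
  refine ⟨w₀, fun w v hw hwv δ hδ hδε => ?_⟩
  obtain ⟨N₁, hN₁⟩ := hw₀ w v hw hwv δ hδ (hδε.trans hε1)
  obtain ⟨C₁, hC₁0, hC₁⟩ := nuAP w v hwv
  obtain ⟨C₂, hC₂0, hC₂⟩ := nuPair w v hwv
  have hm : (0 : ℝ) < (primorial w : ℝ) := by exact_mod_cast primorial_pos w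
  have hm1 : (1 : ℝ) ≤ (primorial w : ℝ) := by exact_mod_cast primorial_pos w
  have hφ : (0 : ℝ) < ((primorial w).totient : ℝ) := by
    exact_mod_cast Nat.totient_pos.mpr (primorial_pos w)
  have hφm : ((primorial w).totient : ℝ) ≤ (primorial w : ℝ) := by
    exact_mod_cast Nat.totient_le _
  refine ⟨max N₁ (⌈(C₂ + 2 * C₁ + 1) * primorial w / ε⌉₊ + 1), fun N hN x y hx S hS hη' => ?_⟩
  have hN1 : N₁ ≤ N := le_trans (le_max_left _ _) hN
  have hN2 : ⌈(C₂ + 2 * C₁ + 1) * primorial w / ε⌉₊ + 1 ≤ N := le_trans (le_max_right _ _) hN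
  have hN3 : (C₂ + 2 * C₁ + 1) * primorial w / ε ≤ N := by
    have h1 := Nat.le_ceil ((C₂ + 2 * C₁ + 1) * primorial w / ε)
    have h2 : ((⌈(C₂ + 2 * C₁ + 1) * primorial w / ε⌉₊ : ℕ) : ℝ) ≤ N := by
      exact_mod_cast (by omega : ⌈(C₂ + 2 * C₁ + 1) * primorial w / ε⌉₊ ≤ N)
    linarith
  have hNpos : (0 : ℝ) < N := by
    exact_mod_cast (by omega : 0 < N)
  have hL : 0 ≤ Real.log N := Real.log_natCast_nonneg N
  have hpair := hN₁ N hN1 y S hS hη'
  have hfirst := fbVar_first w v C₁ hC₁ δ (hδε.trans hε1) N hL x y hx S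
    (fun b hb => ⟨(hS b hb).2.2.1, (hS b hb).2.2.2⟩)
  have hsecond := fbVar_second w v C₂ ε hC₂ N (x + y) S hpair
  have hcard := fbVar_cardClass (primorial w) N (x + y)
  set T := (Icc 1 N).filter (fun n : ℕ => (n : ZMod (primorial w)) = x + y) with hT
  set M : ℝ := (N : ℝ) / primorial w with hM
  have hM0 : 0 < M := div_pos hNpos hm
  have hMC : C₂ + 2 * C₁ + 1 ≤ ε * M := by
    rw [div_le_iff₀ hε] at hN3
    rw [hM, mul_div_assoc', le_div_iff₀ hm]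
    linarith
  set Fb : ℝ := Fbar w N S with hFb
  have hFb0 : 0 ≤ Fb := by
    rw [hFb]
    unfold Fbar
    positivity
  set LX : ℝ := Real.log N * S.card with hLX
  have hLX0 : 0 ≤ LX := by positivity
  have hFbLX : Fb = LX * ((primorial w : ℝ) / (primorial w).totient) := by
    rw [hFb, hLX]
    unfold Fbar
    ring
  have hLXle : LX ≤ Fb := by
    rw [hFbLX]
    have : 1 ≤ (primorial w : ℝ) / (primorial w).totient := by
      rw [le_div_iff₀ hφ]
      linarith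
    nlinarith
  have h1 : Fb * M * (1 - δ) - Fb * C₁ ≤ ∑ n ∈ T, FS v N S n := by
    refine le_trans ?_ hfirst
    have e1 : Fb * M * (1 - δ) = LX * ((N : ℝ) * (1 - δ) / (primorial w).totient) := by
      rw [hFbLX, hM]
      field_simp
    have e2 : LX * C₁ ≤ Fb * C₁ := mul_le_mul_of_nonneg_right hLXle hC₁0.le
    have e3 : LX * ((N : ℝ) * (1 - δ) / (primorial w).totient - C₁) =
      LX * ((N : ℝ) * (1 - δ) / (primorial w).totient) - LX * C₁ := by ring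
    rw [e3, e1]
    linarith
  have h2 : ∑ n ∈ T, FS v N S n ^ 2 ≤ Fb ^ 2 * M * (1 + ε) + C₂ * Fb ^ 2 := by
    refine le_trans hsecond ?_
    have e1 : Fb ^ 2 * M * (1 + ε) = Real.log N ^ 2 * ((N : ℝ) * ((primorial w : ℝ) /
        ((primorial w).totient : ℝ) ^ 2) * ((1 + ε) * (S.card : ℝ) ^ 2)) := by
      rw [hFbLX, hM, hLX]
      field_simp
    have e2 : Real.log N ^ 2 * (C₂ * (S.card : ℝ) ^ 2) ≤ C₂ * Fb ^ 2 := by
      have : LX ^ 2 ≤ Fb ^ 2 := pow_le_pow_left₀ hLX0 hLXle 2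
      have e3 : Real.log N ^ 2 * (C₂ * (S.card : ℝ) ^ 2) = C₂ * LX ^ 2 := by
        rw [hLX]; ring
      rw [e3]
      exact mul_le_mul_of_nonneg_left this hC₂0.le
    rw [mul_add, ← e1]
    linarith
  have h3 : ∑ n ∈ T, (FS v N S n - Fb) ^ 2 ≤ 4 * ε * Fb ^ 2 * M := by
    have e1 : ∑ n ∈ T, (FS v N S n - Fb) ^ 2 = ∑ n ∈ T, FS v N S n ^ 2 -
        2 * Fb * ∑ n ∈ T, FS v N S n + Fb ^ 2 * T.card := by
      have : ∀ n ∈ T, (FS v N S n - Fb) ^ 2 = FS v N S n ^ 2 - 2 * Fb * FS v N S n + Fb ^ 2 := by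
        intro n _; ring
      rw [sum_congr rfl this, sum_add_distrib, sum_sub_distrib, ← mul_sum, sum_const,
        nsmul_eq_mul]
      ring
    rw [e1]
    have e2 : 2 * Fb * (Fb * M * (1 - δ) - Fb * C₁) ≤ 2 * Fb * ∑ n ∈ T, FS v N S n :=
      mul_le_mul_of_nonneg_left h1 (by positivity)
    have e3 : Fb ^ 2 * T.card ≤ Fb ^ 2 * (M + 1) := mul_le_mul_of_nonneg_left hcard (sq_nonneg _)
    have e4 : Fb ^ 2 * (C₂ + 2 * C₁ + 1) ≤ Fb ^ 2 * (ε * M) :=
      mul_le_mul_of_nonneg_left hMC (sq_nonneg _)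
    have e5 : Fb ^ 2 * M * δ ≤ Fb ^ 2 * M * ε :=
      mul_le_mul_of_nonneg_left hδε (by positivity)
    nlinarith
  have h4 : (∑ n ∈ T, |FS v N S n - Fb|) ^ 2 ≤ (3 * Real.sqrt ε * Fb * M) ^ 2 := by
    have e1 : (∑ n ∈ T, |FS v N S n - Fb|) ^ 2 ≤ T.card * ∑ n ∈ T, |FS v N S n - Fb| ^ 2 :=
      sq_sum_le_card_mul_sum_sq
    have e2 : ∑ n ∈ T, |FS v N S n - Fb| ^ 2 = ∑ n ∈ T, (FS v N S n - Fb) ^ 2 :=
      sum_congr rfl fun n _ => sq_abs _
    rw [e2] at e1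
    have e3 : (T.card : ℝ) * ∑ n ∈ T, (FS v N S n - Fb) ^ 2 ≤ (M + 1) * (4 * ε * Fb ^ 2 * M) :=
      mul_le_mul hcard h3 (sum_nonneg fun n _ => sq_nonneg _) (by positivity)
    have e4 : (3 * Real.sqrt ε * Fb * M) ^ 2 = 9 * ε * Fb ^ 2 * M ^ 2 := by
      rw [mul_pow, mul_pow, mul_pow, Real.sq_sqrt hε.le]
      ring
    have hM1 : 1 ≤ M := by
      have e5 : ε * M ≤ 1 * M := mul_le_mul_of_nonneg_right hε1 hM0.le
      linarith
    rw [e4]
    refine e1.trans (e3.trans ?_)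
    have e6 : 0 ≤ ε * Fb ^ 2 * M := by positivity
    have e7 : (M + 1) * (4 * ε * Fb ^ 2 * M) = (ε * Fb ^ 2 * M) * (4 * (M + 1)) := by ring
    have e8 : 9 * ε * Fb ^ 2 * M ^ 2 = (ε * Fb ^ 2 * M) * (9 * M) := by ring
    rw [e7, e8]
    exact mul_le_mul_of_nonneg_left (by linarith) e6
  have h5 : 0 ≤ 3 * Real.sqrt ε * Fb * M := by positivity
  exact le_trans (le_abs_self _) (abs_le_of_sq_le_sq h4 h5)


end Pool.Agent.Lib.MP_629a14_nt.Sm
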