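import Pool.Agent.Lib.MP_629a14_nt.Sm.TClaim
import Pool.Agent.Lib.MP_629a14_nt.Sm.Dens
import Pool.Agent.Lib.MP_629a14_nt.Sm.Cnt

/-! The theorem for finite `N`, first form. -/

set_option autoImplicit false

namespace Pool.Agent.Lib.MP_629a14_nt.Sm

open Finset Pool.Agent.Lib.MP_629a14_nt Pool.Agent.Lib.MP_629a14_nt.Rob

private theorem fo_two_dvd (w : ℕ) (hw : 2 ≤ w) : 2 ∣ primorial w := by
  unfold primorial
  refine dvd_prod_of_mem (fun p => p) (mem_filter.2 ⟨mem_range.2 (by omega), Nat.prime_two⟩)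

private theorem fo_even (w : ℕ) (hw : 2 ≤ w) (x y : ZMod (primorial w)) (hx : IsUnit x)
    (hy : IsUnit y) (n : ℕ) (h : (n : ZMod (primorial w)) = x + y) : Even n := by
  have h2 := fo_two_dvd w hw
  have hu : ∀ z : ZMod 2, IsUnit z → z = 1 := by decide
  have h3 : (n : ZMod 2) = 0 := by
    have h4 := congrArg (ZMod.castHom h2 (ZMod 2)) h
    rw [map_natCast, map_add, hu _ (hx.map _), hu _ (hy.map _)] at h4
    rw [h4]
    decide
  rw [even_iff_two_dvd]
  exact (ZMod.natCast_eq_zero_iff n 2).1 h3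

private theorem fo_UM (m : ℕ) [NeZero m] : (UM m).card ≤ m.totient := by
  classical
  have h1 : UM m ⊆ Finset.image (fun u : (ZMod m)ˣ => (u : ZMod m)) Finset.univ := by
    intro x hx
    have hx' : IsUnit x := by
      unfold UM at hx
      exact (mem_filter.1 hx).2
    exact mem_image.2 ⟨hx'.unit, mem_univ _, rfl⟩
  refine (card_le_card h1).trans (card_image_le.trans ?_)
  rw [card_univ, ZMod.card_units_eq_totient]

private theorem fo_cntB_le (A : Set ℕ) (x : ℕ) : cntB A x ≤ cntB Set.univ x := by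
  classical
  unfold cntB
  refine card_le_card fun p hp => ?_
  simp only [mem_filter] at hp ⊢
  exact ⟨hp.1, hp.2.1, Set.mem_univ _⟩

private noncomputable def foT (A : Set ℕ) (x : ℕ) : Finset ℕ := by
  classical exact (Icc 1 x).filter (fun p => p.Prime ∧ p ∈ A)

private theorem mem_foT (A : Set ℕ) (x p : ℕ) :
    p ∈ foT A x ↔ (1 ≤ p ∧ p ≤ x) ∧ p.Prime ∧ p ∈ A := by
  unfold foT
  simp only [mem_filter, mem_Icc]

private theorem foT_card (A : Set ℕ) (x : ℕ) : cntB A x = (foT A x).card := rfl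

private theorem fo_split (A : Set ℕ) (J N : ℕ) (h : J ≤ N) :
    cntB A N + cntB Set.univ J ≤ cntB A J + cntB Set.univ N := by
  have key : ∀ A : Set ℕ, foT A J ⊆ foT A N := by
    intro A p hp
    rw [mem_foT] at hp ⊢
    exact ⟨⟨hp.1.1, hp.1.2.trans h⟩, hp.2⟩
  have h1 := card_sdiff_add_card_eq_card (key A)
  have h2 := card_sdiff_add_card_eq_card (key Set.univ)
  have h3 : foT A N \ foT A J ⊆ foT Set.univ N \ foT Set.univ J := by
    intro p hp
    rw [mem_sdiff, mem_foT, mem_foT] at hp ⊢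
    exact ⟨⟨hp.1.1, hp.1.2.1, Set.mem_univ _⟩, fun h4 => hp.2 ⟨h4.1, hp.1.2.1, hp.1.2.2⟩⟩
  have h4 := card_le_card h3
  rw [foT_card, foT_card, foT_card, foT_card]
  omega

private theorem fo_log (c : ℝ) (hc : 0 < c) (w : ℕ) : ∃ N₀ : ℕ, ∀ N : ℕ, N₀ ≤ N →
    (w : ℝ) * Real.log N ≤ c * N := by
  have h1 := Real.isLittleO_log_id_atTop.def (c := c / (w + 1)) (by positivity)
  have h2 := (tendsto_natCast_atTop_atTop (R := ℝ)).eventually h1
  obtain ⟨N₀, h3⟩ := Filter.eventually_atTop.1 h2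
  refine ⟨N₀, fun N hN => ?_⟩
  have h4 := h3 N hN
  simp only [id, Real.norm_eq_abs, Nat.abs_cast] at h4
  have h5 : Real.log N ≤ c / (w + 1) * N := (le_abs_self _).trans h4
  have h6 : (w : ℝ) * Real.log N ≤ w * (c / (w + 1) * N) :=
    mul_le_mul_of_nonneg_left h5 (Nat.cast_nonneg _)
  refine h6.trans ?_
  have h7 : (w : ℝ) * (c / (w + 1)) ≤ c := by
    rw [mul_div_assoc', div_le_iff₀ (by positivity)]
    nlinarith
  calc (w : ℝ) * (c / (w + 1) * N) = (w * (c / (w + 1))) * N := by ring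
    _ ≤ c * N := mul_le_mul_of_nonneg_right h7 (Nat.cast_nonneg _)

private theorem fo_ratio (A : Set ℕ) (N : ℕ) :
    0 ≤ (cntB A N : ℝ) / cntB Set.univ N ∧ (cntB A N : ℝ) / cntB Set.univ N ≤ 1 ∧
      (cntB A N : ℝ) = (cntB A N : ℝ) / cntB Set.univ N * cntB Set.univ N := by
  have h1 := fo_cntB_le A N
  refine ⟨by positivity, div_le_one_of_le₀ (by exact_mod_cast h1) (Nat.cast_nonneg _), ?_⟩
  rcases Nat.eq_zero_or_pos (cntB Set.univ N) with h2 | h2
  · rw [h2] at h1 ⊢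
    have h3 : cntB A N = 0 := by omega
    rw [h3]
    simp
  · have : (cntB Set.univ N : ℝ) ≠ 0 := by exact_mod_cast h2.ne'
    field_simp

/-- the mean of `α` -/
private theorem fo_A (w : ℕ) (ε₁ : ℝ) (hε : 0 < ε₁) (δ : ℝ) (hδ : 0 < δ) (hδ1 : δ < 1)
    (hδε : δ ≤ ε₁) : ∃ N₀ : ℕ, ∀ N : ℕ, N₀ ≤ N → ∀ A : Set ℕ,
      (cntB A N : ℝ) / cntB Set.univ N - 4 * ε₁ ≤
        (∑ x ∈ UM (primorial w), max (((primorial w).totient : ℝ) * Real.log N *
          cntC (primorial w) A x (N - ⌊δ * N⌋₊) / N - ε₁) 0) / (primorial w).totient := by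
  obtain ⟨N₁, h1⟩ := cnt_univ (ε₁ / 4) (by positivity)
  obtain ⟨N₂, h2⟩ := fo_log (ε₁ / 4) (by positivity) w
  refine ⟨max 1 (max N₁ N₂), fun N hN A => ?_⟩
  have hN0 : 1 ≤ N := (le_max_left _ _).trans hN
  have hN1 : N₁ ≤ N := (le_max_left _ _).trans ((le_max_right _ _).trans hN)
  have hN2 : N₂ ≤ N := (le_max_right _ _).trans ((le_max_right _ _).trans hN)
  have hNr : (0 : ℝ) < N := by exact_mod_cast hN0
  have hφ : (0 : ℝ) < (primorial w).totient := by
    exact_mod_cast Nat.totient_pos.2 (primorial_pos w)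
  set φ : ℝ := ((primorial w).totient : ℝ) with hφd
  set K : ℕ := ⌊δ * N⌋₊ with hK
  have hKr : (K : ℝ) ≤ δ * N := Nat.floor_le (by positivity)
  have hKN : K ≤ N := by
    have : (K : ℝ) ≤ N := hKr.trans (by nlinarith)
    exact_mod_cast this
  have hJN : N - K ≤ N := Nat.sub_le _ _
  have hJr : ((N - K : ℕ) : ℝ) = N - K := Nat.cast_sub hKN
  have hlog : 0 ≤ Real.log N := Real.log_natCast_nonneg N
  obtain ⟨ha0, ha1, hae⟩ := fo_ratio A N
  generalize (cntB A N : ℝ) / cntB Set.univ N = a at ha0 ha1 hae ⊢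
  have e1 := abs_le.1 (h1 N hN1 N le_rfl)
  have e2 := abs_le.1 (h1 N hN1 (N - K) hJN)
  rw [hJr] at e2
  have e3 : (cntB A N : ℝ) + cntB Set.univ (N - K) ≤ cntB A (N - K) + cntB Set.univ N := by
    exact_mod_cast fo_split A (N - K) N hJN
  have e4 := mul_le_mul_of_nonneg_left e3 hlog
  have e5 : Real.log N * cntB A N = a * (Real.log N * cntB Set.univ N) := by
    rw [hae]
    ring
  have e6 : a * (N - ε₁ / 4 * N) ≤ a * (Real.log N * cntB Set.univ N) :=
    mul_le_mul_of_nonneg_left (by linarith [e1.1]) ha0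
  have e7 : a * (ε₁ / 4 * N) ≤ ε₁ / 4 * N := by
    have : 0 ≤ ε₁ / 4 * N := by positivity
    nlinarith
  have e8 := h2 N hN2
  have e9 : δ * N ≤ ε₁ * N := mul_le_mul_of_nonneg_right hδε hNr.le
  -- main bound
  have e10 : (a - 3 * ε₁ + ε₁) * N ≤ Real.log N * (cntB A (N - K) - w) := by
    nlinarith [e1.2, e2.1]
  have e11 := mul_le_mul_of_nonneg_left (cntC_sum w A (N - K)) hlog
  have e12 : ∑ x ∈ UM (primorial w), (φ * Real.log N * cntC (primorial w) A x (N - K) / N - ε₁) ≤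
      ∑ x ∈ UM (primorial w), max (φ * Real.log N * cntC (primorial w) A x (N - K) / N - ε₁) 0 :=
    sum_le_sum fun x _ => le_max_left _ _
  have e13 : ∑ x ∈ UM (primorial w), (φ * Real.log N * cntC (primorial w) A x (N - K) / N - ε₁) =
      φ / N * (Real.log N * ∑ x ∈ UM (primorial w), (cntC (primorial w) A x (N - K) : ℝ)) -
        (UM (primorial w)).card * ε₁ := by
    rw [sum_sub_distrib, sum_const, nsmul_eq_mul, mul_sum, mul_sum]
    congr 1
    refine sum_congr rfl fun x _ => ?_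
    ring
  have e14 : ((UM (primorial w)).card : ℝ) * ε₁ ≤ φ * ε₁ := by
    refine mul_le_mul_of_nonneg_right ?_ hε.le
    rw [hφd]
    exact_mod_cast fo_UM (primorial w)
  have e15 : φ / N * ((a - 3 * ε₁ + ε₁) * N) ≤
      φ / N * (Real.log N * ∑ x ∈ UM (primorial w), (cntC (primorial w) A x (N - K) : ℝ)) :=
    mul_le_mul_of_nonneg_left (e10.trans e11) (by positivity)
  have e16 : φ / N * ((a - 3 * ε₁ + ε₁) * N) = φ * (a - 2 * ε₁) := by
    field_simp
    ring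
  rw [le_div_iff₀ hφ]
  nlinarith

/-- the mean of `β` -/
private theorem fo_B (w : ℕ) (η : ℝ) (hη : 0 < η) (δ : ℝ) (hδ : 0 < δ) (hδ1 : δ < 1) :
    ∃ N₀ : ℕ, ∀ N : ℕ, N₀ ≤ N → ∀ B : Set ℕ,
      (cntB B ⌊δ * N⌋₊ : ℝ) / cntB Set.univ ⌊δ * N⌋₊ - 6 * η ≤
        (∑ y ∈ UM (primorial w), if 2 * η ≤ ((primorial w).totient : ℝ) * Real.log N *
          cntC (primorial w) B y ⌊δ * N⌋₊ / (δ * N) then
            min 1 (((primorial w).totient : ℝ) * Real.log N *
              cntC (primorial w) B y ⌊δ * N⌋₊ / (δ * N)) else 0) / (primorial w).totient := by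
  have hφ : (0 : ℝ) < (primorial w).totient := by
    exact_mod_cast Nat.totient_pos.2 (primorial_pos w)
  set φ : ℝ := ((primorial w).totient : ℝ) with hφd
  obtain ⟨N₁, h1⟩ := cnt_univ (η * δ) (by positivity)
  obtain ⟨N₂, h2⟩ := fo_log (η * δ) (by positivity) w
  obtain ⟨N₃, h3⟩ := cntC_le w (η * δ / φ) (by positivity)
  refine ⟨max (max 1 ⌈1 / (η * δ)⌉₊) (max N₁ (max N₂ N₃)), fun N hN B => ?_⟩
  have hN0 : 1 ≤ N := (le_max_left _ _).trans ((le_max_left _ _).trans hN)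
  have hNc : 1 / (η * δ) ≤ N := (Nat.le_ceil _).trans (by
    exact_mod_cast (le_max_right _ _).trans ((le_max_left _ _).trans hN))
  have hN1 : N₁ ≤ N := (le_max_left _ _).trans ((le_max_right _ _).trans hN)
  have hN2 : N₂ ≤ N := (le_max_left _ _).trans ((le_max_right _ _).trans ((le_max_right _ _).trans hN))
  have hN3 : N₃ ≤ N := (le_max_right _ _).trans ((le_max_right _ _).trans ((le_max_right _ _).trans hN))
  have hNr : (0 : ℝ) < N := by exact_mod_cast hN0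
  have hδN : 0 < δ * N := by positivity
  set K : ℕ := ⌊δ * N⌋₊ with hK
  have hKr : (K : ℝ) ≤ δ * N := Nat.floor_le (by positivity)
  have hKr' : δ * N < K + 1 := Nat.lt_floor_add_one _
  have hKN : K ≤ N := by
    have : (K : ℝ) ≤ N := hKr.trans (by nlinarith)
    exact_mod_cast this
  have hlog : 0 ≤ Real.log N := Real.log_natCast_nonneg N
  obtain ⟨ha0, ha1, hae⟩ := fo_ratio B K
  generalize (cntB B K : ℝ) / cntB Set.univ K = b at ha0 ha1 hae ⊢
  have e1 := abs_le.1 (h1 N hN1 K hKN)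
  have e8 := h2 N hN2
  have e5 : Real.log N * cntB B K = b * (Real.log N * cntB Set.univ K) := by
    rw [hae]
    ring
  have e6 : b * (K - η * δ * N) ≤ b * (Real.log N * cntB Set.univ K) :=
    mul_le_mul_of_nonneg_left (by linarith [e1.1]) ha0
  have e7 : 1 ≤ η * δ * N := by
    have := mul_le_mul_of_nonneg_left hNc (by positivity : 0 ≤ η * δ)
    rwa [mul_one_div_cancel (by positivity)] at this
  have e9 : (b - 3 * η) * (δ * N) ≤ Real.log N * (cntB B K - w) := by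
    have e10 : b * (δ * N - η * δ * N - η * δ * N) ≤ b * (K - η * δ * N) :=
      mul_le_mul_of_nonneg_left (by linarith) ha0
    have e11 : b * (2 * (η * δ * N)) ≤ 2 * (η * δ * N) := by nlinarith
    nlinarith
  have e11 := mul_le_mul_of_nonneg_left (cntC_sum w B K) hlog
  have hpt : ∀ y ∈ UM (primorial w), φ * Real.log N * cntC (primorial w) B y K / (δ * N) - 2 * η ≤
      if 2 * η ≤ φ * Real.log N * cntC (primorial w) B y K / (δ * N) then
        min 1 (φ * Real.log N * cntC (primorial w) B y K / (δ * N)) else 0 := by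
    intro y hy
    have hyu : IsUnit y := by
      classical
      unfold UM at hy
      exact (mem_filter.1 hy).2
    have h4 := h3 N hN3 K hKN B y hyu
    have h5 : φ * Real.log N * cntC (primorial w) B y K / (δ * N) ≤ 1 + η := by
      rw [div_le_iff₀ hδN]
      have h6 := mul_le_mul_of_nonneg_left h4 hφ.le
      have h7 : φ * ((K : ℝ) / φ + η * δ / φ * N) = K + η * δ * N := by
        field_simp
      have h8 : φ * ((K : ℝ) / ((primorial w).totient : ℝ) + η * δ / φ * N) =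
        φ * ((K : ℝ) / φ + η * δ / φ * N) := by rw [hφd]
      rw [h8, h7] at h6
      nlinarith
    split_ifs with h6
    · refine le_min ?_ ?_ <;> linarith
    · linarith
  have e12 := sum_le_sum hpt
  have e13 : ∑ y ∈ UM (primorial w), (φ * Real.log N * cntC (primorial w) B y K / (δ * N) - 2 * η) =
      φ / (δ * N) * (Real.log N * ∑ y ∈ UM (primorial w), (cntC (primorial w) B y K : ℝ)) -
        (UM (primorial w)).card * (2 * η) := by
    rw [sum_sub_distrib, sum_const, nsmul_eq_mul, mul_sum, mul_sum]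
    congr 1
    refine sum_congr rfl fun x _ => ?_
    ring
  have e14 : ((UM (primorial w)).card : ℝ) * (2 * η) ≤ φ * (2 * η) := by
    refine mul_le_mul_of_nonneg_right ?_ (by positivity)
    rw [hφd]
    exact_mod_cast fo_UM (primorial w)
  have e15 : φ / (δ * N) * ((b - 3 * η) * (δ * N)) ≤
      φ / (δ * N) * (Real.log N * ∑ y ∈ UM (primorial w), (cntC (primorial w) B y K : ℝ)) :=
    mul_le_mul_of_nonneg_left (e9.trans e11) (by positivity)
  have e16 : φ / (δ * N) * ((b - 3 * η) * (δ * N)) = φ * (b - 3 * η) := by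
    field_simp
  rw [le_div_iff₀ hφ]
  nlinarith

/-- the final combination -/
private theorem fo_comb (F Φ σ a b ma mb ε₁ η ε X : ℝ) (hF : 0 < F) (hΦ : 0 < Φ) (hσ0 : 0 ≤ σ)
    (hσ1 : σ ≤ 1) (ha1 : a ≤ 1) (ha0 : 0 ≤ a) (hb0 : 0 ≤ b) (hma : a - 4 * ε₁ ≤ ma)
    (hmb : b - 6 * η ≤ mb) (hmb0 : 0 ≤ mb) (hmb1 : mb ≤ 1) (hε1 : 0 < ε₁) (hη : 0 < η)
    (hX : F * ma * (Φ * mb) ^ σ ≤ X) (h1 : F * (4 * ε₁) * Φ ^ σ ≤ ε / 2)
    (h2 : F * (6 * Φ * η) ^ σ ≤ ε / 2) : F * a * (Φ * b) ^ σ - ε ≤ X := by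
  have e1 : (Φ * b) ^ σ ≤ (Φ * mb) ^ σ + (6 * Φ * η) ^ σ := by
    refine (Real.rpow_le_rpow (by positivity) ?_ hσ0).trans
      (Real.rpow_add_le_add_rpow (by positivity) (by positivity) hσ0 hσ1)
    nlinarith
  have e2 : F * a * (Φ * b) ^ σ ≤ F * a * ((Φ * mb) ^ σ + (6 * Φ * η) ^ σ) :=
    mul_le_mul_of_nonneg_left e1 (by positivity)
  have e3 : F * a * (6 * Φ * η) ^ σ ≤ F * (6 * Φ * η) ^ σ := by
    refine mul_le_mul_of_nonneg_right ?_ (Real.rpow_nonneg (by positivity) _)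
    nlinarith
  have e4 : F * a * (Φ * mb) ^ σ ≤ F * (ma + 4 * ε₁) * (Φ * mb) ^ σ := by
    refine mul_le_mul_of_nonneg_right ?_ (Real.rpow_nonneg (by positivity) _)
    exact mul_le_mul_of_nonneg_left (by linarith) hF.le
  have e5 : (Φ * mb) ^ σ ≤ Φ ^ σ := Real.rpow_le_rpow (by positivity) (by nlinarith) hσ0
  have e6 : F * (4 * ε₁) * (Φ * mb) ^ σ ≤ F * (4 * ε₁) * Φ ^ σ :=
    mul_le_mul_of_nonneg_left e5 (by positivity)
  have e7 : F * (ma + 4 * ε₁) * (Φ * mb) ^ σ =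
      F * ma * (Φ * mb) ^ σ + F * (4 * ε₁) * (Φ * mb) ^ σ := by ring
  have e8 : F * a * ((Φ * mb) ^ σ + (6 * Φ * η) ^ σ) =
      F * a * (Φ * mb) ^ σ + F * a * (6 * Φ * η) ^ σ := by ring
  linarith

private theorem fo_sE (N : ℕ) (hN : 2 ≤ N) : 1 ≤ sE N := by
  unfold sE
  have hNr : (2 : ℝ) ≤ N := by exact_mod_cast hN
  have h0 : (0 : ℝ) < 1 / N := by positivity
  have h1 : 0 < Real.log (1 + 1 / (N : ℝ)) := Real.log_pos (by linarith)
  rw [le_div_iff₀ h1, one_mul]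
  refine Real.log_le_log (by positivity) ?_
  have h2 : 1 / (N : ℝ) ≤ 1 := by
    rw [div_le_one (by linarith)]
    linarith
  linarith

private noncomputable def foS (N : ℕ) (P : ℕ → Prop) : Finset ℕ := by
  classical exact (Icc 1 N).filter P

private theorem mem_foS (N : ℕ) (P : ℕ → Prop) (n : ℕ) : n ∈ foS N P ↔ n ∈ Icc 1 N ∧ P n := by
  unfold foS
  simp only [mem_filter]

private theorem fo_fiber (m N : ℕ) [NeZero m] (P : ℕ → Prop) :
    (∑ z : ZMod m, ((m : ℝ) / N * (foS N (fun n : ℕ => (n : ZMod m) = z ∧ P n)).card)) / m =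
      ((foS N P).card : ℝ) / N := by
  classical
  have h1 := card_eq_sum_card_fiberwise (f := fun n : ℕ => (n : ZMod m)) (s := foS N P)
    (t := univ) (fun _ _ => mem_coe.2 (mem_univ _))
  have h2 : ∀ z : ZMod m, (foS N P).filter (fun n : ℕ => (n : ZMod m) = z) =
      foS N (fun n : ℕ => (n : ZMod m) = z ∧ P n) := by
    intro z
    ext n
    rw [mem_filter, mem_foS, mem_foS]
    tauto
  rw [← mul_sum]
  have h3 : (∑ z : ZMod m, ((foS N (fun n : ℕ => (n : ZMod m) = z ∧ P n)).card : ℝ)) =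
      ((foS N P).card : ℝ) := by
    rw [h1]
    push_cast
    refine sum_congr rfl fun z _ => ?_
    rw [h2]
  rw [h3]
  have hm : (m : ℝ) ≠ 0 := by exact_mod_cast NeZero.ne m
  field_simp

open Classical in
/-- First form, with the threshold `c N / log² N`. `σ = 1/sE (q - 1) ∈ (0, 1/6]`, `M = primorial q`. Choose `ε₁, η ≤ 1/4` small with
`(φ(M)/M) φ(M)^σ (4 ε₁ + 2 (6 η)^σ) ≤ ε`; `w ≥ q` from `tclaim ε₁ η`, `m = primorial w`,
`δ = min (ε₁²/144) (1/2)`. `α x = max (φ log N cntC A x (N - ⌊δN⌋)/N - ε₁) 0`,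
`b y = φ log N cntC B y ⌊δN⌋ / (δN) ≤ 1 + η` (`cntC_le`), `β y = min 1 (b y)` if `2 η ≤ b y`, `0` otherwise (so `β y ≥ b y - 3 η`),
`γ z = (m/N) card {n ≤ N, even, n = z mod m, c N/log² N ≤ repsIn A B n}` (`x + y` for units is even).
`dens` gives `(φ(M)/M) mean α (φ(M) mean β)^σ ≤ card/N`. `mean α ≥ cntB A N/cntB univ N - 4 ε₁`,
`mean β ≥ cntB B ⌊δN⌋/cntB univ ⌊δN⌋ - 6 η` (`cntC_sum`, `cnt_univ`; the primes in `(N - ⌊δN⌋, N]` are at most
`2 δ N/log N`). `t^σ` is subadditive. -/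
theorem finOne (q : ℕ) (hq : q.Prime) (h5 : 5 ≤ q) (ε : ℝ) (hε : 0 < ε) : ∃ c : ℝ, 0 < c ∧
    ∃ δ : ℝ, 0 < δ ∧ δ < 1 ∧ ∃ N₀ : ℕ, ∀ N : ℕ, N₀ ≤ N → ∀ A B : Set ℕ,
      (((primorial q).totient : ℝ) / primorial q * ((cntB A N : ℝ) / cntB Set.univ N) *
        ((primorial q).totient * ((cntB B ⌊δ * N⌋₊ : ℝ) / cntB Set.univ ⌊δ * N⌋₊)) ^
          (1 / sE (q - 1)) - ε) * N ≤
        (((Icc 1 N).filter (fun n : ℕ => Even n ∧
          c * ((N : ℝ) / Real.log N ^ 2) ≤ (repsIn A B n : ℝ))).card : ℝ) := by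
  have hs := fo_sE (q - 1) (by omega)
  obtain ⟨σ, hσd⟩ : ∃ σ, σ = 1 / sE (q - 1) := ⟨_, rfl⟩
  have hσ0 : 0 < σ := by rw [hσd]; positivity
  have hσ1 : σ ≤ 1 := by
    rw [hσd, div_le_one (by linarith)]
    exact hs
  obtain ⟨Φ, hΦd⟩ : ∃ Φ : ℝ, Φ = ((primorial q).totient : ℝ) := ⟨_, rfl⟩
  have hΦ : 0 < Φ := by
    rw [hΦd]
    exact_mod_cast Nat.totient_pos.2 (primorial_pos q)
  obtain ⟨F, hFd⟩ : ∃ F : ℝ, F = ((primorial q).totient : ℝ) / primorial q := ⟨_, rfl⟩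
  have hF : 0 < F := by
    rw [hFd, ← hΦd]
    have : (0 : ℝ) < primorial q := by exact_mod_cast primorial_pos q
    positivity
  have hΦσ : 0 < Φ ^ σ := Real.rpow_pos_of_pos hΦ _
  -- the parameters
  obtain ⟨ε₁, hε1, hε1', hε1''⟩ : ∃ ε₁ : ℝ, 0 < ε₁ ∧ ε₁ ≤ 1 ∧ F * (4 * ε₁) * Φ ^ σ ≤ ε / 2 := by
    refine ⟨min 1 (ε / (8 * F * Φ ^ σ)), lt_min one_pos (by positivity), min_le_left _ _, ?_⟩
    have h1 : min 1 (ε / (8 * F * Φ ^ σ)) ≤ ε / (8 * F * Φ ^ σ) := min_le_right _ _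
    calc F * (4 * min 1 (ε / (8 * F * Φ ^ σ))) * Φ ^ σ
        = (4 * F * Φ ^ σ) * min 1 (ε / (8 * F * Φ ^ σ)) := by ring
      _ ≤ (4 * F * Φ ^ σ) * (ε / (8 * F * Φ ^ σ)) := mul_le_mul_of_nonneg_left h1 (by positivity)
      _ = ε / 2 := by
          field_simp
          norm_num
  obtain ⟨η, hη, hη1, hη2⟩ : ∃ η : ℝ, 0 < η ∧ η ≤ 1 ∧ F * (6 * Φ * η) ^ σ ≤ ε / 2 := by
    have h0 : 0 < (ε / (2 * F)) ^ (1 / σ) := Real.rpow_pos_of_pos (by positivity) _
    refine ⟨min 1 ((ε / (2 * F)) ^ (1 / σ) / (6 * Φ)), lt_min one_pos (by positivity),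
      min_le_left _ _, ?_⟩
    have h1 : 6 * Φ * min 1 ((ε / (2 * F)) ^ (1 / σ) / (6 * Φ)) ≤ (ε / (2 * F)) ^ (1 / σ) := by
      calc 6 * Φ * min 1 ((ε / (2 * F)) ^ (1 / σ) / (6 * Φ))
          ≤ 6 * Φ * ((ε / (2 * F)) ^ (1 / σ) / (6 * Φ)) :=
            mul_le_mul_of_nonneg_left (min_le_right _ _) (by positivity)
        _ = (ε / (2 * F)) ^ (1 / σ) := by field_simp
    have h2 : (6 * Φ * min 1 ((ε / (2 * F)) ^ (1 / σ) / (6 * Φ))) ^ σ ≤ ε / (2 * F) := by
      refine (Real.rpow_le_rpow (mul_nonneg (by positivity)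
        (le_min zero_le_one (by positivity))) h1 hσ0.le).trans (le_of_eq ?_)
      rw [← Real.rpow_mul (by positivity), one_div_mul_cancel hσ0.ne', Real.rpow_one]
    calc F * (6 * Φ * min 1 ((ε / (2 * F)) ^ (1 / σ) / (6 * Φ))) ^ σ ≤ F * (ε / (2 * F)) :=
          mul_le_mul_of_nonneg_left h2 hF.le
      _ = ε / 2 := by field_simp
  obtain ⟨w₀, hw₀⟩ := tclaim ε₁ η hε1 hε1' hη hη1
  obtain ⟨w, hww, hw2⟩ : ∃ w, w₀ ≤ w ∧ 2 ≤ w := ⟨max w₀ 2, le_max_left _ _, le_max_right _ _⟩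
  obtain ⟨δ, hδ, hδ1, hδ2, hδ3⟩ : ∃ δ : ℝ, 0 < δ ∧ δ < 1 ∧ δ ≤ ε₁ ^ 2 / 144 ∧ δ ≤ ε₁ := by
    refine ⟨min (ε₁ ^ 2 / 144) (1 / 2), lt_min (by positivity) (by norm_num),
      lt_of_le_of_lt (min_le_right _ _) (by norm_num), min_le_left _ _,
      (min_le_left _ _).trans ?_⟩
    nlinarith
  obtain ⟨c, hc, N₁, hN₁⟩ := hw₀ w hww δ hδ hδ2
  obtain ⟨N₂, hN₂⟩ := fo_A w ε₁ hε1 δ hδ hδ1 hδ3
  obtain ⟨N₃, hN₃⟩ := fo_B w η hη δ hδ hδ1
  refine ⟨c, hc, δ, hδ, hδ1, max 1 (max N₁ (max N₂ N₃)), fun N hN A B => ?_⟩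
  have hNN : 1 ≤ N := (le_max_left _ _).trans hN
  have hNN1 : N₁ ≤ N := (le_max_left _ _).trans ((le_max_right _ _).trans hN)
  have hNN2 : N₂ ≤ N :=
    (le_max_left _ _).trans ((le_max_right _ _).trans ((le_max_right _ _).trans hN))
  have hNN3 : N₃ ≤ N :=
    (le_max_right _ _).trans ((le_max_right _ _).trans ((le_max_right _ _).trans hN))
  have hNr : (0 : ℝ) < N := by exact_mod_cast hNN
  have hma := hN₂ N hNN2 A
  have hmb := hN₃ N hNN3 B
  have hT := hN₁ N hNN1 A B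
  have hm0 : (0 : ℝ) < primorial w := by exact_mod_cast primorial_pos w
  have hφ : (0 : ℝ) < (primorial w).totient := by
    exact_mod_cast Nat.totient_pos.2 (primorial_pos w)
  obtain ⟨α, hα⟩ : ∃ α : ZMod (primorial w) → ℝ, α = fun x =>
    max (((primorial w).totient : ℝ) * Real.log N *
          cntC (primorial w) A x (N - ⌊δ * N⌋₊) / N - ε₁) 0 := ⟨_, rfl⟩
  obtain ⟨β, hβ⟩ : ∃ β : ZMod (primorial w) → ℝ, β = fun y =>
    if 2 * η ≤ ((primorial w).totient : ℝ) * Real.log N *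
          cntC (primorial w) B y ⌊δ * N⌋₊ / (δ * N) then
            min 1 (((primorial w).totient : ℝ) * Real.log N *
              cntC (primorial w) B y ⌊δ * N⌋₊ / (δ * N)) else 0 := ⟨_, rfl⟩
  obtain ⟨P, hP⟩ : ∃ P : ℕ → Prop, P = fun n => (Even n ∧
    c * ((N : ℝ) / Real.log N ^ 2) ≤ (repsIn A B n : ℝ)) := ⟨_, rfl⟩
  obtain ⟨γ, hγ⟩ : ∃ γ : ZMod (primorial w) → ℝ, γ = fun z =>
    ((primorial w : ℝ) / N * (foS N (fun n : ℕ => (n : ZMod (primorial w)) = z ∧ P n)).card) :=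
    ⟨_, rfl⟩
  have hβ0 : ∀ y, 0 ≤ β y := by
    intro y
    rw [hβ]
    simp only
    split_ifs with h1
    · exact le_min zero_le_one (by linarith)
    · exact le_rfl
  have hβ1 : ∀ y, β y ≤ 1 := by
    intro y
    rw [hβ]
    simp only
    split_ifs with h1
    · exact min_le_left _ _
    · exact zero_le_one
  have hγ0 : ∀ z, 0 ≤ γ z := by
    intro z
    rw [hγ]
    simp only
    positivity
  have hmain := dens q hq h5 (primorial w) (squarefree_primorial w) α β γ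
    (fun x => by rw [hα]; exact le_max_right _ _) hβ0 hβ1 hγ0 (by
      intro x y hx hy hpos
      have h1 : 2 * η ≤ ((primorial w).totient : ℝ) * Real.log N *
          cntC (primorial w) B y ⌊δ * N⌋₊ / (δ * N) := by
        by_contra hcon
        rw [hβ] at hpos
        simp only [hcon, if_false, lt_irrefl] at hpos
      rw [le_div_iff₀ (by positivity)] at h1
      have h2 := hT x y hx hy h1
      have h3 : (((Icc 1 N).filter (fun n : ℕ => (n : ZMod (primorial w)) = x + y ∧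
          c * ((N : ℝ) / Real.log N ^ 2) ≤ (repsIn A B n : ℝ))).card : ℝ) ≤
          ((foS N (fun n : ℕ => (n : ZMod (primorial w)) = x + y ∧ P n)).card : ℝ) := by
        have h4 : ((Icc 1 N).filter (fun n : ℕ => (n : ZMod (primorial w)) = x + y ∧
          c * ((N : ℝ) / Real.log N ^ 2) ≤ (repsIn A B n : ℝ))) ⊆
          foS N (fun n : ℕ => (n : ZMod (primorial w)) = x + y ∧ P n) := by
          intro n hn
          rw [mem_filter] at hn
          rw [mem_foS, hP]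
          exact ⟨hn.1, hn.2.1, fo_even w hw2 x y hx hy n hn.2.1, hn.2.2⟩
        exact_mod_cast card_le_card h4
      rw [hα]
      refine max_le ?_ (hγ0 _)
      rw [hγ]
      simp only
      have h5 := h2.trans h3
      rw [mul_div_assoc', div_le_iff₀ hm0] at h5
      rw [div_mul_eq_mul_div, le_div_iff₀ hNr]
      linarith)
  rw [← hFd, ← hΦd, ← hσd] at hmain ⊢
  have hX : (∑ z, γ z) / (primorial w : ℝ) = ((foS N P).card : ℝ) / N := by
    rw [hγ]
    exact fo_fiber (primorial w) N P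
  have hcard : ((Icc 1 N).filter (fun n : ℕ => Even n ∧
          c * ((N : ℝ) / Real.log N ^ 2) ≤ (repsIn A B n : ℝ))) = foS N P := by
    ext n
    rw [mem_foS, mem_filter, hP]
  rw [hX] at hmain
  have hmb0 : 0 ≤ (∑ y ∈ UM (primorial w), β y) / ((primorial w).totient : ℝ) :=
    div_nonneg (sum_nonneg fun y _ => hβ0 y) hφ.le
  have hmb1 : (∑ y ∈ UM (primorial w), β y) / ((primorial w).totient : ℝ) ≤ 1 := by
    rw [div_le_one hφ]
    have h1 : ∑ y ∈ UM (primorial w), β y ≤ ∑ y ∈ UM (primorial w), (1 : ℝ) :=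
      sum_le_sum fun y _ => hβ1 y
    rw [sum_const, nsmul_eq_mul, mul_one] at h1
    have h2 : ((UM (primorial w)).card : ℝ) ≤ (primorial w).totient := by
      exact_mod_cast fo_UM (primorial w)
    exact h1.trans h2
  have hA := fo_ratio A N
  have hB := fo_ratio B ⌊δ * N⌋₊
  have hma' : (cntB A N : ℝ) / cntB Set.univ N - 4 * ε₁ ≤
      (∑ x ∈ UM (primorial w), α x) / ((primorial w).totient : ℝ) := by
    rw [hα]
    exact hma
  have hmb' : (cntB B ⌊δ * N⌋₊ : ℝ) / cntB Set.univ ⌊δ * N⌋₊ - 6 * η ≤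
      (∑ y ∈ UM (primorial w), β y) / ((primorial w).totient : ℝ) := by
    rw [hβ]
    exact hmb
  have hfin := fo_comb F Φ σ _ _ _ _ ε₁ η ε _ hF hΦ hσ0.le hσ1 hA.2.1 hA.1 hB.1 hma' hmb'
    hmb0 hmb1 hε1 hη hmain hε1'' hη2
  have h6 := mul_le_mul_of_nonneg_right hfin hNr.le
  rw [div_mul_cancel₀ _ hNr.ne'] at h6
  rw [hcard]
  exact h6

end Pool.Agent.Lib.MP_629a14_nt.Sm
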