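import Pool.Agent.Lib.MP_629a14_nt.Sm.FinOne
import Pool.Agent.Lib.MP_629a14_nt.Sm.PhiBad

/-! The theorem for finite `N`. -/

set_option autoImplicit false

namespace Pool.Agent.Lib.MP_629a14_nt.Sm

open Finset Pool.Agent.Lib.MP_629a14_nt Pool.Agent.Lib.MP_629a14_nt.Rob

/-- the pointwise comparison of the two thresholds -/
private theorem finTwo_pt (c₁ K : ℝ) (hc : 0 < c₁) (hK : 1 ≤ K) (N n : ℕ) (hn1 : 1 ≤ n)
    (hnN : n ≤ N) (hs : Real.sqrt N ≤ n) (hN : 2 ≤ N) (hK' : (n : ℝ) / n.totient ≤ K) :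
    c₁ / (4 * K) * ((n : ℝ) ^ 2 / ((n.totient : ℝ) * Real.log n ^ 2)) ≤
      c₁ * ((N : ℝ) / Real.log N ^ 2) := by
  have hNr : (2 : ℝ) ≤ N := by exact_mod_cast hN
  have hlogN : 0 < Real.log N := Real.log_pos (by linarith)
  have hn0 : (0 : ℝ) < n := by exact_mod_cast hn1
  have hφ : (0 : ℝ) < n.totient := by exact_mod_cast Nat.totient_pos.2 hn1
  have hlog : Real.log N / 2 ≤ Real.log n := by
    have h1 : Real.log (Real.sqrt N) ≤ Real.log n :=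
      Real.log_le_log (Real.sqrt_pos.2 (by linarith)) hs
    rwa [Real.log_sqrt (by linarith)] at h1
  have hlogn : 0 < Real.log n := by linarith
  have h2 : (Real.log N / 2) ^ 2 ≤ Real.log n ^ 2 := pow_le_pow_left₀ (by linarith) hlog 2
  have h3 : (n : ℝ) ^ 2 / ((n.totient : ℝ) * Real.log n ^ 2) =
      (n : ℝ) / n.totient * (n / Real.log n ^ 2) := by
    field_simp
  have h4 : (n : ℝ) / Real.log n ^ 2 ≤ N / (Real.log N / 2) ^ 2 :=
    div_le_div₀ (by positivity) (by exact_mod_cast hnN) (by positivity) h2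
  have h5 : (n : ℝ) / n.totient * (n / Real.log n ^ 2) ≤ K * (N / (Real.log N / 2) ^ 2) :=
    mul_le_mul hK' h4 (by positivity) (by linarith)
  rw [h3]
  calc c₁ / (4 * K) * ((n : ℝ) / n.totient * (n / Real.log n ^ 2))
      ≤ c₁ / (4 * K) * (K * (N / (Real.log N / 2) ^ 2)) :=
        mul_le_mul_of_nonneg_left h5 (by positivity)
    _ = c₁ * ((N : ℝ) / Real.log N ^ 2) := by
        field_simp
        norm_num

open Classical in
/-- From `finOne (ε/2)` with the constant `c₁`, `phiBad (ε/4)` with `K`, `c = c₁/(4 K)`: for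
`n ≥ sqrt N` with `n/φ(n) ≤ K`: `n²/(φ(n) log² n) ≤ K n/(log N/2)² ≤ 4 K N/log² N`; the
`n < sqrt N` are at most `(ε/4) N`. -/
theorem finTwo (q : ℕ) (hq : q.Prime) (h5 : 5 ≤ q) (ε : ℝ) (hε : 0 < ε) : ∃ c : ℝ, 0 < c ∧
    ∃ δ : ℝ, 0 < δ ∧ δ < 1 ∧ ∃ N₀ : ℕ, ∀ N : ℕ, N₀ ≤ N → ∀ A B : Set ℕ,
      (((primorial q).totient : ℝ) / primorial q * ((cntB A N : ℝ) / cntB Set.univ N) *
        ((primorial q).totient * ((cntB B ⌊δ * N⌋₊ : ℝ) / cntB Set.univ ⌊δ * N⌋₊)) ^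
          (1 / sE (q - 1)) - ε) * N ≤
        (((Icc 1 N).filter (fun n : ℕ => Even n ∧
          c * ((n : ℝ) ^ 2 / ((n.totient : ℝ) * Real.log n ^ 2)) ≤ (repsIn A B n : ℝ))).card : ℝ) := by
  obtain ⟨c₁, hc₁, δ, hδ, hδ1, N₁, hN₁⟩ := finOne q hq h5 (ε / 2) (half_pos hε)
  obtain ⟨K, hK1, hK⟩ := phiBad (ε / 4) (by positivity)
  refine ⟨c₁ / (4 * K), by positivity, δ, hδ, hδ1, max N₁ (max 2 ⌈16 / ε ^ 2⌉₊), fun N hN A B => ?_⟩
  have hNN1 : N₁ ≤ N := le_trans (le_max_left _ _) hN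
  have hN2 : 2 ≤ N := le_trans (le_trans (le_max_left _ _) (le_max_right _ _)) hN
  have hN3 : 16 / ε ^ 2 ≤ (N : ℝ) :=
    (Nat.le_ceil _).trans (by
      exact_mod_cast le_trans (le_trans (le_max_right _ _) (le_max_right _ _)) hN)
  have hNr : (2 : ℝ) ≤ N := by exact_mod_cast hN2
  have h1 := hN₁ N hNN1 A B
  have h2 := hK N
  have hsqrt : Real.sqrt N ≤ ε / 4 * N := by
    have hs0 := Real.sqrt_nonneg (N : ℝ)
    have hs1 : Real.sqrt N * Real.sqrt N = N := Real.mul_self_sqrt (by linarith)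
    have hs2 : 4 / ε ≤ Real.sqrt N := by
      apply Real.le_sqrt_of_sq_le
      have e : (4 / ε) ^ 2 = 16 / ε ^ 2 := by
        rw [div_pow]
        norm_num
      rw [e]
      exact hN3
    have hs3 : 1 ≤ ε / 4 * Real.sqrt N := by
      have := mul_le_mul_of_nonneg_left hs2 (by positivity : 0 ≤ ε / 4)
      have e : ε / 4 * (4 / ε) = 1 := by field_simp
      linarith
    calc Real.sqrt N = 1 * Real.sqrt N := (one_mul _).symm
      _ ≤ (ε / 4 * Real.sqrt N) * Real.sqrt N := mul_le_mul_of_nonneg_right hs3 hs0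
      _ = ε / 4 * N := by rw [mul_assoc, hs1]
  have hsub : ((Icc 1 N).filter (fun n : ℕ => Even n ∧
      c₁ * ((N : ℝ) / Real.log N ^ 2) ≤ (repsIn A B n : ℝ))) ⊆
      ((Icc 1 N).filter (fun n : ℕ => Even n ∧
        c₁ / (4 * K) * ((n : ℝ) ^ 2 / ((n.totient : ℝ) * Real.log n ^ 2)) ≤ (repsIn A B n : ℝ))) ∪
      (((Icc 1 N).filter (fun n : ℕ => K < (n : ℝ) / n.totient)) ∪ Icc 1 ⌊Real.sqrt N⌋₊) := by
    intro n hn
    obtain ⟨hn1, hn2, hn3⟩ := mem_filter.1 hn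
    obtain ⟨ha, hb⟩ := mem_Icc.1 hn1
    rw [mem_union, mem_union]
    by_cases hk : K < (n : ℝ) / n.totient
    · exact Or.inr (Or.inl (mem_filter.2 ⟨hn1, hk⟩))
    · by_cases hs : (n : ℝ) < Real.sqrt N
      · exact Or.inr (Or.inr (mem_Icc.2 ⟨ha, Nat.le_floor hs.le⟩))
      · refine Or.inl (mem_filter.2 ⟨hn1, hn2, le_trans ?_ hn3⟩)
        exact finTwo_pt c₁ K hc₁ hK1 N n ha hb (not_lt.1 hs) hN2 (not_lt.1 hk)
  have hcard := (card_le_card hsub).trans ((card_union_le _ _).trans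
    (Nat.add_le_add_left (card_union_le _ _) _))
  rw [Nat.card_Icc, Nat.add_sub_cancel] at hcard
  have hcard' : (((Icc 1 N).filter (fun n : ℕ => Even n ∧
      c₁ * ((N : ℝ) / Real.log N ^ 2) ≤ (repsIn A B n : ℝ))).card : ℝ) ≤
      (((Icc 1 N).filter (fun n : ℕ => Even n ∧
        c₁ / (4 * K) * ((n : ℝ) ^ 2 / ((n.totient : ℝ) * Real.log n ^ 2)) ≤
          (repsIn A B n : ℝ))).card : ℝ) +
      ((((Icc 1 N).filter (fun n : ℕ => K < (n : ℝ) / n.totient)).card : ℝ) +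
        (⌊Real.sqrt N⌋₊ : ℝ)) := by
    exact_mod_cast hcard
  have hfl : (⌊Real.sqrt N⌋₊ : ℝ) ≤ Real.sqrt N := Nat.floor_le (Real.sqrt_nonneg _)
  rw [sub_mul] at h1 ⊢
  linarith

end Pool.Agent.Lib.MP_629a14_nt.Sm
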