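import Pool.Agent.Lib.MP_629a14_nt.Sm.Star

/-! The inequality in one variable. -/

set_option autoImplicit false

namespace Pool.Agent.Lib.MP_629a14_nt.Sm

open Finset

private lemma sum_ge_one (N : ℕ) (hN : 4 ≤ N) (r : ℝ) (hr0 : 0 ≤ r) :
    1 ≤ ∑ i ∈ range N, r ^ i := by
  have h : r ^ 0 ≤ ∑ i ∈ range N, r ^ i :=
    Finset.single_le_sum (f := fun i => r ^ i) (fun i _ => pow_nonneg hr0 i)
      (Finset.mem_range.2 (by omega))
  simpa using h

private lemma sum_ge (N : ℕ) (r : ℝ) (hr0 : 0 ≤ r) (hr1 : r ≤ 1) :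
    (N : ℝ) * r ^ N ≤ ∑ i ∈ range N, r ^ i := by
  have h : ∑ _i ∈ range N, r ^ N ≤ ∑ i ∈ range N, r ^ i :=
    Finset.sum_le_sum (fun i hi => pow_le_pow_of_le_one hr0 hr1 (Finset.mem_range.1 hi).le)
  simpa using h

private lemma sum_le_two (N : ℕ) (r : ℝ) (hr0 : 0 ≤ r) (hr : r ≤ 1 / 2) :
    ∑ i ∈ range N, r ^ i ≤ 2 := by
  have h := geom_sum_mul_neg r N
  have hp : 0 ≤ r ^ N := pow_nonneg hr0 N
  have hS : 0 ≤ ∑ i ∈ range N, r ^ i := Finset.sum_nonneg (fun i _ => pow_nonneg hr0 i)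
  nlinarith

private lemma sum_le_mul (N : ℕ) (hN : 4 ≤ N) (r : ℝ) (hr : 1 / 2 ≤ r) (hr1 : r ≤ 1) :
    ∑ i ∈ range N, r ^ i ≤ (N : ℝ) * r := by
  induction N, hN using Nat.le_induction with
  | base =>
    have h1 : 0 ≤ r ^ 2 + 2 * r - 1 := by nlinarith
    have h2 := mul_nonneg (sub_nonneg.2 hr1) h1
    simp only [Finset.sum_range_succ, Finset.sum_range_zero]
    push_cast
    nlinarith
  | succ n hn ih =>
    rw [Finset.sum_range_succ]
    push_cast
    have h : r ^ n ≤ r := by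
      calc r ^ n ≤ r ^ 1 := pow_le_pow_of_le_one (by linarith) hr1 (by omega)
        _ = r := pow_one r
    linarith

private lemma logN_ge (N : ℕ) (hN : 4 ≤ N) : 1.38 ≤ Real.log N := by
  have h4 : Real.log 4 ≤ Real.log N := by
    apply Real.log_le_log (by norm_num)
    exact_mod_cast hN
  have h2 : Real.log 4 = 2 * Real.log 2 := by
    rw [show (4 : ℝ) = 2 ^ 2 by norm_num, Real.log_pow]
    norm_num
  have h3 := Real.log_two_gt_d9
  norm_num at h3 ⊢
  linarith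

private lemma log_pos' (N : ℕ) (hN : 4 ≤ N) : 0 < Real.log (1 + 1 / (N : ℝ)) := by
  apply Real.log_pos
  have : (0 : ℝ) < N := by exact_mod_cast (by omega : 0 < N)
  have h : 0 < 1 / (N : ℝ) := by positivity
  linarith

private lemma sE_ge (N : ℕ) (hN : 4 ≤ N) : (N : ℝ) * Real.log N ≤ sE N := by
  have hNpos : (0 : ℝ) < N := by exact_mod_cast (by omega : 0 < N)
  have hl := log_pos' N hN
  have hL := logN_ge N hN
  have h1 : Real.log (1 + 1 / (N : ℝ)) ≤ 1 / (N : ℝ) := by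
    have := Real.log_le_sub_one_of_pos (show 0 < 1 + 1 / (N : ℝ) by positivity)
    linarith
  unfold sE
  rw [le_div_iff₀ hl]
  calc (N : ℝ) * Real.log N * Real.log (1 + 1 / (N : ℝ))
      ≤ (N : ℝ) * Real.log N * (1 / (N : ℝ)) := by
        apply mul_le_mul_of_nonneg_left h1
        have : 0 ≤ Real.log N := by norm_num at hL; linarith
        positivity
    _ = Real.log N := by field_simp

private lemma sE_mul (N : ℕ) (hN : 4 ≤ N) :
    sE N * Real.log (1 + 1 / (N : ℝ)) = Real.log N := by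
  unfold sE
  exact div_mul_cancel₀ _ (log_pos' N hN).ne'

/-- Step (1). -/
private lemma step_one (N : ℕ) (hN : 4 ≤ N) (th : ℝ) (h0 : 0 ≤ th) (h1 : th ≤ 1) :
    Real.exp (th * Real.log N) ≤ (1 + th * (1 / (N : ℝ))) ^ sE N := by
  have hNpos : (0 : ℝ) < N := by exact_mod_cast (by omega : 0 < N)
  have hpos : 0 < 1 + 1 / (N : ℝ) := by positivity
  have hL := logN_ge N hN
  have hs : 0 ≤ sE N := by
    have := sE_ge N hN
    have h2 : 0 ≤ (N : ℝ) * Real.log N := by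
      have : 0 ≤ Real.log N := by norm_num at hL; linarith
      positivity
    linarith
  have hm1 : (-1 : ℝ) ≤ 1 / (N : ℝ) := by
    have : 0 < 1 / (N : ℝ) := by positivity
    linarith
  have hb : (1 + 1 / (N : ℝ)) ^ th ≤ 1 + th * (1 / (N : ℝ)) :=
    rpow_one_add_le_one_add_mul_self hm1 h0 h1
  have hc : ((1 + 1 / (N : ℝ)) ^ th) ^ sE N ≤ (1 + th * (1 / (N : ℝ))) ^ sE N :=
    Real.rpow_le_rpow (Real.rpow_nonneg hpos.le _) hb hs
  have hd : ((1 + 1 / (N : ℝ)) ^ th) ^ sE N = Real.exp (th * Real.log N) := by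
    rw [← Real.rpow_mul hpos.le, Real.rpow_def_of_pos hpos, ← sE_mul N hN]
    congr 1
    ring
  rw [← hd]
  exact hc

private lemma case_small (N : ℕ) (hN : 4 ≤ N) (r th : ℝ) (hr0 : 0 < r) (hr : r ≤ 1 / 2)
    (hth : (N : ℝ) / 2 * r ^ N ≤ th) :
    1 + ((N : ℝ) - 1) * r ^ ((N : ℝ) * Real.log N) ≤ Real.exp (th * Real.log N) := by
  have hL := logN_ge N hN
  norm_num at hL
  have hN4 : (4 : ℝ) ≤ N := by exact_mod_cast hN
  set L := Real.log N with hLdef
  have hexp : th * L + 1 ≤ Real.exp (th * L) := Real.add_one_le_exp _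
  have hpow : r ^ ((N : ℝ) * L) = r ^ N * r ^ ((N : ℝ) * (L - 1)) := by
    rw [← Real.rpow_natCast r N, ← Real.rpow_add hr0]
    congr 1
    ring
  have hq : r ^ ((N : ℝ) * (L - 1)) ≤ 1 / 2 := by
    calc r ^ ((N : ℝ) * (L - 1)) ≤ r ^ (1 : ℝ) := by
          apply Real.rpow_le_rpow_of_exponent_ge hr0 (by linarith)
          nlinarith
      _ = r := Real.rpow_one r
      _ ≤ 1 / 2 := hr
  have hp : 0 < r ^ N := pow_pos hr0 N
  have h1 : r ^ ((N : ℝ) * L) ≤ r ^ N * (1 / 2) := by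
    rw [hpow]
    exact mul_le_mul_of_nonneg_left hq hp.le
  have h2 : ((N : ℝ) - 1) * r ^ ((N : ℝ) * L) ≤ ((N : ℝ) - 1) * (r ^ N * (1 / 2)) :=
    mul_le_mul_of_nonneg_left h1 (by linarith)
  have h3 : (N : ℝ) / 2 * r ^ N * L ≤ th * L := mul_le_mul_of_nonneg_right hth (by linarith)
  have h4 : ((N : ℝ) - 1) * (r ^ N * (1 / 2)) ≤ (N : ℝ) / 2 * r ^ N * L := by
    have h5 : (N : ℝ) / 2 * r ^ N * 1 ≤ (N : ℝ) / 2 * r ^ N * L :=
      mul_le_mul_of_nonneg_left (by linarith) (by positivity)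
    nlinarith
  linarith

private lemma case_large (N : ℕ) (hN : 4 ≤ N) (r th : ℝ) (hr0 : 0 < r)
    (hth : r ^ (N - 1) ≤ th) (hth1 : th ≤ 1) :
    1 + ((N : ℝ) - 1) * r ^ ((N : ℝ) * Real.log N) ≤ Real.exp (th * Real.log N) := by
  have hL := logN_ge N hN
  norm_num at hL
  have hN4 : (4 : ℝ) ≤ N := by exact_mod_cast hN
  have hNpos : (0 : ℝ) < N := by linarith
  have hexpL : Real.exp (Real.log N) = N := Real.exp_log hNpos
  have hexpL' : Real.exp (-Real.log N) = 1 / N := by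
    rw [Real.exp_neg, hexpL]
    simp
  have hp : 0 < r ^ (N - 1) := pow_pos hr0 _
  have hthpos : 0 < th := lt_of_lt_of_le hp hth
  have hLpos : 0 < Real.log N := by linarith
  have hs := star (Real.log N) (th * Real.log N) (mul_pos hthpos hLpos) (by nlinarith)
  rw [hexpL, hexpL', mul_div_assoc, div_self hLpos.ne', mul_one] at hs
  set a := Real.log N / (1 - 1 / (N : ℝ)) with ha
  have hden : 0 < 1 - 1 / (N : ℝ) := by
    have : 1 / (N : ℝ) ≤ 1 / 4 := one_div_le_one_div_of_le (by norm_num) hN4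
    linarith
  have hapos : 0 < a := div_pos hLpos hden
  have h1 : (r ^ (N - 1)) ^ a ≤ th ^ a := Real.rpow_le_rpow hp.le hth hapos.le
  have h2 : (r ^ (N - 1)) ^ a = r ^ ((N : ℝ) * Real.log N) := by
    rw [← Real.rpow_natCast r (N - 1), ← Real.rpow_mul hr0.le]
    congr 1
    rw [ha, Nat.cast_sub (by omega)]
    push_cast
    have hne : (N : ℝ) - 1 ≠ 0 := by linarith
    field_simp
  rw [h2] at h1
  have h3 : r ^ ((N : ℝ) * Real.log N) ≤ (Real.exp (th * Real.log N) - 1) / ((N : ℝ) - 1) :=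
    h1.trans hs
  rw [le_div_iff₀ (by linarith)] at h3
  linarith

/-- Write `L = log N`, `s = sE N`, `κ = kap N r`, `θ = N κ ∈ [0, 1]` (`κ ≤ 1 / N` as `r ^ N ≤ r ^ i`). (0) `log (1 + 1/N) ≤ 1/N`, so
`s ≥ N L`, and `r ^ s ≤ r ^ (N L)`. (1) Concavity of `log`: `log (1 + κ) ≥ θ log (1 + 1/N)`, so
`(1 + κ) ^ s ≥ exp (θ L)`. (2) Case `r ≤ 1/2`: `∑ i < N, r ^ i ≤ 2`, `θ ≥ (N/2) r ^ N`,
`exp (θ L) ≥ 1 + θ L ≥ 1 + (N/2) L r ^ N ≥ 1 + (N - 1) r ^ (N L)`, because
`r ^ (N (L - 1)) ≤ r ^ 1 ≤ 1/2 ≤ L/2` (`L ≥ log 4 ≥ 1.386`, `N (L - 1) ≥ 1`). (3) Case `r ≥ 1/2`: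
`∑ i < N, r ^ i ≤ N r` (the function `N r - ∑ i < N, r ^ i` is concave on `[1/2, 1]`, `≥ N/2 - 2 ≥ 0`
at `1/2` and `0` at `1`; or: `∑_{i<N} r^i - N r = (1 - r)(1 - r ∑_{i<N-1}...)`-type algebra), so
`θ ≥ r ^ (N - 1)`; `star` with `y = θ L` (`exp L = N`, `a = L/(1 - 1/N) = N L/(N - 1)`):
`exp (θ L) ≥ 1 + (N - 1) θ ^ a ≥ 1 + (N - 1) r ^ ((N - 1) a) = 1 + (N - 1) r ^ (N L)`. -/
theorem oneVar (N : ℕ) (hN : 4 ≤ N) (r : ℝ) (hr0 : 0 ≤ r) (hr1 : r ≤ 1) :
    1 + ((N : ℝ) - 1) * r ^ sE N ≤ (1 + kap N r) ^ sE N := by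
  have hN4 : (4 : ℝ) ≤ N := by exact_mod_cast hN
  have hNpos : (0 : ℝ) < N := by linarith
  have hL := logN_ge N hN
  norm_num at hL
  have hsE := sE_ge N hN
  have hspos : 0 < sE N := by
    have : 0 < (N : ℝ) * Real.log N := by
      have : 0 < Real.log N := by linarith
      positivity
    linarith
  have hS1 := sum_ge_one N hN r hr0
  have hSN := sum_ge N r hr0 hr1
  have hSpos : 0 < ∑ i ∈ range N, r ^ i := by linarith
  rcases hr0.eq_or_lt with h0 | hrpos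
  · subst h0
    rw [Real.zero_rpow hspos.ne']
    have hk : 0 ≤ kap N 0 := by
      unfold kap
      positivity
    have : (1 : ℝ) ≤ (1 + kap N 0) ^ sE N := by
      apply Real.one_le_rpow (by linarith) hspos.le
    linarith
  · obtain ⟨th, hth⟩ : ∃ th : ℝ, th = (N : ℝ) * kap N r := ⟨_, rfl⟩
    have hkd : kap N r = r ^ N / ∑ i ∈ range N, r ^ i := rfl
    have hkap : kap N r = th * (1 / (N : ℝ)) := by
      rw [hth]
      have hne : (N : ℝ) ≠ 0 := hNpos.ne'
      rw [mul_comm (N : ℝ), mul_assoc, mul_one_div_cancel hne, mul_one]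
    have hth0 : 0 ≤ th := by
      rw [hth, hkd]
      exact mul_nonneg hNpos.le (div_nonneg (pow_nonneg hr0 N) hSpos.le)
    have hth1 : th ≤ 1 := by
      rw [hth, hkd]
      rw [← mul_div_assoc, div_le_one hSpos]
      exact hSN
    have h1 := step_one N hN th hth0 hth1
    rw [← hkap] at h1
    have h2 : r ^ sE N ≤ r ^ ((N : ℝ) * Real.log N) :=
      Real.rpow_le_rpow_of_exponent_ge hrpos hr1 hsE
    have h3 : 1 + ((N : ℝ) - 1) * r ^ sE N ≤ 1 + ((N : ℝ) - 1) * r ^ ((N : ℝ) * Real.log N) := by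
      have := mul_le_mul_of_nonneg_left h2 (show 0 ≤ (N : ℝ) - 1 by linarith)
      linarith
    refine h3.trans (le_trans ?_ h1)
    rcases le_total r (1 / 2) with hr | hr
    · apply case_small N hN r th hrpos hr
      rw [hth, hkd]
      have h4 := sum_le_two N r hr0 hr
      have h5 : r ^ N / 2 ≤ r ^ N / ∑ i ∈ range N, r ^ i :=
        div_le_div_of_nonneg_left (by positivity) hSpos h4
      calc (N : ℝ) / 2 * r ^ N = (N : ℝ) * (r ^ N / 2) := by ring
        _ ≤ _ := mul_le_mul_of_nonneg_left h5 hNpos.le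
    · apply case_large N hN r th hrpos _ hth1
      rw [hth, hkd]
      have h4 := sum_le_mul N hN r hr hr1
      rw [← mul_div_assoc, le_div_iff₀ hSpos]
      calc r ^ (N - 1) * ∑ i ∈ range N, r ^ i ≤ r ^ (N - 1) * ((N : ℝ) * r) :=
            mul_le_mul_of_nonneg_left h4 (by positivity)
        _ = (N : ℝ) * r ^ N := by
            have : r ^ N = r ^ (N - 1) * r := by
              rw [← pow_succ]
              congr 1
              omega
            rw [this]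
            ring

end Pool.Agent.Lib.MP_629a14_nt.Sm
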