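import Pool.Agent.Lib.MP_629a14_nt.Sm.Cyc

/-! From the cycle to `Good` for one prime. -/

set_option autoImplicit false

namespace Pool.Agent.Lib.MP_629a14_nt.Sm

open Finset

private theorem gp_sum_le {G : Type} [DecidableEq G] (U : Finset G) (f : G → ℝ) (y₁ : G)
    (h1 : y₁ ∈ U) {M : ℝ} (hM : ∀ y ∈ U.erase y₁, f y ≤ M) :
    ∑ y ∈ U, f y ≤ f y₁ + ((U.card : ℝ) - 1) * M := by
  rw [← Finset.add_sum_erase U f h1]
  have h2 : ∑ y ∈ U.erase y₁, f y ≤ ∑ y ∈ U.erase y₁, M := Finset.sum_le_sum hM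
  rw [Finset.sum_const, Finset.card_erase_of_mem h1, nsmul_eq_mul] at h2
  have h3 : 1 ≤ U.card := Finset.card_pos.2 ⟨_, h1⟩
  rw [Nat.cast_sub h3, Nat.cast_one] at h2
  linarith

private theorem gp_card (p : ℕ) [Fact p.Prime] :
    (univ.filter (fun x : ZMod p => x ≠ 0)).card = p - 1 := by
  have h : (univ.filter (fun x : ZMod p => x ≠ 0)) = univ.erase 0 := by
    ext x; simp
  rw [h, Finset.card_erase_of_mem (Finset.mem_univ _), Finset.card_univ, ZMod.card]

/-- Let `y₁ ≠ 0` maximise `b` on the nonzero classes, `y₂` maximise `b` on the classes different from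
`0, y₁` (there is one: `p ≥ 3`), `g = b y₁`, `g' = b y₂ ≤ g`. If `g = 0` the left side is `0`
(`0 ^ s = 0`). Otherwise `r = g' / g`; `cyc` for `a' x = g * a x` on `x ≠ 0`, `a' 0 = 0`, `c' z = c (z + y₁)`,
`d = y₂ - y₁`: `c (x + y₁) ≥ a x * g`, `c (x + y₂) ≥ a x * g'`. And
`∑ b ^ s ≤ g ^ s (1 + (p - 2) r ^ s)`. -/
theorem good_prime (p : ℕ) [Fact p.Prime] (hp : 3 ≤ p) (s C : ℝ) (hs : 1 ≤ s) (hC : 0 ≤ C)
    (h : ∀ r : ℝ, 0 ≤ r → r ≤ 1 →
      C * (1 + ((p : ℝ) - 2) * r ^ s) ^ (1 / s) ≤ 1 + kap (p - 1) r) :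
    Good (ZMod p) (univ.filter (fun x => x ≠ 0)) s C := by
  intro a b c ha hb hc habc
  have hs0 : 0 < s := by linarith
  have hinv : 0 < 1 / s := by positivity
  set U : Finset (ZMod p) := univ.filter (fun x => x ≠ 0) with hU
  have hUc : U.card = p - 1 := gp_card p
  have hUne : U.Nonempty := Finset.card_pos.1 (by omega)
  obtain ⟨y₁, hy₁, hmax1⟩ := Finset.exists_max_image U b hUne
  have hU'ne : (U.erase y₁).Nonempty := by
    apply Finset.card_pos.1
    rw [Finset.card_erase_of_mem hy₁]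
    omega
  obtain ⟨y₂, hy₂, hmax2⟩ := Finset.exists_max_image (U.erase y₁) b hU'ne
  have hy₂U : y₂ ∈ U := Finset.mem_of_mem_erase hy₂
  have hne : y₂ ≠ y₁ := Finset.ne_of_mem_erase hy₂
  have hc0 : 0 ≤ ∑ z, c z := Finset.sum_nonneg fun z _ => hc z
  have hA0 : 0 ≤ ∑ x ∈ U, a x := Finset.sum_nonneg fun z _ => ha z
  rcases (hb y₁).eq_or_lt with hg | hg
  · have hz : ∑ y ∈ U, b y ^ s = 0 := by
      refine Finset.sum_eq_zero fun y hy => ?_
      have h1 : b y = 0 := le_antisymm ((hmax1 y hy).trans hg.symm.le) (hb y)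
      rw [h1, Real.zero_rpow hs0.ne']
    rw [hz, Real.zero_rpow hinv.ne', mul_zero]
    exact hc0
  · set g := b y₁ with hgdef
    set g' := b y₂ with hg'def
    have hg'0 : 0 ≤ g' := hb y₂
    have hg'g : g' ≤ g := hmax1 y₂ hy₂U
    set r := g' / g with hr
    have hr0 : 0 ≤ r := div_nonneg hg'0 hg.le
    have hr1 : r ≤ 1 := (div_le_one hg).2 hg'g
    have hrg : r * g = g' := by rw [hr]; field_simp
    -- the cycle inequality
    have key := cyc p (y₂ - y₁) (sub_ne_zero.2 hne) r hr0 hr1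
      (fun x => if x = 0 then 0 else g * a x) (fun z => c (z + y₁)) (by simp)
      (fun x => by
        by_cases hx : x = 0
        · simp [hx]
        · simp only [hx, if_false]
          exact mul_nonneg hg.le (ha x))
      (fun x => by
        by_cases hx : x = 0
        · simp only [hx, if_true]
          exact hc _
        · simp only [hx, if_false]
          have := habc x (by rw [hU]; simp [hx]) y₁ hy₁
          rw [mul_comm]
          exact this)
      (fun x => by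
        by_cases hx : x = 0
        · simp only [hx, if_true, mul_zero]
          exact hc _
        · simp only [hx, if_false]
          have := habc x (by rw [hU]; simp [hx]) y₂ hy₂U
          have e : x + (y₂ - y₁) + y₁ = x + y₂ := by ring
          rw [e, ← mul_assoc, hrg, mul_comm]
          exact this)
    have e1 : ∑ z, (if z = 0 then 0 else g * a z) = g * ∑ x ∈ U, a x := by
      rw [Finset.mul_sum, hU, Finset.sum_filter]
      refine Finset.sum_congr rfl fun z _ => ?_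
      by_cases hz : z = 0
      · simp [hz]
      · simp [hz]
    have e2 : ∑ z, c (z + y₁) = ∑ z, c z :=
      Fintype.sum_equiv (Equiv.addRight y₁) _ _ fun z => rfl
    rw [e1, e2] at key
    -- the norm of `b`
    have hB : ∑ y ∈ U, b y ^ s ≤ g ^ s * (1 + ((p : ℝ) - 2) * r ^ s) := by
      have h1 := gp_sum_le U (fun y => b y ^ s) y₁ hy₁ (M := g' ^ s) (fun y hy =>
        Real.rpow_le_rpow (hb y) (hmax2 y hy) hs0.le)
      have h2 : g ^ s * r ^ s = g' ^ s := by
        rw [← Real.mul_rpow hg.le hr0, mul_comm g r, hrg]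
      have h3 : ((U.card : ℝ) - 1) = (p : ℝ) - 2 := by
        rw [hUc, Nat.cast_sub (by omega)]
        push_cast
        ring
      rw [h3] at h1
      calc ∑ y ∈ U, b y ^ s ≤ g ^ s + ((p : ℝ) - 2) * g' ^ s := h1
        _ = g ^ s * (1 + ((p : ℝ) - 2) * r ^ s) := by rw [← h2]; ring
    have hp2 : (0 : ℝ) ≤ (p : ℝ) - 2 := by
      have : (3 : ℝ) ≤ p := by exact_mod_cast hp
      linarith
    have hin : 0 ≤ 1 + ((p : ℝ) - 2) * r ^ s := by
      have : 0 ≤ r ^ s := Real.rpow_nonneg hr0 s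
      positivity
    have hB0 : 0 ≤ ∑ y ∈ U, b y ^ s := Finset.sum_nonneg fun y _ => Real.rpow_nonneg (hb y) s
    have hB2 : (∑ y ∈ U, b y ^ s) ^ (1 / s) ≤ g * (1 + ((p : ℝ) - 2) * r ^ s) ^ (1 / s) := by
      refine (Real.rpow_le_rpow hB0 hB hinv.le).trans ?_
      rw [Real.mul_rpow (Real.rpow_nonneg hg.le s) hin, ← Real.rpow_mul hg.le,
        mul_one_div_cancel hs0.ne', Real.rpow_one]
    have hC1 := h r hr0 hr1
    calc C * (∑ x ∈ U, a x) * (∑ y ∈ U, b y ^ s) ^ (1 / s)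
        ≤ C * (∑ x ∈ U, a x) * (g * (1 + ((p : ℝ) - 2) * r ^ s) ^ (1 / s)) :=
          mul_le_mul_of_nonneg_left hB2 (mul_nonneg hC hA0)
      _ = (g * ∑ x ∈ U, a x) * (C * (1 + ((p : ℝ) - 2) * r ^ s) ^ (1 / s)) := by ring
      _ ≤ (g * ∑ x ∈ U, a x) * (1 + kap (p - 1) r) :=
          mul_le_mul_of_nonneg_left hC1 (mul_nonneg hg.le hA0)
      _ = (1 + kap (p - 1) r) * (g * ∑ x ∈ U, a x) := by ring
      _ ≤ ∑ z, c z := key

end Pool.Agent.Lib.MP_629a14_nt.Sm
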