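import Pool.Agent.Lib.MP_629a14_nt.Sm.ExpoS
import Pool.Agent.Lib.MP_629a14_nt.Sm.OneVar
import Pool.Agent.Lib.MP_629a14_nt.Sm.Prime

/-! Large primes. -/

set_option autoImplicit false

namespace Pool.Agent.Lib.MP_629a14_nt.Sm

open Finset

/-- `N = p - 1`, `s = sE (q - 1) ≤ s₀ = sE N`. Power means:
`((1 + (N - 1) r ^ s) / N) ^ (1/s) ≤ ((1 + (N - 1) r ^ s₀) / N) ^ (1/s₀)`, and
`N ^ (1/s₀) = (N + 1) / N`. So `(N + 1) / N * N ^ (-1/s) * (1 + (N - 1) r ^ s) ^ (1/s) ≤
(1 + (N - 1) r ^ s₀) ^ (1/s₀) ≤ 1 + κ` by `oneVar`; `good_prime`. -/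
theorem good_large (q p : ℕ) [Fact p.Prime] (hq : q.Prime) (h5 : 5 ≤ q) (hpq : q < p) :
    Good (ZMod p) (univ.filter (fun x => x ≠ 0)) (sE (q - 1))
      ((p : ℝ) / ((p : ℝ) - 1) ^ (1 + 1 / sE (q - 1))) := by
  have hp6 : 6 ≤ p := by omega
  have hp6r : (6 : ℝ) ≤ (p : ℝ) := by exact_mod_cast hp6
  set N : ℝ := (p : ℝ) - 1 with hN
  have hN5 : (5 : ℝ) ≤ N := by rw [hN]; linarith
  have hN0 : (0 : ℝ) < N := by linarith
  have hcast : ((p - 1 : ℕ) : ℝ) = N := by
    rw [Nat.cast_sub (by omega), Nat.cast_one]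
  set s : ℝ := sE (q - 1) with hs
  set s0 : ℝ := sE (p - 1) with hs0
  have hs6 : 6 ≤ s := sE_four.trans (sE_mono 4 (q - 1) (by norm_num) (by omega))
  have hss0 : s ≤ s0 := sE_mono (q - 1) (p - 1) (by omega) (by omega)
  have hspos : 0 < s := by linarith
  have hs0pos : 0 < s0 := by linarith
  have hpN : (p : ℝ) = N + 1 := by rw [hN]; ring
  -- the exponent `s0`
  have hexp : N ^ (1 / s0) = (p : ℝ) / N := by
    have hlogN : 0 < Real.log N := Real.log_pos (by linarith)
    have hl1 : 0 < Real.log (1 + 1 / N) := Real.log_pos (by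
      have : 0 < 1 / N := by positivity
      linarith)
    have e : s0 = Real.log N / Real.log (1 + 1 / N) := by
      rw [hs0]
      unfold sE
      rw [hcast]
    rw [Real.rpow_def_of_pos hN0, e]
    have e2 : Real.log N * (1 / (Real.log N / Real.log (1 + 1 / N))) = Real.log (1 + 1 / N) := by
      field_simp
    rw [e2, Real.exp_log (by positivity), hpN]
    field_simp
  refine good_prime p (by omega) s _ (by linarith) (by positivity) ?_
  intro r hr0 hr1
  have hN1 : 0 ≤ N - 1 := by linarith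
  have hp2 : (p : ℝ) - 2 = N - 1 := by rw [hN]; ring
  rw [hp2]
  have hrs : 0 ≤ r ^ s := Real.rpow_nonneg hr0 s
  have hrs0 : 0 ≤ r ^ s0 := Real.rpow_nonneg hr0 s0
  set av : ℝ := 1 / N * 1 + (N - 1) / N * r ^ s with hav
  set av0 : ℝ := 1 / N * 1 + (N - 1) / N * r ^ s0 with hav0
  have hav_pos : 0 ≤ av := by positivity
  have hav0_pos : 0 ≤ av0 := by positivity
  have e1 : 1 + (N - 1) * r ^ s = N * av := by
    rw [hav]
    field_simp
  have e2 : 1 + (N - 1) * r ^ s0 = N * av0 := by
    rw [hav0]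
    field_simp
  -- power means
  have hpm : av ^ (1 / s) ≤ av0 ^ (1 / s0) := by
    have h1 : av ^ (s0 / s) ≤ av0 := by
      have h2 := Real.rpow_arith_mean_le_arith_mean_rpow (univ : Finset (Fin 2))
        ![1 / N, (N - 1) / N] ![1, r ^ s]
        (by
          intro i _
          fin_cases i
          · simp only [Fin.zero_eta, Matrix.cons_val_zero]
            positivity
          · simp only [Fin.mk_one, Matrix.cons_val_one, Matrix.cons_val_fin_one]
            positivity)
        (by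
          rw [Fin.sum_univ_two]
          simp only [Matrix.cons_val_zero, Matrix.cons_val_one, Matrix.cons_val_fin_one]
          field_simp
          ring)
        (by
          intro i _
          fin_cases i
          · simp
          · simpa using hrs)
        (p := s0 / s) ((one_le_div hspos).mpr hss0)
      simp only [Fin.sum_univ_two, Matrix.cons_val_zero, Matrix.cons_val_one,
        Matrix.cons_val_fin_one] at h2
      rw [Real.one_rpow, ← Real.rpow_mul hr0] at h2
      have e3 : s * (s0 / s) = s0 := by field_simp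
      rw [e3] at h2
      exact h2
    have e4 : av ^ (1 / s) = (av ^ (s0 / s)) ^ (1 / s0) := by
      rw [← Real.rpow_mul hav_pos]
      congr 1
      field_simp
    rw [e4]
    exact Real.rpow_le_rpow (Real.rpow_nonneg hav_pos _) h1 (by positivity)
  have hone := oneVar (p - 1) (by omega) r hr0 hr1
  rw [hcast, ← hs0] at hone
  have hkap : 0 ≤ kap (p - 1) r := by
    unfold kap
    exact div_nonneg (pow_nonneg hr0 _) (sum_nonneg fun i _ => pow_nonneg hr0 i)
  have hfin : (N * av0) ^ (1 / s0) ≤ 1 + kap (p - 1) r := by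
    rw [← e2]
    have h1 : (1 + (N - 1) * r ^ s0) ^ (1 / s0) ≤ ((1 + kap (p - 1) r) ^ s0) ^ (1 / s0) :=
      Real.rpow_le_rpow (by positivity) hone (by positivity)
    rwa [← Real.rpow_mul (by positivity), mul_one_div_cancel hs0pos.ne', Real.rpow_one] at h1
  rw [e1]
  calc (p : ℝ) / N ^ (1 + 1 / s) * (N * av) ^ (1 / s)
      = (p : ℝ) / N * av ^ (1 / s) := by
        rw [Real.mul_rpow hN0.le hav_pos, Real.rpow_add hN0, Real.rpow_one]
        have hne : N ^ (1 / s) ≠ 0 := (Real.rpow_pos_of_pos hN0 _).ne'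
        field_simp
    _ ≤ (p : ℝ) / N * av0 ^ (1 / s0) := by
        apply mul_le_mul_of_nonneg_left hpm
        positivity
    _ = (N * av0) ^ (1 / s0) := by
        rw [Real.mul_rpow hN0.le hav0_pos, hexp]
    _ ≤ 1 + kap (p - 1) r := hfin

end Pool.Agent.Lib.MP_629a14_nt.Sm
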