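import Pool.Agent.Lib.MP_629a14_nt.Sm.ExpoS
import Pool.Agent.Lib.MP_629a14_nt.Sm.OneVar
import Pool.Agent.Lib.MP_629a14_nt.Sm.Prime

/-! Small primes. -/

set_option autoImplicit false

namespace Pool.Agent.Lib.MP_629a14_nt.Sm

open Finset

private theorem kap_nonneg' (N : ℕ) (r : ℝ) (hr : 0 ≤ r) : 0 ≤ kap N r := by
  unfold kap
  exact div_nonneg (pow_nonneg hr _) (Finset.sum_nonneg fun i _ => pow_nonneg hr _)

private theorem good_two (s : ℝ) (hs : 0 < s) :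
    Good (ZMod 2) (univ.filter (fun x => x ≠ 0)) s 1 := by
  intro a b c ha hb hc h
  have hU : (univ.filter (fun x : ZMod 2 => x ≠ 0)) = {1} := by decide
  have h1 := h 1 (by decide) 1 (by decide)
  have hU' : ∀ f : ZMod 2 → ℝ, ∑ x ∈ univ.filter (fun x : ZMod 2 => x ≠ 0), f x = f 1 := by
    intro f
    rw [hU, Finset.sum_singleton]
  rw [hU', hU', one_mul, ← Real.rpow_mul (hb 1), mul_one_div_cancel hs.ne', Real.rpow_one]
  refine h1.trans ?_
  exact Finset.single_le_sum (fun z _ => hc z) (Finset.mem_univ _)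

private theorem root_form (s X Y : ℝ) (hs : 0 < s) (hX : 0 ≤ X) (hY : 0 ≤ Y) (h : X ≤ Y ^ s) :
    1 * X ^ (1 / s) ≤ Y := by
  rw [one_mul]
  calc X ^ (1 / s) ≤ (Y ^ s) ^ (1 / s) := Real.rpow_le_rpow hX h (by positivity)
    _ = Y := by rw [← Real.rpow_mul hY, mul_one_div_cancel hs.ne', Real.rpow_one]

private theorem three_case (s r : ℝ) (hs : 6 ≤ s) (hr0 : 0 ≤ r) (hr1 : r ≤ 1) :
    1 + (((3 : ℕ) : ℝ) - 2) * r ^ s ≤ (1 + kap (3 - 1) r) ^ s := by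
  have hk : kap (3 - 1) r = r ^ 2 / (1 + r) := by
    unfold kap
    norm_num [Finset.sum_range_succ]
  have hk0 : 0 ≤ kap (3 - 1) r := kap_nonneg' _ _ hr0
  have h1 : 1 + s * kap (3 - 1) r ≤ (1 + kap (3 - 1) r) ^ s :=
    one_add_mul_self_le_rpow_one_add (by linarith) (by linarith)
  have h2 : r ^ s ≤ r ^ 2 := by
    rcases eq_or_lt_of_le hr0 with h0 | h0
    · rw [← h0, Real.zero_rpow (by linarith)]
      norm_num
    · calc r ^ s ≤ r ^ (2 : ℝ) := Real.rpow_le_rpow_of_exponent_ge h0 hr1 (by linarith)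
        _ = r ^ 2 := by norm_num
  have h3 : r ^ 2 ≤ s * kap (3 - 1) r := by
    rw [hk]
    have h4 : r ^ 2 / 2 ≤ r ^ 2 / (1 + r) :=
      div_le_div_of_nonneg_left (by positivity) (by linarith) (by linarith)
    have h5 : 0 ≤ r ^ 2 / (1 + r) := by positivity
    nlinarith [h4, h5, sq_nonneg r]
  push_cast
  linarith

private theorem large_case (N K : ℕ) (hN : 4 ≤ N) (hK : N ≤ K) (r : ℝ) (hr0 : 0 ≤ r)
    (hr1 : r ≤ 1) : 1 + ((N : ℝ) - 1) * r ^ sE K ≤ (1 + kap N r) ^ sE K := by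
  have h6 : 6 ≤ sE N := sE_four.trans (sE_mono 4 N (by norm_num) hN)
  have hs : sE N ≤ sE K := sE_mono N K (by omega) hK
  have h0 : 0 < sE N := by linarith
  obtain ⟨t, ht⟩ : ∃ t, t = sE K / sE N := ⟨_, rfl⟩
  have ht1 : 1 ≤ t := by
    rw [ht, le_div_iff₀ h0]
    linarith
  have hst : sE K = sE N * t := by
    rw [ht]
    field_simp
  have hk0 : 0 ≤ kap N r := kap_nonneg' _ _ hr0
  have hN1 : (1 : ℝ) ≤ (N : ℝ) - 1 := by
    have : (4 : ℝ) ≤ N := by exact_mod_cast hN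
    linarith
  have hz0 : 0 ≤ r ^ sE N := Real.rpow_nonneg hr0 _
  have hbase := oneVar N hN r hr0 hr1
  rw [hst, Real.rpow_mul (by linarith : (0 : ℝ) ≤ 1 + kap N r), Real.rpow_mul hr0]
  calc 1 + ((N : ℝ) - 1) * (r ^ sE N) ^ t
      ≤ 1 + ((N : ℝ) - 1) ^ t * (r ^ sE N) ^ t := by
        have : (N : ℝ) - 1 ≤ ((N : ℝ) - 1) ^ t := Real.self_le_rpow_of_one_le hN1 ht1
        have h2 : 0 ≤ (r ^ sE N) ^ t := Real.rpow_nonneg hz0 _
        nlinarith [mul_le_mul_of_nonneg_right this h2]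
    _ = 1 ^ t + (((N : ℝ) - 1) * r ^ sE N) ^ t := by
        rw [Real.one_rpow, Real.mul_rpow (by linarith) hz0]
    _ ≤ (1 + ((N : ℝ) - 1) * r ^ sE N) ^ t :=
        Real.add_rpow_le_rpow_add (by norm_num) (by positivity) ht1
    _ ≤ ((1 + kap N r) ^ sE N) ^ t :=
        Real.rpow_le_rpow (by positivity) hbase (by linarith)

/-- `p = 2`: trivial (`U = {1}`). `p = 3`: `good_prime` with `(1 + κ) ^ s ≥ 1 + s κ ≥ 1 + 6 r^2/2 ≥
1 + r ^ s`, `κ = r ^ 2 / (1 + r)`, `s = sE (q - 1) ≥ 6`. `p ≥ 5`: with `s₀ = sE (p - 1) ≤ s`, `t = s / s₀ ≥ 1`,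
`z = r ^ s₀`, `N = p - 1`: `1 + (N - 1) z ^ t ≤ 1 + ((N - 1) z) ^ t ≤ (1 + (N - 1) z) ^ t ≤
(1 + κ) ^ (s₀ t)` by `oneVar`. -/
theorem good_small (q p : ℕ) [Fact p.Prime] (hq : q.Prime) (h5 : 5 ≤ q) (hpq : p ≤ q) :
    Good (ZMod p) (univ.filter (fun x => x ≠ 0)) (sE (q - 1)) 1 := by
  have hp : p.Prime := Fact.out
  have hs6 : 6 ≤ sE (q - 1) := sE_four.trans (sE_mono 4 (q - 1) (by norm_num) (by omega))
  have hs0 : 0 < sE (q - 1) := by linarith
  have h2 := hp.two_le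
  by_cases hp2 : p = 2
  · subst hp2
    convert good_two (sE (q - 1)) hs0
  refine good_prime p (by omega) (sE (q - 1)) 1 (by linarith) (by norm_num) ?_
  intro r hr0 hr1
  have hp3 : (3 : ℝ) ≤ p := by
    have : 3 ≤ p := by omega
    exact_mod_cast this
  have hrs : 0 ≤ r ^ sE (q - 1) := Real.rpow_nonneg hr0 _
  refine root_form _ _ _ hs0 (by nlinarith [mul_nonneg (by linarith : (0 : ℝ) ≤ (p : ℝ) - 2) hrs])
    (by linarith [kap_nonneg' (p - 1) r hr0]) ?_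
  by_cases hp3' : p = 3
  · subst hp3'
    exact three_case _ r hs6 hr0 hr1
  have hp4 : p ≠ 4 := by
    rintro rfl
    revert hp
    norm_num
  have hp5 : 5 ≤ p := by omega
  have := large_case (p - 1) (q - 1) (by omega) (by omega) r hr0 hr1
  have hcast : ((p - 1 : ℕ) : ℝ) - 1 = (p : ℝ) - 2 := by
    rw [Nat.cast_sub (by omega)]
    push_cast
    ring
  rwa [hcast] at this

end Pool.Agent.Lib.MP_629a14_nt.Sm
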