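import Pool.Agent.Lib.MP_629a14_nt.Sm.Defs

/-! Powers of `JJ`. -/

set_option autoImplicit false

namespace Pool.Agent.Lib.MP_629a14_nt.Sm

open Finset Pool.Agent.Lib.MP_629a14_nt Pool.Agent.Lib.MP_629a14_nt.Rob

/-- `(1 + x) ^ j ≤ 1 + 2 j x` if `2 k x ≤ 1`, `j ≤ k`. -/
private theorem jjpow_bern (k : ℕ) {x : ℝ} (hx : 0 ≤ x) (hkx : 2 * (k : ℝ) * x ≤ 1) :
    ∀ j : ℕ, j ≤ k → (1 + x) ^ j ≤ 1 + 2 * (j : ℝ) * x := by
  intro j
  induction j with
  | zero => intro _; simp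
  | succ j ih =>
    intro hj
    have h1 := ih (by omega)
    have h2 : (j : ℝ) ≤ k := by exact_mod_cast (by omega : j ≤ k)
    have h3 : 2 * (j : ℝ) * x ≤ 1 :=
      le_trans (mul_le_mul_of_nonneg_right (by linarith) hx) hkx
    have h4 : 2 * (j : ℝ) * x * x ≤ 1 * x := mul_le_mul_of_nonneg_right h3 hx
    rw [pow_succ]
    calc (1 + x) ^ j * (1 + x) ≤ (1 + 2 * (j : ℝ) * x) * (1 + x) :=
          mul_le_mul_of_nonneg_right h1 (by linarith)
      _ ≤ 1 + 2 * ((j + 1 : ℕ) : ℝ) * x := by push_cast; nlinarith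

/-- Congruences modulo distinct primes give the congruence modulo the product. -/
private theorem jjpow_mod {T : Finset ℕ} {b b' : ℕ} (hT : ∀ p ∈ T, p.Prime)
    (h : ∀ p ∈ T, b ≡ b' [MOD p]) : b ≡ b' [MOD ∏ p ∈ T, p] := by
  rw [Nat.modEq_iff_dvd]
  push_cast
  refine Finset.prod_dvd_of_coprime (fun p hp q hq hpq => ?_) fun p hp => ?_
  · exact Nat.isCoprime_iff_coprime.2 ((Nat.coprime_primes (hT p hp) (hT q hq)).2 hpq)
  · exact Nat.modEq_iff_dvd.1 (h p hp)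

/-- Expansion of the `k`-th power: for primes `p > w ≥ 2 k + 2` we have
`(p/(p-1))^k ≤ 1 + 2 k/(p - 1)`, and `∏_{p ∈ P, p ∣ b - b'} (1 + u p) = ∑_{T ⊆ P, ∏ T ∣ b - b'} ∏_T u`. -/
theorem JJ_pow (k w v b b' : ℕ) (hk : 1 ≤ k) (hw : 2 * k + 2 ≤ w) :
    JJ w v b b' ^ k ≤ ∑ T ∈ ((Ioc w v).filter Nat.Prime).powerset,
      if (b ≡ b' [MOD ∏ p ∈ T, p]) then ∏ p ∈ T, (2 * (k : ℝ) / ((p : ℝ) - 1)) else 0 := by
  unfold JJ
  rw [← Finset.prod_pow]
  have hP : ∀ T ∈ ((Ioc w v).filter Nat.Prime).powerset,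
      0 ≤ ∏ p ∈ T, (2 * (k : ℝ) / ((p : ℝ) - 1)) := by
    intro T hT
    refine Finset.prod_nonneg fun p hp => ?_
    have h1 : p.Prime := (mem_filter.1 (mem_powerset.1 hT hp)).2
    have h2 : (1 : ℝ) ≤ p := by exact_mod_cast h1.one_lt.le
    exact div_nonneg (by positivity) (by linarith)
  calc ∏ p ∈ (Ioc w v).filter (fun p => p.Prime ∧ b ≡ b' [MOD p]),
        ((p : ℝ) / ((p : ℝ) - 1)) ^ k
      ≤ ∏ p ∈ (Ioc w v).filter (fun p => p.Prime ∧ b ≡ b' [MOD p]),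
        (1 + 2 * (k : ℝ) / ((p : ℝ) - 1)) := by
        refine Finset.prod_le_prod (fun p hp => ?_) fun p hp => ?_
        · have h1 : p.Prime := (mem_filter.1 hp).2.1
          have h2 : (1 : ℝ) ≤ p := by exact_mod_cast h1.one_lt.le
          exact pow_nonneg (div_nonneg (by linarith) (by linarith)) k
        · have h1 : p.Prime := (mem_filter.1 hp).2.1
          have h2 : w < p := (mem_Ioc.1 (mem_filter.1 hp).1).1
          have h3 : (2 * (k : ℝ) + 2) ≤ (p : ℝ) - 1 := by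
            have : 2 * k + 2 + 1 ≤ p := by omega
            have h4 : ((2 * k + 2 + 1 : ℕ) : ℝ) ≤ p := by exact_mod_cast this
            push_cast at h4
            linarith
          have hk0 : (0 : ℝ) ≤ k := Nat.cast_nonneg k
          have h5 : (0 : ℝ) < (p : ℝ) - 1 := by linarith
          have h6 : (p : ℝ) / ((p : ℝ) - 1) = 1 + 1 / ((p : ℝ) - 1) := by
            field_simp
            ring
          have h7 : 2 * (k : ℝ) * (1 / ((p : ℝ) - 1)) ≤ 1 := by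
            rw [mul_one_div, div_le_one h5]
            linarith
          have h8 := jjpow_bern k (by positivity : (0 : ℝ) ≤ 1 / ((p : ℝ) - 1)) h7 k le_rfl
          rw [mul_one_div] at h8
          rw [h6]
          exact h8
    _ = ∑ T ∈ ((Ioc w v).filter (fun p => p.Prime ∧ b ≡ b' [MOD p])).powerset,
          ∏ p ∈ T, (2 * (k : ℝ) / ((p : ℝ) - 1)) := Finset.prod_one_add _
    _ ≤ ∑ T ∈ (((Ioc w v).filter Nat.Prime).powerset).filter
          (fun T => b ≡ b' [MOD ∏ p ∈ T, p]), ∏ p ∈ T, (2 * (k : ℝ) / ((p : ℝ) - 1)) := by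
        refine Finset.sum_le_sum_of_subset_of_nonneg (fun T hT => ?_) fun T hT _ =>
          hP T (mem_filter.1 hT).1
        have h1 := mem_powerset.1 hT
        rw [mem_filter, mem_powerset]
        refine ⟨fun p hp => ?_, jjpow_mod (fun p hp => (mem_filter.1 (h1 hp)).2.1)
          fun p hp => (mem_filter.1 (h1 hp)).2.2⟩
        have h2 := mem_filter.1 (h1 hp)
        exact mem_filter.2 ⟨h2.1, h2.2.1⟩
    _ = _ := by rw [Finset.sum_filter]

end Pool.Agent.Lib.MP_629a14_nt.Sm
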