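import Pool.Agent.Lib.MP_629a14_nt.Sm.LimDefs
import Pool.Agent.Lib.MP_629a14_nt.Sm.FinTwo

/-! The theorem for lower densities. -/

set_option autoImplicit false

namespace Pool.Agent.Lib.MP_629a14_nt.Sm

open Finset Filter Topology Pool.Agent.Lib.MP_629a14_nt Pool.Agent.Lib.MP_629a14_nt.Rob

private theorem limA_cntB_le (A : Set ℕ) (x : ℕ) : cntB A x ≤ cntB Set.univ x := by
  classical
  unfold cntB
  refine card_le_card fun p hp => ?_
  simp only [mem_filter] at hp ⊢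
  exact ⟨hp.1, hp.2.1, Set.mem_univ _⟩

private theorem limA_quot (A : Set ℕ) (x : ℕ) :
    0 ≤ (cntB A x : ℝ) / cntB Set.univ x ∧ (cntB A x : ℝ) / cntB Set.univ x ≤ 1 :=
  ⟨by positivity, div_le_one_of_le₀ (by exact_mod_cast limA_cntB_le A x) (Nat.cast_nonneg _)⟩

private theorem limA_relLow (A : Set ℕ) : 0 ≤ relLow A ∧
    ∀ t : ℝ, 0 < t → ∀ᶠ x : ℕ in atTop, relLow A - t < (cntB A x : ℝ) / cntB Set.univ x := by
  have hb : IsBoundedUnder (· ≥ ·) atTop (fun x : ℕ => (cntB A x : ℝ) / cntB Set.univ x) :=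
    isBoundedUnder_of ⟨0, fun x => (limA_quot A x).1⟩
  have hb' : IsBoundedUnder (· ≤ ·) atTop (fun x : ℕ => (cntB A x : ℝ) / cntB Set.univ x) :=
    isBoundedUnder_of ⟨1, fun x => (limA_quot A x).2⟩
  refine ⟨?_, fun t ht => ?_⟩
  · exact le_liminf_of_le hb'.isCoboundedUnder_ge (Eventually.of_forall fun x => (limA_quot A x).1)
  · refine eventually_lt_of_lt_liminf ?_ hb
    show relLow A - t < relLow A
    linarith

private theorem limA_sE (N : ℕ) : 0 ≤ 1 / sE N := by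
  unfold sE
  have h1 : 0 ≤ Real.log (N : ℝ) := Real.log_natCast_nonneg N
  have h2 : 0 ≤ Real.log (1 + 1 / (N : ℝ)) := Real.log_nonneg (by
    have : (0 : ℝ) ≤ 1 / (N : ℝ) := by positivity
    linarith)
  positivity

/-- `finTwo (ε)`: for every `ε' > 0` eventually the two quotients are at least `relLow A - ε'`,
`relLow B - ε'` (for `B` along `⌊δ N⌋ → ∞`); monotonicity and continuity of `t ^ (1/s)`; let `ε' → 0`. -/
theorem rich_ge (q : ℕ) (hq : q.Prime) (h5 : 5 ≤ q) (ε : ℝ) (hε : 0 < ε) : ∃ c : ℝ, 0 < c ∧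
    ∀ A B : Set ℕ, ((primorial q).totient : ℝ) / primorial q * relLow A *
      ((primorial q).totient * relLow B) ^ (1 / sE (q - 1)) - ε ≤ rich c A B := by
  classical
  obtain ⟨c, hc, δ, hδ, -, N₀, hN⟩ := finTwo q hq h5 (ε / 2) (half_pos hε)
  refine ⟨c, hc, fun A B => ?_⟩
  have hσ := limA_sE (q - 1)
  generalize 1 / sE (q - 1) = σ at *
  set Φ : ℝ := ((primorial q).totient : ℝ) with hΦ
  set M : ℝ := (primorial q : ℝ) with hM
  have hΦ0 : 0 ≤ Φ := Nat.cast_nonneg _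
  have hM0 : 0 ≤ M := Nat.cast_nonneg _
  obtain ⟨hA0, hA⟩ := limA_relLow A
  obtain ⟨hB0, hB⟩ := limA_relLow B
  -- continuity
  have hcont : Continuous fun t : ℝ =>
      Φ / M * max (relLow A - t) 0 * (Φ * max (relLow B - t) 0) ^ σ := by
    have h1 : Continuous fun t : ℝ => (Φ * max (relLow B - t) 0) ^ σ :=
      (Real.continuous_rpow_const hσ).comp
        (continuous_const.mul ((continuous_const.sub continuous_id).max continuous_const))
    exact (continuous_const.mul ((continuous_const.sub continuous_id).max continuous_const)).mul h1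
  have h0 : Φ / M * max (relLow A - 0) 0 * (Φ * max (relLow B - 0) 0) ^ σ =
      Φ / M * relLow A * (Φ * relLow B) ^ σ := by
    rw [sub_zero, sub_zero, max_eq_left hA0, max_eq_left hB0]
  have hev : ∀ᶠ t : ℝ in 𝓝 0, Φ / M * relLow A * (Φ * relLow B) ^ σ - ε / 2 <
      Φ / M * max (relLow A - t) 0 * (Φ * max (relLow B - t) 0) ^ σ := by
    have h1 := hcont.continuousAt (x := (0 : ℝ))
    refine h1.eventually (lt_mem_nhds ?_)
    show _ < Φ / M * max (relLow A - 0) 0 * (Φ * max (relLow B - 0) 0) ^ σ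
    rw [h0]
    linarith
  obtain ⟨r, hr, hball⟩ := Metric.eventually_nhds_iff.1 hev
  have ht := hball (y := r / 2) (by
    rw [dist_zero_right, Real.norm_eq_abs, abs_of_pos (half_pos hr)]
    exact half_lt_self hr)
  have ht0 : 0 < r / 2 := half_pos hr
  generalize r / 2 = t at ht ht0
  have hfloor : Tendsto (fun N : ℕ => ⌊δ * N⌋₊) atTop atTop :=
    tendsto_nat_floor_atTop.comp (Tendsto.const_mul_atTop hδ tendsto_natCast_atTop_atTop)
  have hu1 : IsBoundedUnder (· ≤ ·) atTop (fun N : ℕ => (((Icc 1 N).filter (fun n : ℕ => Even n ∧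
      c * ((n : ℝ) ^ 2 / ((n.totient : ℝ) * Real.log n ^ 2)) ≤ (repsIn A B n : ℝ))).card : ℝ) / N) := by
    refine isBoundedUnder_of ⟨1, fun N => ?_⟩
    refine div_le_one_of_le₀ ?_ (Nat.cast_nonneg _)
    have h1 := card_filter_le (Icc 1 N) (fun n : ℕ => Even n ∧
      c * ((n : ℝ) ^ 2 / ((n.totient : ℝ) * Real.log n ^ 2)) ≤ (repsIn A B n : ℝ))
    rw [Nat.card_Icc, Nat.add_sub_cancel] at h1
    exact_mod_cast h1
  unfold rich
  refine le_liminf_of_le hu1.isCoboundedUnder_ge ?_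
  filter_upwards [hA t ht0, hfloor.eventually (hB t ht0), eventually_ge_atTop N₀,
    eventually_ge_atTop 1] with N h1 h2 h3 h4
  have hN1 : (0 : ℝ) < N := by exact_mod_cast h4
  have h5 := hN N h3 A B
  rw [le_div_iff₀ hN1]
  refine le_trans ?_ h5
  refine mul_le_mul_of_nonneg_right ?_ hN1.le
  have hq1 := limA_quot A N
  have hq2 := limA_quot B ⌊δ * N⌋₊
  have h6 : max (relLow A - t) 0 ≤ (cntB A N : ℝ) / cntB Set.univ N := max_le h1.le hq1.1
  have h7 : max (relLow B - t) 0 ≤ (cntB B ⌊δ * N⌋₊ : ℝ) / cntB Set.univ ⌊δ * N⌋₊ :=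
    max_le h2.le hq2.1
  have h8 : (Φ * max (relLow B - t) 0) ^ σ ≤
      (Φ * ((cntB B ⌊δ * N⌋₊ : ℝ) / cntB Set.univ ⌊δ * N⌋₊)) ^ σ :=
    Real.rpow_le_rpow (mul_nonneg hΦ0 (le_max_right _ _)) (mul_le_mul_of_nonneg_left h7 hΦ0) hσ
  have h9 : Φ / M * max (relLow A - t) 0 ≤ Φ / M * ((cntB A N : ℝ) / cntB Set.univ N) :=
    mul_le_mul_of_nonneg_left h6 (div_nonneg hΦ0 hM0)
  have h10 := mul_le_mul h9 h8 (Real.rpow_nonneg (mul_nonneg hΦ0 (le_max_right _ _)) _)
    (mul_nonneg (div_nonneg hΦ0 hM0) hq1.1)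
  linarith

end Pool.Agent.Lib.MP_629a14_nt.Sm
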