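import Pool.Agent.Lib.MP_629a14_nt.Sm.LimA

/-! The case of a primorial. -/

set_option autoImplicit false

namespace Pool.Agent.Lib.MP_629a14_nt.Sm

open Finset Filter Topology Pool.Agent.Lib.MP_629a14_nt Pool.Agent.Lib.MP_629a14_nt.Rob

private theorem lb_prim_eq (w : ℕ) (hw : 5 ≤ w) :
    ∃ q : ℕ, q.Prime ∧ 5 ≤ q ∧ primorial q = primorial w := by
  have h5 : Nat.Prime 5 := by norm_num
  refine ⟨Nat.findGreatest Nat.Prime w, Nat.findGreatest_spec hw h5, Nat.le_findGreatest hw h5, ?_⟩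
  unfold primorial
  refine Finset.prod_congr ?_ fun _ _ => rfl
  ext p
  simp only [Finset.mem_filter, Finset.mem_range]
  constructor
  · rintro ⟨h1, h2⟩
    exact ⟨lt_of_lt_of_le h1 (Nat.succ_le_succ (Nat.findGreatest_le w)), h2⟩
  · rintro ⟨h1, h2⟩
    exact ⟨Nat.lt_succ_of_le (Nat.le_findGreatest (Nat.le_of_lt_succ h1) h2), h2⟩

private theorem lb_sE_nonneg (N : ℕ) : 0 ≤ 1 / sE N := by
  unfold sE
  rcases Nat.eq_zero_or_pos N with h | h
  · subst h
    simp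
  · have h1 : (1 : ℝ) ≤ N := by exact_mod_cast h
    have h2 : 0 ≤ Real.log N := Real.log_nonneg h1
    have h3 : 0 ≤ Real.log (1 + 1 / (N : ℝ)) := by
      apply Real.log_nonneg
      have : 0 ≤ 1 / (N : ℝ) := by positivity
      linarith
    positivity

private theorem lb_sE_four : (4 : ℝ) ^ (1 / sE 4) = 5 / 4 := by
  unfold sE
  have h4 : 0 < Real.log ((4 : ℕ) : ℝ) := Real.log_pos (by norm_num)
  rw [one_div_div, Real.rpow_def_of_pos (by norm_num)]
  have h5 : Real.log 4 * (Real.log (1 + 1 / ((4 : ℕ) : ℝ)) / Real.log ((4 : ℕ) : ℝ)) =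
      Real.log (5 / 4) := by
    have e : ((4 : ℕ) : ℝ) = 4 := by norm_num
    rw [e] at h4 ⊢
    rw [show (1 : ℝ) + 1 / 4 = 5 / 4 by norm_num]
    field_simp
  rw [h5, Real.exp_log (by norm_num)]

private theorem lb_prim6 (w : ℕ) (h3 : 3 ≤ w) (h4 : w < 5) : primorial w = 6 := by
  interval_cases w <;> decide

private theorem lb_prim30 : primorial 5 = 30 := by decide

/-- For `w ≥ 3`: the largest prime `q ≤ w` if `w ≥ 5` (`primorial q = primorial w`), and `q = 5` if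
`w = 3, 4` (`primorial w = 6`, `(8/30) 4^(1/s) = (8/30)(5/4) = 1/3`, `s = sE 4`). -/
theorem rich_ge_prim (w : ℕ) (hw : 3 ≤ w) (ε : ℝ) (hε : 0 < ε) : ∃ c : ℝ, 0 < c ∧
    ∀ A B : Set ℕ, 1 / ((primorial w).totient : ℝ) ≤ relLow B → 0 ≤ relLow A →
      ((primorial w).totient : ℝ) / primorial w * relLow A - ε ≤ rich c A B := by
  rcases lt_or_ge w 5 with h5 | h5
  · obtain ⟨c, hc, h⟩ := rich_ge 5 (by norm_num) le_rfl ε hε
    refine ⟨c, hc, fun A B hB hA => le_trans ?_ (h A B)⟩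
    rw [lb_prim6 w hw h5] at hB ⊢
    rw [lb_prim30]
    have e6 : Nat.totient 6 = 2 := by decide
    have e30 : Nat.totient 30 = 8 := by decide
    rw [e6] at hB ⊢
    rw [e30]
    have h1 : (4 : ℝ) ≤ ((8 : ℕ) : ℝ) * relLow B := by
      push_cast at hB ⊢
      linarith
    have h2 : (5 / 4 : ℝ) ≤ (((8 : ℕ) : ℝ) * relLow B) ^ (1 / sE (5 - 1)) := by
      have h3 : (4 : ℝ) ^ (1 / sE (5 - 1)) ≤ (((8 : ℕ) : ℝ) * relLow B) ^ (1 / sE (5 - 1)) :=
        Real.rpow_le_rpow (by norm_num) h1 (lb_sE_nonneg _)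
      have h4 : (4 : ℝ) ^ (1 / sE (5 - 1)) = 5 / 4 := lb_sE_four
      rw [h4] at h3
      exact h3
    have h3 : 0 ≤ ((8 : ℕ) : ℝ) / ((30 : ℕ) : ℝ) * relLow A := by positivity
    have h4 := mul_le_mul_of_nonneg_left h2 h3
    have h6 : ((2 : ℕ) : ℝ) / ((6 : ℕ) : ℝ) * relLow A =
        ((8 : ℕ) : ℝ) / ((30 : ℕ) : ℝ) * relLow A * (5 / 4) := by
      push_cast
      ring
    rw [h6]
    linarith
  · obtain ⟨q, hq, hq5, hqw⟩ := lb_prim_eq w h5
    obtain ⟨c, hc, h⟩ := rich_ge q hq hq5 ε hε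
    refine ⟨c, hc, fun A B hB hA => le_trans ?_ (h A B)⟩
    rw [hqw]
    have hpos : (0 : ℝ) < ((primorial w).totient : ℝ) := by
      exact_mod_cast Nat.totient_pos.2 (primorial_pos w)
    have h1 : (1 : ℝ) ≤ ((primorial w).totient : ℝ) * relLow B := by
      rw [div_le_iff₀ hpos] at hB
      linarith
    have h2 : (1 : ℝ) ≤ (((primorial w).totient : ℝ) * relLow B) ^ (1 / sE (q - 1)) :=
      Real.one_le_rpow h1 (lb_sE_nonneg _)
    have h3 : 0 ≤ ((primorial w).totient : ℝ) / primorial w * relLow A := by positivity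
    have h4 := mul_le_mul_of_nonneg_left h2 h3
    linarith

end Pool.Agent.Lib.MP_629a14_nt.Sm
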