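import Pool.Agent.Lib.MP_629a14_nt.Sm.Defs

/-! Lower densities. -/

set_option autoImplicit false

namespace Pool.Agent.Lib.MP_629a14_nt.Sm

open Finset Filter Topology Pool.Agent.Lib.MP_629a14_nt Pool.Agent.Lib.MP_629a14_nt.Rob

/-- Lower relative density in the primes. -/
noncomputable def relLow (A : Set ℕ) : ℝ :=
  liminf (fun x : ℕ => (cntB A x : ℝ) / cntB Set.univ x) atTop

open Classical in
/-- Lower density of the even `n` with at least `c n² / (φ(n) log² n)` representations. -/
noncomputable def rich (c : ℝ) (A B : Set ℕ) : ℝ :=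
  liminf (fun N : ℕ => (((Icc 1 N).filter (fun n : ℕ => Even n ∧
    c * ((n : ℝ) ^ 2 / ((n.totient : ℝ) * Real.log n ^ 2)) ≤ (repsIn A B n : ℝ))).card : ℝ) / N) atTop

open Classical in
/-- Lower density of the set of sums. -/
noncomputable def sumDens (A B : Set ℕ) : ℝ :=
  liminf (fun N : ℕ => (((Icc 1 N).filter (fun n : ℕ => 0 < repsIn A B n)).card : ℝ) / N) atTop

/-- Infimum of `rich c A B` over the sets of lower relative densities at least `α`, `β`. -/
noncomputable def least (c α β : ℝ) : ℝ :=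
  sInf {d : ℝ | ∃ A B : Set ℕ, α ≤ relLow A ∧ β ≤ relLow B ∧ d = rich c A B}

/-- Infimum of the lower density of the set of sums. -/
noncomputable def leastSum (α β : ℝ) : ℝ :=
  sInf {d : ℝ | ∃ A B : Set ℕ, α ≤ relLow A ∧ β ≤ relLow B ∧ d = sumDens A B}

end Pool.Agent.Lib.MP_629a14_nt.Sm
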