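import Pool.Agent.Lib.MP_629a14_nt.Sm.Dens

/-! The local theorem for sets. -/

set_option autoImplicit false

namespace Pool.Agent.Lib.MP_629a14_nt.Sm

open Finset
open scoped Pointwise

private theorem local_sum_ind (m : ℕ) [NeZero m] (A : Finset (ZMod m)) (hA : ∀ x ∈ A, IsUnit x) :
    ∑ x ∈ UM m, (if x ∈ A then (1 : ℝ) else 0) = A.card := by
  classical
  rw [Finset.sum_ite_mem, Finset.sum_const, nsmul_eq_mul, mul_one]
  congr 2
  ext x
  simp only [UM, Finset.mem_inter, Finset.mem_filter, Finset.mem_univ, true_and]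
  exact ⟨fun h => h.2, fun h => ⟨hA x h, h⟩⟩

/-- `dens` for the indicator functions of `A`, `B`, `A + B`. -/
theorem local_sum (q : ℕ) (hq : q.Prime) (h5 : 5 ≤ q) (m : ℕ) [NeZero m] (hm : Squarefree m)
    (A B : Finset (ZMod m)) (hA : ∀ x ∈ A, IsUnit x) (hB : ∀ x ∈ B, IsUnit x) :
    ((primorial q).totient : ℝ) / primorial q * ((A.card : ℝ) / m.totient) *
      ((primorial q).totient * ((B.card : ℝ) / m.totient)) ^ (1 / sE (q - 1)) ≤
      ((A + B).card : ℝ) / m := by
  have h := dens q hq h5 m hm (fun x => if x ∈ A then (1 : ℝ) else 0)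
    (fun x => if x ∈ B then (1 : ℝ) else 0) (fun x => if x ∈ A + B then (1 : ℝ) else 0)
    (fun x => by split_ifs <;> norm_num)
    (fun x => by split_ifs <;> norm_num)
    (fun x => by split_ifs <;> norm_num)
    (fun x => by split_ifs <;> norm_num) ?_
  · rw [local_sum_ind m A hA, local_sum_ind m B hB] at h
    have h2 : ∑ z : ZMod m, (if z ∈ A + B then (1 : ℝ) else 0) = (A + B).card := by
      rw [Finset.sum_ite_mem, Finset.univ_inter, Finset.sum_const, nsmul_eq_mul, mul_one]
    rw [h2] at h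
    exact h
  · intro x y _ _ hy
    have hyB : y ∈ B := by
      by_contra hn
      rw [if_neg hn] at hy
      exact lt_irrefl _ hy
    by_cases hx : x ∈ A
    · rw [if_pos hx, if_pos (Finset.add_mem_add hx hyB)]
    · rw [if_neg hx]
      split_ifs <;> norm_num

end Pool.Agent.Lib.MP_629a14_nt.Sm
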