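import Pool.Agent.Lib.MP_629a14_nt.Sm.Dens

/-! The local theorem for sets, every modulus. -/

set_option autoImplicit false

namespace Pool.Agent.Lib.MP_629a14_nt.Sm

open Finset
open scoped Pointwise

/-- The radical. -/
private noncomputable def rd (m : ℕ) : ℕ := ∏ p ∈ m.primeFactors, p

private theorem rd_dvd (m : ℕ) : rd m ∣ m := Nat.prod_primeFactors_dvd m

private theorem rd_sqf (m : ℕ) : Squarefree (rd m) := by
  unfold rd
  apply Finset.squarefree_prod_of_pairwise_isCoprime
  · intro p hp q hq hpq
    show IsRelPrime p q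
    rw [← Nat.coprime_iff_isRelPrime]
    exact (Nat.coprime_primes (Nat.prime_of_mem_primeFactors hp)
      (Nat.prime_of_mem_primeFactors hq)).2 hpq
  · intro p hp
    exact (Nat.prime_of_mem_primeFactors hp).prime.squarefree

private theorem rd_pf (m : ℕ) : (rd m).primeFactors = m.primeFactors := by
  unfold rd
  exact Nat.primeFactors_prod (fun p hp => Nat.prime_of_mem_primeFactors hp)

private theorem rd_tot (m : ℕ) (hm : m ≠ 0) : m.totient * rd m = m * (rd m).totient := by
  have h1 := Nat.totient_mul_prod_primeFactors m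
  have h2 := Nat.totient_mul_prod_primeFactors (rd m)
  rw [rd_pf m] at h2
  have hr : 0 < rd m := Nat.pos_of_ne_zero (fun h => by
    have := rd_dvd m
    rw [h, zero_dvd_iff] at this
    exact hm this)
  have h3 : (rd m).totient = ∏ p ∈ m.primeFactors, (p - 1) := by
    have h4 : (rd m).totient * rd m = rd m * ∏ p ∈ m.primeFactors, (p - 1) := h2
    rw [mul_comm] at h4
    exact Nat.eq_of_mul_eq_mul_left hr h4
  rw [h3]
  exact h1

private theorem fib_card (m r : ℕ) [NeZero m] [NeZero r] (h : r ∣ m) (x : ZMod r) :
    ((univ : Finset (ZMod m)).filter (fun g => ZMod.castHom h (ZMod r) g = x)).card * r = m := by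
  classical
  set f : ZMod m →+* ZMod r := ZMod.castHom h (ZMod r) with hf
  have hsurj : Function.Surjective f := ZMod.castHom_surjective h
  have h1 : ∀ y : ZMod r, ((univ : Finset (ZMod m)).filter (fun g => f g = y)).card =
      ((univ : Finset (ZMod m)).filter (fun g => f g = x)).card := by
    intro y
    exact AddMonoidHom.card_fiber_eq_of_mem_range f.toAddMonoidHom (hsurj y) (hsurj x)
  have h2 : (univ : Finset (ZMod m)).card =
      ∑ y : ZMod r, ((univ : Finset (ZMod m)).filter (fun g => f g = y)).card :=
    Finset.card_eq_sum_card_fiberwise (fun _ _ => mem_univ _)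
  rw [Finset.sum_congr rfl (fun y _ => h1 y), sum_const, card_univ, card_univ, ZMod.card, ZMod.card,
    smul_eq_mul] at h2
  rw [mul_comm]
  exact h2.symm

/-- `dens` for the relative sizes of the fibres over the radical of `m`. -/
theorem local_all (q : ℕ) (hq : q.Prime) (h5 : 5 ≤ q) (m : ℕ) [NeZero m]
    (A B : Finset (ZMod m)) (hA : ∀ x ∈ A, IsUnit x) (hB : ∀ x ∈ B, IsUnit x) :
    ((primorial q).totient : ℝ) / primorial q * ((A.card : ℝ) / m.totient) *
      ((primorial q).totient * ((B.card : ℝ) / m.totient)) ^ (1 / sE (q - 1)) ≤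
      ((A + B).card : ℝ) / m := by
  classical
  have hm : m ≠ 0 := NeZero.ne m
  set r := rd m with hr
  have hrm : r ∣ m := rd_dvd m
  have : NeZero r := ⟨fun h => by rw [h, zero_dvd_iff] at hrm; exact hm hrm⟩
  have hr0 : (0 : ℝ) < r := by exact_mod_cast Nat.pos_of_ne_zero (NeZero.ne r)
  have hm0 : (0 : ℝ) < m := by exact_mod_cast Nat.pos_of_ne_zero hm
  set f : ZMod m →+* ZMod r := ZMod.castHom hrm (ZMod r) with hf
  set h : ℝ := (m : ℝ) / r with hh
  have hh0 : 0 < h := by positivity
  have hfib : ∀ (S : Finset (ZMod m)) (x : ZMod r), ((S.filter (fun g => f g = x)).card : ℝ) ≤ h := by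
    intro S x
    have h1 := fib_card m r hrm x
    have h2 : (S.filter (fun g => f g = x)).card ≤
        ((univ : Finset (ZMod m)).filter (fun g => f g = x)).card :=
      card_le_card (filter_subset_filter _ (subset_univ _))
    rw [hh, le_div_iff₀ hr0]
    have h3 : ((S.filter (fun g => f g = x)).card : ℝ) * r ≤
        (((univ : Finset (ZMod m)).filter (fun g => f g = x)).card : ℝ) * r := by
      gcongr
    refine h3.trans (le_of_eq ?_)
    exact_mod_cast h1
  set φ : Finset (ZMod m) → ZMod r → ℝ := fun S x => ((S.filter (fun g => f g = x)).card : ℝ) / h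
    with hφ
  have hφ0 : ∀ S x, 0 ≤ φ S x := fun S x => by positivity
  have hφ1 : ∀ S x, φ S x ≤ 1 := fun S x => by
    rw [hφ]
    exact (div_le_one hh0).2 (hfib S x)
  have hsum : ∀ S : Finset (ZMod m), ∑ x, φ S x = (S.card : ℝ) / h := by
    intro S
    simp only [hφ]
    rw [← Finset.sum_div]
    congr 1
    have := Finset.card_eq_sum_card_fiberwise (f := fun g => f g) (s := S) (t := univ)
      (fun _ _ => mem_coe.2 (mem_univ _))
    rw [this]
    push_cast
    rfl
  have hsumU : ∀ S : Finset (ZMod m), (∀ x ∈ S, IsUnit x) → ∑ x ∈ UM r, φ S x = (S.card : ℝ) / h := by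
    intro S hS
    rw [← hsum S]
    refine Finset.sum_subset (subset_univ _) fun x _ hx => ?_
    simp only [hφ]
    rw [div_eq_zero_iff]
    left
    rw [Nat.cast_eq_zero, card_eq_zero, filter_eq_empty_iff]
    intro g hg hgx
    apply hx
    unfold UM
    rw [mem_filter]
    exact ⟨mem_univ _, hgx ▸ (hS g hg).map f⟩
  have key := dens q hq h5 r (rd_sqf m) (φ A) (φ B) (φ (A + B)) (hφ0 A) (hφ0 B) (hφ1 B)
    (hφ0 (A + B)) (by
      intro x y _ _ hy
      simp only [hφ] at hy ⊢
      have h1 : 0 < (B.filter (fun g => f g = y)).card := by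
        rcases Nat.eq_zero_or_pos (B.filter (fun g => f g = y)).card with h0 | h0
        · rw [h0] at hy
          simp at hy
        · exact h0
      obtain ⟨b, hb⟩ := card_pos.1 h1
      rw [mem_filter] at hb
      refine div_le_div_of_nonneg_right ?_ hh0.le
      rw [Nat.cast_le]
      calc (A.filter (fun g => f g = x)).card
          = ((A.filter (fun g => f g = x)).image (fun g => g + b)).card := by
            rw [card_image_of_injective _ (add_left_injective b)]
        _ ≤ ((A + B).filter (fun g => f g = x + y)).card := by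
            apply card_le_card
            intro z hz
            rw [mem_image] at hz
            obtain ⟨a, ha, rfl⟩ := hz
            rw [mem_filter] at ha ⊢
            exact ⟨add_mem_add ha.1 hb.1, by rw [map_add, ha.2, hb.2]⟩)
  rw [hsumU A hA, hsumU B hB, hsum (A + B)] at key
  have htot : ((m.totient : ℕ) : ℝ) = h * r.totient := by
    have h1 : ((m.totient * r : ℕ) : ℝ) = ((m * r.totient : ℕ) : ℝ) := by
      exact_mod_cast rd_tot m hm
    push_cast at h1
    rw [hh]
    field_simp
    linarith
  have e1 : (A.card : ℝ) / h / r.totient = (A.card : ℝ) / m.totient := by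
    rw [htot, div_div]
  have e2 : (B.card : ℝ) / h / r.totient = (B.card : ℝ) / m.totient := by
    rw [htot, div_div]
  have e3 : ((A + B).card : ℝ) / h / r = ((A + B).card : ℝ) / m := by
    rw [div_div, hh]
    congr 1
    field_simp
  rw [e1, e2, e3] at key
  exact key

end Pool.Agent.Lib.MP_629a14_nt.Sm
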