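import Pool.Agent.Lib.MP_629a14_nt.Sm.Defs
import Pool.Agent.Lib.MP_629a14_nt.Rob.Legendre

/-! The mean value of `nu` in residue classes. -/

set_option autoImplicit false

namespace Pool.Agent.Lib.MP_629a14_nt.Sm

open Finset Pool.Agent.Lib.MP_629a14_nt Pool.Agent.Lib.MP_629a14_nt.Rob

private theorem nuap_tot (v : ℕ) : ((primorial v).totient : ℝ) =
    (primorial v : ℝ) * ∏ p ∈ Nat.primesLE v, (1 - 1 / (p : ℝ)) := by
  have h := Nat.totient_eq_mul_prod_factors (primorial v)
  rw [primeFactors_primorial] at h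
  have h2 : (((primorial v).totient : ℚ) : ℝ) =
      (((primorial v : ℚ) * ∏ p ∈ Nat.primesLE v, (1 - (p : ℚ)⁻¹) : ℚ) : ℝ) := by
    rw [h]
  push_cast at h2
  rw [h2]
  congr 1
  refine Finset.prod_congr rfl fun p _ => ?_
  rw [one_div]

private theorem nuap_pos (S : Finset ℕ) (hS : ∀ p ∈ S, p.Prime) :
    0 < ∏ p ∈ S, (1 - 1 / (p : ℝ)) := by
  refine Finset.prod_pos fun p hp => ?_
  have h1 : (2 : ℝ) ≤ p := by exact_mod_cast (hS p hp).two_le
  have h2 : 1 / (p : ℝ) < 1 := by
    rw [div_lt_one (by linarith)]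
    linarith
  linarith

private theorem nuap_Vq (w v : ℕ) (hwv : w ≤ v) :
    (primorial v : ℝ) / (primorial v).totient * Vq (primorial w) (v + 1) =
      (primorial w : ℝ) / (primorial w).totient := by
  have h1 := Finset.prod_filter_mul_prod_filter_not (Nat.primesLE v)
    (fun p => p ∣ primorial w) (fun p => 1 - 1 / (p : ℝ))
  have h2 : (Nat.primesLE v).filter (fun p => p ∣ primorial w) = Nat.primesLE w := by
    ext p
    rw [mem_filter, Nat.mem_primesLE, Nat.mem_primesLE]
    constructor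
    · rintro ⟨⟨_, hp⟩, hd⟩
      exact ⟨(hp.dvd_primorial_iff).1 hd, hp⟩
    · rintro ⟨hpw, hp⟩
      exact ⟨⟨hpw.trans hwv, hp⟩, (hp.dvd_primorial_iff).2 hpw⟩
  have h3 : (Nat.primesLE v).filter (fun p => ¬ p ∣ primorial w) =
      (range (v + 1)).filter (fun p => p.Prime ∧ ¬ p ∣ primorial w) := by
    rw [Nat.primesLE_eq_filter_range, filter_filter]
  rw [h2, h3] at h1
  have h4 : Vq (primorial w) (v + 1) = ∏ p ∈ (range (v + 1)).filter
      (fun p => p.Prime ∧ ¬ p ∣ primorial w), (1 - 1 / (p : ℝ)) := rfl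
  rw [← h4] at h1
  have hPw := nuap_pos (Nat.primesLE w) fun p hp => Nat.prime_of_mem_primesLE hp
  have hPv := nuap_pos (Nat.primesLE v) fun p hp => Nat.prime_of_mem_primesLE hp
  have hV : Vq (primorial w) (v + 1) ≠ 0 := by
    intro h0
    rw [h0, mul_zero] at h1
    exact hPv.ne h1
  rw [nuap_tot v, nuap_tot w, ← h1]
  have hw0 : (primorial w : ℝ) ≠ 0 := by
    exact_mod_cast (primorial_pos w).ne'
  have hv0 : (primorial v : ℝ) ≠ 0 := by
    exact_mod_cast (primorial_pos v).ne'
  have hPw' := hPw.ne'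
  field_simp

private theorem nuap_rough (v n : ℕ) : Rough (v + 1) n ↔ Nat.Coprime n (primorial v) := by
  constructor
  · intro h
    refine Nat.coprime_of_dvd fun p hp hpn hpW => ?_
    have h1 := h p hp hpn
    have h2 := (hp.dvd_primorial_iff).1 hpW
    omega
  · intro h p hp hpn
    by_contra hcon
    have h2 : p ∣ primorial v := (hp.dvd_primorial_iff).2 (by omega)
    exact hp.one_lt.ne' (Nat.dvd_one.1 (h ▸ Nat.dvd_gcd hpn h2))

/-- Let `m = primorial w ∣ W = primorial v`. A period `W` contains `φ(W) / φ(m)` numbers which are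
`x` modulo `m` and prime to `W` (fibres of the surjective homomorphism of unit groups,
`ZMod.unitsMap_surjective`), so a full period contributes `W / φ(m)`; the rest is at most
`W * (W / φ(W))`. -/
theorem nuAP (w v : ℕ) (hwv : w ≤ v) : ∃ C : ℝ, 0 < C ∧ ∀ x : ZMod (primorial w), IsUnit x →
    ∀ K : ℕ, |∑ k ∈ (Icc 1 K).filter (fun k : ℕ => (k : ZMod (primorial w)) = x), nu v k -
      (K : ℝ) / (primorial w).totient| ≤ C := by
  have hWpos : (0 : ℝ) < primorial v := by exact_mod_cast primorial_pos v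
  have hφpos : (0 : ℝ) < (primorial v).totient := by
    exact_mod_cast Nat.totient_pos.2 (primorial_pos v)
  have hmpos : (0 : ℝ) < primorial w := by exact_mod_cast primorial_pos w
  set ρ : ℝ := (primorial v : ℝ) / (primorial v).totient with hρ
  have hρ0 : 0 < ρ := div_pos hWpos hφpos
  refine ⟨ρ * 2 ^ (v + 1), by positivity, fun x hx K => ?_⟩
  have hxval : Nat.Coprime x.val (primorial w) := by
    have h1 : IsUnit ((x.val : ℕ) : ZMod (primorial w)) := by
      rwa [ZMod.natCast_zmod_val]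
    exact (ZMod.isUnit_iff_coprime _ _).1 h1
  have hleg := legendre 0 K (primorial w) x.val (v + 1) (primorial_pos w) hxval
  have hsum : ∑ k ∈ (Icc 1 K).filter (fun k : ℕ => (k : ZMod (primorial w)) = x), nu v k =
      ρ * (cntR 0 K (primorial w) x.val (v + 1) : ℝ) := by
    have h1 : ∑ k ∈ (Icc 1 K).filter (fun k : ℕ => (k : ZMod (primorial w)) = x), nu v k =
        ∑ k ∈ ((Icc 1 K).filter (fun k : ℕ => (k : ZMod (primorial w)) = x)).filter
          (fun k => Nat.Coprime k (primorial v)), ρ := by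
      rw [sum_filter (fun k => Nat.Coprime k (primorial v))]
      rfl
    rw [h1, sum_const, nsmul_eq_mul, mul_comm]
    congr 2
    unfold cntR
    congr 1
    ext n
    simp only [mem_filter, mem_Icc, mem_Ioc, zero_add]
    have h2 : ((n : ZMod (primorial w)) = x) ↔ n ≡ x.val [MOD primorial w] := by
      rw [← ZMod.natCast_eq_natCast_iff, ZMod.natCast_zmod_val]
    rw [h2, nuap_rough]
    constructor
    · rintro ⟨⟨⟨a1, a2⟩, a3⟩, a4⟩
      exact ⟨⟨a1, a2⟩, a3, a4⟩
    · rintro ⟨⟨a1, a2⟩, a3, a4⟩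
      exact ⟨⟨⟨a1, a2⟩, a3⟩, a4⟩
  have hmain : (K : ℝ) / (primorial w).totient =
      ρ * ((K : ℝ) / primorial w * Vq (primorial w) (v + 1)) := by
    have h1 := nuap_Vq w v hwv
    rw [← hρ] at h1
    have h2 : ρ * ((K : ℝ) / primorial w * Vq (primorial w) (v + 1)) =
        (K : ℝ) / primorial w * (ρ * Vq (primorial w) (v + 1)) := by ring
    rw [h2, h1]
    field_simp
  rw [hsum, hmain, ← mul_sub, abs_mul, abs_of_pos hρ0]
  exact mul_le_mul_of_nonneg_left hleg hρ0.le

end Pool.Agent.Lib.MP_629a14_nt.Sm
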