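import Pool.Agent.Lib.MP_629a14_nt.Sm.Defs

/-! Tensorisation. -/

set_option autoImplicit false

namespace Pool.Agent.Lib.MP_629a14_nt.Sm

open Finset

/-- For `x₁, y₁ ∈ U₁` apply the second inequality to `a (x₁, ·)`, `b (y₁, ·)`, `c (x₁ + y₁, ·)`; then the
first one to `x₁ ↦ C₂ ∑ a (x₁, ·)`, `y₁ ↦ (∑ b (y₁, ·) ^ s) ^ (1/s)`, `z₁ ↦ ∑ c (z₁, ·)`. -/
theorem good_prod (G H : Type) [AddCommGroup G] [Fintype G] [AddCommGroup H] [Fintype H]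
    (U : Finset G) (V : Finset H) (s C D : ℝ) (hs : 0 < s) (hC : 0 ≤ C) (hD : 0 ≤ D)
    (h1 : Good G U s C) (h2 : Good H V s D) : Good (G × H) (U ×ˢ V) s (C * D) := by
  intro a b c ha hb hc habc
  have hin : ∀ x₁ ∈ U, ∀ y₁ ∈ U, (D * ∑ x₂ ∈ V, a (x₁, x₂)) * (∑ y₂ ∈ V, b (y₁, y₂) ^ s) ^ (1 / s) ≤
      ∑ z₂, c (x₁ + y₁, z₂) := by
    intro x₁ hx₁ y₁ hy₁
    refine h2 (fun x₂ => a (x₁, x₂)) (fun y₂ => b (y₁, y₂)) (fun z₂ => c (x₁ + y₁, z₂))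
      (fun _ => ha _) (fun _ => hb _) (fun _ => hc _) ?_
    intro x₂ hx₂ y₂ hy₂
    have h := habc (x₁, x₂) (mem_product.mpr ⟨hx₁, hx₂⟩) (y₁, y₂) (mem_product.mpr ⟨hy₁, hy₂⟩)
    exact h
  have hbs : ∀ y₁, 0 ≤ ∑ y₂ ∈ V, b (y₁, y₂) ^ s := fun y₁ =>
    sum_nonneg fun _ _ => Real.rpow_nonneg (hb _) _
  have hout := h1 (fun x₁ => D * ∑ x₂ ∈ V, a (x₁, x₂))
    (fun y₁ => (∑ y₂ ∈ V, b (y₁, y₂) ^ s) ^ (1 / s)) (fun z₁ => ∑ z₂, c (z₁, z₂))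
    (fun _ => mul_nonneg hD (sum_nonneg fun _ _ => ha _))
    (fun _ => Real.rpow_nonneg (hbs _) _) (fun _ => sum_nonneg fun _ _ => hc _) hin
  have e1 : ∀ y₁, ((∑ y₂ ∈ V, b (y₁, y₂) ^ s) ^ (1 / s)) ^ s = ∑ y₂ ∈ V, b (y₁, y₂) ^ s := by
    intro y₁
    rw [← Real.rpow_mul (hbs y₁), one_div, inv_mul_cancel₀ hs.ne', Real.rpow_one]
  simp only [e1] at hout
  rw [← mul_sum] at hout
  rw [sum_product, sum_product, Fintype.sum_prod_type]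
  calc C * D * (∑ x₁ ∈ U, ∑ x₂ ∈ V, a (x₁, x₂)) * (∑ y₁ ∈ U, ∑ y₂ ∈ V, b (y₁, y₂) ^ s) ^ (1 / s)
      = C * (D * ∑ x₁ ∈ U, ∑ x₂ ∈ V, a (x₁, x₂)) *
        (∑ y₁ ∈ U, ∑ y₂ ∈ V, b (y₁, y₂) ^ s) ^ (1 / s) := by ring
    _ ≤ _ := hout

theorem good_equiv (G H : Type) [AddCommGroup G] [Fintype G] [AddCommGroup H] [Fintype H]
    (e : G ≃+ H) (U : Finset G) (V : Finset H) (hUV : ∀ x, x ∈ U ↔ e x ∈ V) (s C : ℝ)
    (h : Good G U s C) : Good H V s C := by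
  intro a b c ha hb hc habc
  have hout := h (fun x => a (e x)) (fun x => b (e x)) (fun x => c (e x)) (fun _ => ha _)
    (fun _ => hb _) (fun _ => hc _) (by
      intro x hx y hy
      show a (e x) * b (e y) ≤ c (e (x + y))
      rw [map_add]
      exact habc _ ((hUV x).mp hx) _ ((hUV y).mp hy))
  have key : ∀ f : H → ℝ, ∑ x ∈ U, f (e x) = ∑ y ∈ V, f y := by
    intro f
    refine sum_nbij' (fun x => e x) (fun y => e.symm y) ?_ ?_ ?_ ?_ ?_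
    · intro x hx
      exact (hUV x).mp hx
    · intro y hy
      rw [hUV, AddEquiv.apply_symm_apply]
      exact hy
    · intro x _
      exact e.symm_apply_apply x
    · intro y _
      exact e.apply_symm_apply y
    · intro x _
      rfl
  have hc' : ∑ z, c (e z) = ∑ z, c z := e.toEquiv.sum_comp c
  rw [key a, key (fun y => b y ^ s), hc'] at hout
  exact hout

end Pool.Agent.Lib.MP_629a14_nt.Sm
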