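import Pool.Agent.Lib.MP_629a14_nt.Sm.JJPow
import Pool.Agent.Lib.MP_629a14_nt.Rob.PiAP

/-! Row sums. -/

set_option autoImplicit false

namespace Pool.Agent.Lib.MP_629a14_nt.Sm

open Finset Pool.Agent.Lib.MP_629a14_nt Pool.Agent.Lib.MP_629a14_nt.Rob

private theorem row_tail (w v : ℕ) (hw : 2 ≤ w) (hwv : w ≤ v) :
    ∑ p ∈ (Ioc w v).filter Nat.Prime, 1 / ((p : ℝ) - 1) ^ 2 ≤ 1 / ((w : ℝ) - 1) := by
  have h : ∀ v : ℕ, w ≤ v → ∑ n ∈ Ioc w v, 1 / ((n : ℝ) - 1) ^ 2 ≤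
      1 / ((w : ℝ) - 1) - 1 / ((v : ℝ) - 1) := by
    intro v hv
    induction v, hv using Nat.le_induction with
    | base => simp
    | succ n hn ih =>
      rw [Finset.sum_Ioc_succ_top hn]
      have hn2 : (2 : ℝ) ≤ n := by exact_mod_cast hw.trans hn
      have h1 : ((n + 1 : ℕ) : ℝ) - 1 = n := by push_cast; ring
      rw [h1]
      have h2 : 1 / (n : ℝ) ^ 2 ≤ 1 / ((n : ℝ) - 1) - 1 / n := by
        rw [div_sub_div _ _ (by linarith) (by linarith), div_le_div_iff₀ (by positivity)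
          (mul_pos (by linarith) (by linarith))]
        nlinarith
      linarith
  have h1 : ∑ p ∈ (Ioc w v).filter Nat.Prime, 1 / ((p : ℝ) - 1) ^ 2 ≤
      ∑ n ∈ Ioc w v, 1 / ((n : ℝ) - 1) ^ 2 :=
    Finset.sum_le_sum_of_subset_of_nonneg (Finset.filter_subset _ _) fun i _ _ => by positivity
  have h2 := h v hwv
  have hv2 : (2 : ℝ) ≤ v := by exact_mod_cast hw.trans hwv
  have h3 : (0 : ℝ) ≤ 1 / ((v : ℝ) - 1) := by
    apply div_nonneg zero_le_one
    linarith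
  linarith

private theorem row_prod (k w v : ℕ) (hk : 1 ≤ k) (hw : 2 * k + 2 ≤ w) (hwv : w ≤ v) :
    ∏ p ∈ (Ioc w v).filter Nat.Prime, (1 + 2 * (k : ℝ) / ((p : ℝ) - 1) ^ 2) ≤ 3 := by
  have h1 : ∏ p ∈ (Ioc w v).filter Nat.Prime, (1 + 2 * (k : ℝ) / ((p : ℝ) - 1) ^ 2) ≤
      ∏ p ∈ (Ioc w v).filter Nat.Prime, Real.exp (2 * (k : ℝ) / ((p : ℝ) - 1) ^ 2) := by
    apply Finset.prod_le_prod
    · intro i _
      positivity
    · intro i _
      have := Real.add_one_le_exp (2 * (k : ℝ) / ((i : ℝ) - 1) ^ 2)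
      linarith
  have h2 : ∏ p ∈ (Ioc w v).filter Nat.Prime, Real.exp (2 * (k : ℝ) / ((p : ℝ) - 1) ^ 2) =
      Real.exp (2 * (k : ℝ) * ∑ p ∈ (Ioc w v).filter Nat.Prime, 1 / ((p : ℝ) - 1) ^ 2) := by
    rw [← Real.exp_sum, Finset.mul_sum]
    congr 1
    refine Finset.sum_congr rfl fun i _ => ?_
    ring
  have h3 := row_tail w v (by omega) hwv
  have hk' : (1 : ℝ) ≤ k := by exact_mod_cast hk
  have hw' : (2 : ℝ) * k + 2 ≤ w := by exact_mod_cast hw
  have h4 : 2 * (k : ℝ) * ∑ p ∈ (Ioc w v).filter Nat.Prime, 1 / ((p : ℝ) - 1) ^ 2 ≤ 1 := by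
    calc 2 * (k : ℝ) * ∑ p ∈ (Ioc w v).filter Nat.Prime, 1 / ((p : ℝ) - 1) ^ 2 ≤
        2 * (k : ℝ) * (1 / ((w : ℝ) - 1)) := mul_le_mul_of_nonneg_left h3 (by positivity)
      _ ≤ 1 := by
        rw [mul_one_div, div_le_one (by linarith)]
        linarith
  calc _ ≤ _ := h1
    _ = _ := h2
    _ ≤ Real.exp 1 := Real.exp_le_exp.2 h4
    _ ≤ 3 := by
      have := Real.exp_one_lt_d9
      linarith

private theorem row_coprime (w v : ℕ) (T : Finset ℕ)
    (hT : T ⊆ (Ioc w v).filter Nat.Prime) : Nat.Coprime (primorial w) (∏ p ∈ T, p) := by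
  refine Nat.Coprime.prod_right fun p hp => ?_
  have h1 := Finset.mem_filter.1 (hT hp)
  have h2 := Finset.mem_Ioc.1 h1.1
  rw [Nat.coprime_comm, Nat.Prime.coprime_iff_not_dvd h1.2]
  intro h
  have h3 : p ≤ w := by
    unfold primorial at h
    obtain ⟨a, ha, hpa⟩ := (Prime.dvd_finset_prod_iff h1.2.prime _).1 h
    have ha' := Finset.mem_filter.1 ha
    have := (Nat.prime_dvd_prime_iff_eq h1.2 ha'.2).1 hpa
    have h4 := Finset.mem_range.1 ha'.1
    omega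
  omega

private theorem row_totient (w v : ℕ) (T : Finset ℕ)
    (hT : T ⊆ (Ioc w v).filter Nat.Prime) :
    ((∏ p ∈ T, p).totient : ℝ) = ∏ p ∈ T, ((p : ℝ) - 1) := by
  classical
  induction T using Finset.induction_on with
  | empty => simp
  | insert a s ha ih =>
    rw [Finset.prod_insert ha, Finset.prod_insert ha]
    have hs : s ⊆ (Ioc w v).filter Nat.Prime := fun x hx => hT (Finset.mem_insert_of_mem hx)
    have hap := (Finset.mem_filter.1 (hT (Finset.mem_insert_self a s))).2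
    have hc : Nat.Coprime a (∏ p ∈ s, p) := by
      refine Nat.Coprime.prod_right fun p hp => ?_
      have hpp := (Finset.mem_filter.1 (hs hp)).2
      rw [Nat.coprime_primes hap hpp]
      rintro rfl
      exact ha hp
    rw [Nat.totient_mul hc, Nat.cast_mul, ih hs, Nat.totient_prime hap,
      Nat.cast_sub hap.one_lt.le, Nat.cast_one]

/-- Fix `b`. By `pi_unif` for the finitely many moduli `primorial w * ∏ T` and all residue classes (so
that `N₀` does not depend on `b`), `φ(∏ T) = ∏ (p - 1)`, `b` is prime to the modulus (`b > v` prime): the primes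
`b' ≤ δ N` congruent to `b` modulo `primorial w * ∏ T` number at most
`2 δ N / (φ(primorial w) ∏_T (p - 1) log N)`. Sum over `T`:
`∏_{w < p ≤ v} (1 + 2 k / (p - 1)^2) ≤ exp (2 k / (w - 1)) ≤ 3`. -/
theorem row_sum (k w v : ℕ) (hk : 1 ≤ k) (hw : 2 * k + 2 ≤ w) (hwv : w ≤ v) (δ : ℝ) (hδ : 0 < δ)
    (hδ1 : δ ≤ 1) : ∃ N₀ : ℕ, ∀ N : ℕ, N₀ ≤ N → ∀ y : ZMod (primorial w), ∀ S : Finset ℕ,
      (∀ b ∈ S, b.Prime ∧ v < b ∧ (b : ℝ) ≤ δ * N ∧ (b : ZMod (primorial w)) = y) →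
      ∀ b ∈ S, ((primorial w).totient : ℝ) * Real.log N * ∑ b' ∈ S, JJ w v b b' ^ k ≤
        6 * (δ * N) := by
  classical
  obtain ⟨P, hP⟩ : ∃ P : Finset ℕ, P = (Ioc w v).filter Nat.Prime := ⟨_, rfl⟩
  have hPpos : ∀ T ∈ P.powerset, 0 < ∏ p ∈ T, p := by
    intro T hT
    refine Finset.prod_pos fun p hp => ?_
    have := (Finset.mem_filter.1 (hP ▸ (Finset.mem_powerset.1 hT) hp)).2
    exact this.pos
  have hev : ∀ᶠ N : ℕ in Filter.atTop, ∀ T ∈ P.powerset,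
      ∀ c ∈ range (primorial w * ∏ p ∈ T, p),
      Nat.Coprime c (primorial w * ∏ p ∈ T, p) → ∀ x : ℕ, x ≤ N →
      |Real.log N * (((Icc 1 x).filter
          (fun n => n.Prime ∧ n ≡ c [MOD (primorial w * ∏ p ∈ T, p)])).card : ℝ) -
        (x : ℝ) / (primorial w * ∏ p ∈ T, p).totient| ≤
        δ / (primorial w * ∏ p ∈ T, p).totient * N := by
    refine (Filter.eventually_all_finset _).2 fun T hT => ?_
    refine (Filter.eventually_all_finset _).2 fun c _ => ?_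
    by_cases hc : Nat.Coprime c (primorial w * ∏ p ∈ T, p)
    · have hq : 1 ≤ primorial w * ∏ p ∈ T, p := Nat.mul_pos (primorial_pos w) (hPpos T hT)
      have hφ : (0 : ℝ) < (primorial w * ∏ p ∈ T, p).totient := by
        exact_mod_cast Nat.totient_pos.2 hq
      obtain ⟨N₀, hN₀⟩ := pi_unif _ c hq hc (δ / (primorial w * ∏ p ∈ T, p).totient)
        (div_pos hδ hφ)
      exact Filter.eventually_atTop.2 ⟨N₀, fun N hN _ => hN₀ N hN⟩
    · exact Filter.Eventually.of_forall fun N h => absurd h hc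
  obtain ⟨N₀, hN₀⟩ := Filter.eventually_atTop.1 hev
  refine ⟨max N₀ 1, fun N hN y S hS b hb => ?_⟩
  have hN1 : 1 ≤ N := (le_max_right _ _).trans hN
  have hlog : 0 ≤ Real.log N := Real.log_natCast_nonneg N
  have hNr : (0 : ℝ) ≤ N := Nat.cast_nonneg N
  obtain ⟨φ, hφdef⟩ : ∃ φ : ℝ, φ = ((primorial w).totient : ℝ) := ⟨_, rfl⟩
  have hφ : 0 < φ := by
    rw [hφdef]
    exact_mod_cast Nat.totient_pos.2 (primorial_pos w)
  rw [← hφdef]
  obtain ⟨hbp, hvb, hbδ, hby⟩ := hS b hb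
  -- the count for one set
  have hcount : ∀ T ∈ P.powerset, φ * Real.log N *
      ((S.filter (fun b' => b ≡ b' [MOD ∏ p ∈ T, p])).card : ℝ) ≤
      2 * (δ * N) / ∏ p ∈ T, ((p : ℝ) - 1) := by
    intro T hT
    have hTP : T ⊆ (Ioc w v).filter Nat.Prime := hP ▸ Finset.mem_powerset.1 hT
    have hcop := row_coprime w v T hTP
    have htot := row_totient w v T hTP
    have hq : 0 < primorial w * ∏ p ∈ T, p := Nat.mul_pos (primorial_pos w) (hPpos T hT)
    have hqtot : ((primorial w * ∏ p ∈ T, p).totient : ℝ) = φ * ∏ p ∈ T, ((p : ℝ) - 1) := by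
      rw [Nat.totient_mul hcop, Nat.cast_mul, htot, hφdef]
    have hprodpos : (0 : ℝ) < ∏ p ∈ T, ((p : ℝ) - 1) := by
      refine Finset.prod_pos fun p hp => ?_
      have := (Finset.mem_filter.1 (hTP hp)).2.two_le
      have h2 : (2 : ℝ) ≤ p := by exact_mod_cast this
      linarith
    have hbcop : Nat.Coprime b (primorial w * ∏ p ∈ T, p) := by
      refine Nat.Coprime.mul_right ?_ ?_
      · unfold primorial
        refine Nat.Coprime.prod_right fun p hp => ?_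
        have hp' := Finset.mem_filter.1 hp
        rw [Nat.coprime_primes hbp hp'.2]
        have := Finset.mem_range.1 hp'.1
        omega
      · refine Nat.Coprime.prod_right fun p hp => ?_
        have hp' := Finset.mem_filter.1 (hTP hp)
        rw [Nat.coprime_primes hbp hp'.2]
        have := (Finset.mem_Ioc.1 hp'.1).2
        omega
    have hccop : Nat.Coprime (b % (primorial w * ∏ p ∈ T, p)) (primorial w * ∏ p ∈ T, p) := by
      have := hbcop
      rw [Nat.Coprime, Nat.gcd_comm] at this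
      rw [Nat.Coprime, ← Nat.gcd_rec]
      exact this
    have hx : ⌊δ * N⌋₊ ≤ N := by
      refine Nat.floor_le_of_le ?_
      nlinarith
    have h1 := hN₀ N ((le_max_left _ _).trans hN) T hT (b % (primorial w * ∏ p ∈ T, p))
      (Finset.mem_range.2 (Nat.mod_lt _ hq)) hccop ⌊δ * N⌋₊ hx
    have hsub : S.filter (fun b' => b ≡ b' [MOD ∏ p ∈ T, p]) ⊆ (Icc 1 ⌊δ * N⌋₊).filter
        (fun n => n.Prime ∧ n ≡ b % (primorial w * ∏ p ∈ T, p)
          [MOD (primorial w * ∏ p ∈ T, p)]) := by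
      intro b' hb'
      obtain ⟨hb'S, hmod⟩ := Finset.mem_filter.1 hb'
      obtain ⟨h1, h2, h3, h4⟩ := hS b' hb'S
      refine Finset.mem_filter.2 ⟨Finset.mem_Icc.2 ⟨h1.pos, Nat.le_floor h3⟩, h1, ?_⟩
      have h5 : b' ≡ b [MOD primorial w] := by
        rw [← ZMod.natCast_eq_natCast_iff, h4, hby]
      have h6 : b' ≡ b [MOD (primorial w * ∏ p ∈ T, p)] :=
        (Nat.modEq_and_modEq_iff_modEq_mul hcop).1 ⟨h5, hmod.symm⟩
      exact h6.trans (Nat.mod_modEq b _).symm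
    have h2 : ((S.filter (fun b' => b ≡ b' [MOD ∏ p ∈ T, p])).card : ℝ) ≤
        (((Icc 1 ⌊δ * N⌋₊).filter
        (fun n => n.Prime ∧ n ≡ b % (primorial w * ∏ p ∈ T, p)
          [MOD (primorial w * ∏ p ∈ T, p)])).card : ℝ) := by
      exact_mod_cast Finset.card_le_card hsub
    have h3 := (abs_le.1 h1).2
    have h4 : (⌊δ * N⌋₊ : ℝ) ≤ δ * N := Nat.floor_le (by positivity)
    rw [hqtot] at h3
    have h5 : Real.log N * ((S.filter (fun b' => b ≡ b' [MOD ∏ p ∈ T, p])).card : ℝ) ≤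
        2 * (δ * N) / (φ * ∏ p ∈ T, ((p : ℝ) - 1)) := by
      have h6 : Real.log N * ((S.filter (fun b' => b ≡ b' [MOD ∏ p ∈ T, p])).card : ℝ) ≤
          (⌊δ * N⌋₊ : ℝ) / (φ * ∏ p ∈ T, ((p : ℝ) - 1)) +
            δ / (φ * ∏ p ∈ T, ((p : ℝ) - 1)) * N := by
        have h7 := mul_le_mul_of_nonneg_left h2 hlog
        linarith
      have h8 : (⌊δ * N⌋₊ : ℝ) / (φ * ∏ p ∈ T, ((p : ℝ) - 1)) ≤
          (δ * N) / (φ * ∏ p ∈ T, ((p : ℝ) - 1)) :=
        div_le_div_of_nonneg_right h4 (mul_pos hφ hprodpos).le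
      have h9 : 2 * (δ * N) / (φ * ∏ p ∈ T, ((p : ℝ) - 1)) =
          (δ * N) / (φ * ∏ p ∈ T, ((p : ℝ) - 1)) + δ / (φ * ∏ p ∈ T, ((p : ℝ) - 1)) * N := by
        ring
      rw [h9]
      linarith
    calc φ * Real.log N * ((S.filter (fun b' => b ≡ b' [MOD ∏ p ∈ T, p])).card : ℝ) =
        φ * (Real.log N * ((S.filter (fun b' => b ≡ b' [MOD ∏ p ∈ T, p])).card : ℝ)) := by ring
      _ ≤ φ * (2 * (δ * N) / (φ * ∏ p ∈ T, ((p : ℝ) - 1))) :=
        mul_le_mul_of_nonneg_left h5 hφ.le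
      _ = 2 * (δ * N) / ∏ p ∈ T, ((p : ℝ) - 1) := by
        field_simp
  -- summation
  have hu : ∀ T ∈ P.powerset, (0 : ℝ) ≤ ∏ p ∈ T, (2 * (k : ℝ) / ((p : ℝ) - 1)) := by
    intro T hT
    refine Finset.prod_nonneg fun p hp => ?_
    have := (Finset.mem_filter.1 (hP ▸ (Finset.mem_powerset.1 hT) hp)).2.two_le
    have h2 : (2 : ℝ) ≤ p := by exact_mod_cast this
    exact div_nonneg (by positivity) (by linarith)
  have hA : ∑ b' ∈ S, JJ w v b b' ^ k ≤ ∑ T ∈ P.powerset,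
      (∏ p ∈ T, (2 * (k : ℝ) / ((p : ℝ) - 1))) *
        ((S.filter (fun b' => b ≡ b' [MOD ∏ p ∈ T, p])).card : ℝ) := by
    calc ∑ b' ∈ S, JJ w v b b' ^ k ≤ ∑ b' ∈ S, ∑ T ∈ P.powerset,
        (if (b ≡ b' [MOD ∏ p ∈ T, p]) then ∏ p ∈ T, (2 * (k : ℝ) / ((p : ℝ) - 1)) else 0) := by
          refine Finset.sum_le_sum fun b' _ => ?_
          rw [hP]
          exact JJ_pow k w v b b' hk hw
      _ = ∑ T ∈ P.powerset, ∑ b' ∈ S,
        (if (b ≡ b' [MOD ∏ p ∈ T, p]) then ∏ p ∈ T, (2 * (k : ℝ) / ((p : ℝ) - 1)) else 0) :=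
          Finset.sum_comm
      _ = _ := by
        refine Finset.sum_congr rfl fun T _ => ?_
        rw [← Finset.sum_filter, Finset.sum_const, nsmul_eq_mul, mul_comm]
  calc φ * Real.log N * ∑ b' ∈ S, JJ w v b b' ^ k ≤ φ * Real.log N * ∑ T ∈ P.powerset,
      (∏ p ∈ T, (2 * (k : ℝ) / ((p : ℝ) - 1))) *
        ((S.filter (fun b' => b ≡ b' [MOD ∏ p ∈ T, p])).card : ℝ) :=
        mul_le_mul_of_nonneg_left hA (mul_nonneg hφ.le hlog)
    _ = ∑ T ∈ P.powerset, (∏ p ∈ T, (2 * (k : ℝ) / ((p : ℝ) - 1))) * (φ * Real.log N *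
        ((S.filter (fun b' => b ≡ b' [MOD ∏ p ∈ T, p])).card : ℝ)) := by
        rw [Finset.mul_sum]
        refine Finset.sum_congr rfl fun T _ => ?_
        ring
    _ ≤ ∑ T ∈ P.powerset, (∏ p ∈ T, (2 * (k : ℝ) / ((p : ℝ) - 1))) *
        (2 * (δ * N) / ∏ p ∈ T, ((p : ℝ) - 1)) :=
        Finset.sum_le_sum fun T hT => mul_le_mul_of_nonneg_left (hcount T hT) (hu T hT)
    _ = 2 * (δ * N) * ∑ T ∈ P.powerset, ∏ p ∈ T, (2 * (k : ℝ) / ((p : ℝ) - 1) ^ 2) := by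
        rw [Finset.mul_sum]
        refine Finset.sum_congr rfl fun T _ => ?_
        have : ∏ p ∈ T, (2 * (k : ℝ) / ((p : ℝ) - 1) ^ 2) =
            (∏ p ∈ T, (2 * (k : ℝ) / ((p : ℝ) - 1))) / ∏ p ∈ T, ((p : ℝ) - 1) := by
          rw [← Finset.prod_div_distrib]
          refine Finset.prod_congr rfl fun p _ => ?_
          rw [div_div, sq]
        rw [this]
        ring
    _ = 2 * (δ * N) * ∏ p ∈ P, (1 + 2 * (k : ℝ) / ((p : ℝ) - 1) ^ 2) := by
        rw [Finset.prod_one_add]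
    _ ≤ 2 * (δ * N) * 3 := by
        refine mul_le_mul_of_nonneg_left ?_ (by positivity)
        rw [hP]
        exact row_prod k w v hk hw hwv
    _ = 6 * (δ * N) := by ring

end Pool.Agent.Lib.MP_629a14_nt.Sm
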