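import Pool.Agent.Lib.MP_629a14_nt.Sm.GoodS
import Pool.Agent.Lib.MP_629a14_nt.Sm.GoodL
import Pool.Agent.Lib.MP_629a14_nt.Sm.ProdC

/-! The inequality modulo a squarefree number. -/

set_option autoImplicit false

namespace Pool.Agent.Lib.MP_629a14_nt.Sm

open Finset

private theorem sE_pos' (q : ℕ) (h5 : 5 ≤ q) : 0 < sE (q - 1) := by
  have h1 := sE_mono 4 (q - 1) (by norm_num) (by omega)
  have h2 := sE_four
  linarith

private theorem good_one' (s : ℝ) (hs : 0 < s) : Good (ZMod 1) (UM 1) s 1 := by
  classical
  intro a b c _ hb _ h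
  have hU : UM 1 = ({0} : Finset (ZMod 1)) := by
    ext x
    have hx : x = 0 := Subsingleton.elim _ _
    simp only [UM, mem_filter, mem_univ, true_and, mem_singleton]
    constructor
    · intro _
      exact hx
    · intro _
      exact isUnit_of_subsingleton x
  have huniv : (univ : Finset (ZMod 1)) = {0} := by
    ext x
    have hx : x = 0 := Subsingleton.elim _ _
    simp only [mem_univ, mem_singleton, true_iff]
    exact hx
  have h0 := h 0 (by rw [hU]; simp) 0 (by rw [hU]; simp)
  rw [hU, huniv, sum_singleton, sum_singleton, sum_singleton, ← Real.rpow_mul (hb 0),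
    mul_one_div_cancel hs.ne', Real.rpow_one, one_mul]
  simpa using h0

private theorem sqf_aux (q : ℕ) (hq : q.Prime) (h5 : 5 ≤ q) (n : ℕ) :
    ∀ m : ℕ, m ≤ n → ∀ [NeZero m], Squarefree m → Good (ZMod m) (UM m) (sE (q - 1))
      (∏ p ∈ m.primeFactors.filter (fun p => q < p),
        ((p : ℝ) / ((p : ℝ) - 1) ^ (1 + 1 / sE (q - 1)))) := by
  have hs := sE_pos' q h5
  have hfac : ∀ p : ℕ, q < p → 0 ≤ ((p : ℝ) / ((p : ℝ) - 1) ^ (1 + 1 / sE (q - 1))) := by
    intro p hp
    have h1 : (1 : ℝ) ≤ p := by
      have : 1 ≤ p := by omega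
      exact_mod_cast this
    have h2 : (0 : ℝ) ≤ (p : ℝ) - 1 := by linarith
    exact div_nonneg (by linarith) (Real.rpow_nonneg h2 _)
  induction n with
  | zero =>
    intro m hm inst _
    exact absurd (Nat.le_zero.mp hm) inst.out
  | succ n ih =>
    intro m hmn inst hm
    by_cases h1 : m = 1
    · subst h1
      have h2 : (∏ p ∈ (Nat.primeFactors 1).filter (fun p => q < p),
          ((p : ℝ) / ((p : ℝ) - 1) ^ (1 + 1 / sE (q - 1)))) = 1 := by
        simp
      rw [h2]
      have h3 : inst = (inferInstance : NeZero 1) := Subsingleton.elim _ _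
      rw [h3]
      exact good_one' (sE (q - 1)) hs
    · have hp := Nat.minFac_prime h1
      obtain ⟨m', hm'⟩ := Nat.minFac_dvd m
      obtain ⟨p, hpe⟩ : ∃ p, p = m.minFac := ⟨_, rfl⟩
      rw [← hpe] at hp hm'
      clear hpe
      rw [mul_comm] at hm'
      subst hm'
      have hp0 : p ≠ 0 := hp.ne_zero
      have hm0 : m' ≠ 0 := by
        intro h0
        exact inst.out (by rw [h0, zero_mul])
      obtain ⟨hcop, hsq, _⟩ := Nat.squarefree_mul_iff.mp hm
      haveI : NeZero m' := ⟨hm0⟩
      haveI : Fact p.Prime := ⟨hp⟩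
      have hlt : m' ≤ n := by
        have := hp.two_le
        have h3 : 0 < m' := Nat.pos_of_ne_zero hm0
        nlinarith
      have h4 := ih m' hlt hsq
      have hpf : (m' * p).primeFactors = m'.primeFactors ∪ {p} := by
        rw [Nat.primeFactors_mul hm0 hp0, hp.primeFactors]
      have hnot : p ∉ m'.primeFactors := by
        intro h5
        have h6 := Nat.dvd_of_mem_primeFactors h5
        have h7 := Nat.dvd_gcd h6 (dvd_refl p)
        rw [Nat.coprime_iff_gcd_eq_one.mp hcop] at h7
        exact hp.one_lt.ne' (Nat.dvd_one.mp h7)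
      have hC : 0 ≤ (∏ p ∈ m'.primeFactors.filter (fun p => q < p),
          ((p : ℝ) / ((p : ℝ) - 1) ^ (1 + 1 / sE (q - 1)))) := by
        refine prod_nonneg fun r hr => hfac r ?_
        exact (mem_filter.mp hr).2
      rw [hpf, filter_union]
      rcases Nat.lt_or_ge q p with hqp | hqp
      · have h8 : ({p} : Finset ℕ).filter (fun p => q < p) = {p} := by
          rw [filter_eq_self]
          intro x hx
          rw [mem_singleton.mp hx]
          exact hqp
        rw [h8, prod_union, prod_singleton]
        · exact good_coprime m' p hcop _ _ _ hs hC (hfac p hqp) h4 (good_large q p hq h5 hqp)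
        · rw [disjoint_singleton_right]
          intro h9
          exact hnot (mem_filter.mp h9).1
      · have h8 : ({p} : Finset ℕ).filter (fun p => q < p) = ∅ := by
          rw [filter_eq_empty_iff]
          intro x hx
          rw [mem_singleton.mp hx]
          omega
        rw [h8, union_empty]
        have h10 := good_coprime m' p hcop _ _ 1 hs hC zero_le_one h4 (good_small q p hq h5 hqp)
        rwa [mul_one] at h10

/-- Strong induction on `m`: for `m = 1` both sides are `a 0 * b 0` and `c 0`; otherwise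
`p = m.minFac`, `m = m' * p`, `m'` coprime to `p`; `good_coprime`, `good_small` (`p ≤ q`),
`good_large` (`q < p`); the product over `p ≤ q` has factors `1`. -/
theorem good_sqf (q : ℕ) (hq : q.Prime) (h5 : 5 ≤ q) (m : ℕ) [NeZero m] (hm : Squarefree m) :
    Good (ZMod m) (UM m) (sE (q - 1))
      (∏ p ∈ m.primeFactors.filter (fun p => q < p),
        ((p : ℝ) / ((p : ℝ) - 1) ^ (1 + 1 / sE (q - 1)))) :=
  sqf_aux q hq h5 m m le_rfl hm

end Pool.Agent.Lib.MP_629a14_nt.Sm
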