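import Pool.Agent.Lib.MP_629a14_nt.Sm.Defs

/-! An elementary inequality. -/

set_option autoImplicit false

namespace Pool.Agent.Lib.MP_629a14_nt.Sm

open Finset

private theorem star_exp_pos {t : ℝ} (ht : 0 < t) : 0 < Real.exp t - 1 := by
  have := Real.add_one_lt_exp ht.ne'
  linarith

private theorem star_conv {L t : ℝ} (hL : 0 < L) (ht : 0 < t) (htL : t ≤ L) :
    t * (1 - Real.exp (-L)) ≤ L * (1 - Real.exp (-t)) := by
  have ha : 0 ≤ t / L := by positivity
  have hb : 0 ≤ 1 - t / L := by rw [sub_nonneg, div_le_one hL]; exact htL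
  have hab : t / L + (1 - t / L) = 1 := by ring
  have h := convexOn_exp.2 (Set.mem_univ (-L)) (Set.mem_univ (0 : ℝ)) ha hb hab
  simp only [smul_eq_mul, mul_zero, add_zero, Real.exp_zero, mul_one] at h
  have e1 : t / L * -L = -t := by field_simp
  rw [e1] at h
  have h2 := mul_le_mul_of_nonneg_left h hL.le
  have e2 : L * (t / L * Real.exp (-L) + (1 - t / L)) = t * Real.exp (-L) + (L - t) := by
    field_simp
  rw [e2] at h2
  nlinarith

/-- `D(y) = log (exp y - 1) - a log y`, `a = L / (1 - exp (-L))`, is antitone on `(0, L]`: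
`D'(y) = exp y / (exp y - 1) - a / y ≤ 0` is `y (1 - exp (-L)) ≤ L (1 - exp (-y))`, which is convexity of
`exp` (`-y = (y / L) (-L) + (1 - y / L) 0`). Then `D(y) ≥ D(L)`. -/
theorem star (L y : ℝ) (hy : 0 < y) (hyL : y ≤ L) :
    (y / L) ^ (L / (1 - Real.exp (-L))) ≤ (Real.exp y - 1) / (Real.exp L - 1) := by
  have hL : 0 < L := hy.trans_le hyL
  have hE : 0 < 1 - Real.exp (-L) := by
    have : Real.exp (-L) < 1 := by rw [Real.exp_lt_one_iff]; linarith
    linarith
  set a : ℝ := L / (1 - Real.exp (-L)) with ha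
  have ha0 : 0 < a := div_pos hL hE
  have hd : ∀ t : ℝ, 0 < t → HasDerivAt (fun t => Real.log (Real.exp t - 1) - a * Real.log t)
      (Real.exp t / (Real.exp t - 1) - a * t⁻¹) t := by
    intro t ht
    have h1 : HasDerivAt (fun t => Real.exp t - 1) (Real.exp t) t :=
      (Real.hasDerivAt_exp t).sub_const 1
    exact (h1.log (star_exp_pos ht).ne').sub ((Real.hasDerivAt_log ht.ne').const_mul a)
  have hanti : AntitoneOn (fun t => Real.log (Real.exp t - 1) - a * Real.log t)
      (Set.Icc y L) := by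
    refine antitoneOn_of_deriv_nonpos (convex_Icc y L) (fun t ht => ?_) (fun t ht => ?_)
      fun t ht => ?_
    · exact (hd t (hy.trans_le ht.1)).continuousAt.continuousWithinAt
    · rw [interior_Icc] at ht
      exact (hd t (hy.trans ht.1)).differentiableAt.differentiableWithinAt
    · rw [interior_Icc] at ht
      have ht0 : 0 < t := hy.trans ht.1
      rw [(hd t ht0).deriv, sub_nonpos, ← div_eq_mul_inv, div_le_div_iff₀ (star_exp_pos ht0) ht0,
        ha, div_mul_eq_mul_div, le_div_iff₀ hE]
      have h1 := star_conv hL ht0 ht.2.le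
      have h2 := mul_le_mul_of_nonneg_left h1 (Real.exp_pos t).le
      have e1 : Real.exp t * Real.exp (-t) = 1 := by rw [← Real.exp_add]; simp
      calc Real.exp t * t * (1 - Real.exp (-L)) = Real.exp t * (t * (1 - Real.exp (-L))) := by ring
        _ ≤ Real.exp t * (L * (1 - Real.exp (-t))) := h2
        _ = L * (Real.exp t - Real.exp t * Real.exp (-t)) := by ring
        _ = L * (Real.exp t - 1) := by rw [e1]
  have h3 := hanti (Set.left_mem_Icc.2 hyL) (Set.right_mem_Icc.2 hyL) hyL
  simp only at h3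
  have hp1 := star_exp_pos hy
  have hp2 := star_exp_pos hL
  rw [Real.rpow_def_of_pos (by positivity), Real.log_div hy.ne' hL.ne']
  rw [← Real.exp_log (div_pos hp1 hp2), Real.log_div hp1.ne' hp2.ne']
  apply Real.exp_le_exp.2
  linarith

end Pool.Agent.Lib.MP_629a14_nt.Sm
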